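import Pool.Agent.Helper76.OB.Defs

set_option autoImplicit false

/-!
# SPT / Sel: selection of numbers with disjoint sets of large prime factors, counting lemmas
-/

open Finset Classical Pool.Agent.Helper76.OB

namespace Pool.Agent.SPT

/-- pairwise disjoint sets -/
def PD (U : ℕ → Finset ℕ) (S' : Finset ℕ) : Prop :=
  ∀ n ∈ S', ∀ m ∈ S', n ≠ m → Disjoint (U n) (U m)

/-- A family with pairwise disjoint sets can be selected. -/
theorem exists_disjoint_family (S : Finset ℕ) (U : ℕ → Finset ℕ) (K L : ℕ)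
    (hK : ∀ n ∈ S, (U n).card ≤ K) (hL : ∀ p, (S.filter (fun n => p ∈ U n)).card ≤ L) :
    ∃ S' ⊆ S, (∀ n ∈ S', ∀ m ∈ S', n ≠ m → Disjoint (U n) (U m)) ∧
      S.card ≤ S'.card * (K * L + 1) := by
  obtain ⟨F, hF⟩ : ∃ F : Finset (Finset ℕ), F = S.powerset.filter (PD U) := ⟨_, rfl⟩
  have hFne : F.Nonempty := ⟨∅, by
    rw [hF, mem_filter]
    exact ⟨empty_mem_powerset S, fun n hn => absurd hn (notMem_empty n)⟩⟩
  obtain ⟨S', hS', hmax⟩ := exists_max_image F Finset.card hFne
  rw [hF, mem_filter, mem_powerset] at hS'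
  obtain ⟨hsub, hdis⟩ := hS'
  refine ⟨S', hsub, hdis, ?_⟩
  have hcov : S ⊆ S' ∪ S'.biUnion (fun m => (U m).biUnion fun p => S.filter (fun n => p ∈ U n)) := by
    intro n hn
    by_cases hn' : n ∈ S'
    · exact mem_union_left _ hn'
    · refine mem_union_right _ ?_
      by_contra hcon
      have hall : ∀ m ∈ S', Disjoint (U n) (U m) := by
        intro m hm
        rw [disjoint_left]
        intro p hp hpm
        exact hcon (mem_biUnion.2 ⟨m, hm, mem_biUnion.2 ⟨p, hpm, mem_filter.2 ⟨hn, hp⟩⟩⟩)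
      have hins : insert n S' ∈ F := by
        rw [hF, mem_filter, mem_powerset]
        refine ⟨insert_subset hn hsub, ?_⟩
        intro a ha b hb hab
        rcases mem_insert.1 ha with ha | ha <;> rcases mem_insert.1 hb with hb | hb
        · exact absurd (ha.trans hb.symm) hab
        · rw [ha]; exact hall b hb
        · rw [hb]; exact (hall a ha).symm
        · exact hdis a ha b hb hab
      have := hmax _ hins
      rw [card_insert_of_notMem hn'] at this
      omega
  have h1 := card_le_card hcov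
  have h2 : (S'.biUnion (fun m => (U m).biUnion fun p => S.filter (fun n => p ∈ U n))).card ≤
      S'.card * (K * L) := by
    refine card_biUnion_le_card_mul _ _ _ fun m hm => ?_
    refine (card_biUnion_le_card_mul _ _ L fun p _ => hL p).trans ?_
    exact Nat.mul_le_mul_right L (hK m (hsub hm))
  have h3 := card_union_le S' (S'.biUnion (fun m => (U m).biUnion fun p =>
    S.filter (fun n => p ∈ U n)))
  have h4 : S'.card * (K * L + 1) = S'.card * (K * L) + S'.card := by ring
  omega

/-- the primes in `(y, R]` which divide `n` -/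
noncomputable def Qf (y R n : ℕ) : Finset ℕ := (PR y R).filter (fun p => p ∣ n)

theorem mem_Qf {y R n p : ℕ} : p ∈ Qf y R n ↔ ((y < p ∧ p ≤ R) ∧ p.Prime) ∧ p ∣ n := by
  rw [Qf, mem_filter, mem_PR]

theorem Qf_subset (y R n : ℕ) : Qf y R n ⊆ PR y R := filter_subset _ _

theorem pow_card_Qf_le (y R n : ℕ) (hn : 1 ≤ n) : y ^ (Qf y R n).card ≤ n := by
  have h1 : ∏ p ∈ Qf y R n, p ∣ n := by
    refine Finset.prod_primes_dvd n (fun p hp => ?_) fun p hp => (mem_Qf.1 hp).2
    exact (mem_Qf.1 hp).1.2.prime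
  have h2 := Nat.le_of_dvd hn h1
  refine le_trans ?_ h2
  rw [← Finset.prod_const]
  exact Finset.prod_le_prod' fun p hp => (mem_Qf.1 hp).1.1.1.le

theorem Qf_disjoint_pred (y R n : ℕ) (hn : 1 ≤ n) : Disjoint (Qf y R (n - 1)) (Qf y R n) := by
  rw [disjoint_left]
  intro p h1 h2
  rw [mem_Qf] at h1 h2
  have h3 : p ∣ n - (n - 1) := Nat.dvd_sub h2.2 h1.2
  rw [show n - (n - 1) = 1 by omega] at h3
  exact h1.1.2.one_lt.ne' (Nat.dvd_one.1 h3)

/-- multiples of `p` in an interval -/
theorem card_dvd_le (N H p : ℕ) (hp : 1 ≤ p) (a : ℕ) :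
    ((Ioc N (N + H)).filter (fun n => p ∣ n + a)).card ≤ H / p + 1 := by
  have h1 : ((Ioc N (N + H)).filter (fun n => p ∣ n + a)).card ≤
      ((Ioc ((N + a) / p) ((N + H + a) / p))).card := by
    refine card_le_card_of_injOn (fun n => (n + a) / p) ?_ ?_
    · intro n hn
      have hn' := mem_filter.1 hn
      rw [mem_Ioc] at hn'
      obtain ⟨⟨h2, h3⟩, h4⟩ := hn'
      rw [coe_Ioc, Set.mem_Ioc]
      obtain ⟨k, hk⟩ := h4
      have hk' : (n + a) / p = k := by
        rw [hk]; exact Nat.mul_div_cancel_left k hp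
      simp only [hk']
      constructor
      · rw [Nat.div_lt_iff_lt_mul hp, mul_comm, ← hk]
        omega
      · rw [Nat.le_div_iff_mul_le hp, mul_comm, ← hk]
        omega
    · intro n hn m hm hnm
      have hn' := (mem_filter.1 hn).2
      have hm' := (mem_filter.1 hm).2
      simp only at hnm
      have h5 := Nat.div_mul_cancel hn'
      have h6 := Nat.div_mul_cancel hm'
      rw [hnm] at h5
      omega
  refine h1.trans ?_
  rw [Nat.card_Ioc]
  have h2 : (N + H + a) / p ≤ (N + a) / p + H / p + 1 := by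
    have h3 : N + H + a = (N + a) + H := by omega
    rw [h3]
    have h4 := Nat.div_add_mod (N + a) p
    have h5 := Nat.div_add_mod H p
    have h6 := Nat.mod_lt (N + a) hp
    have h7 := Nat.mod_lt H hp
    rw [Nat.div_le_iff_le_mul_add_pred hp]
    have h8 : p * ((N + a) / p + H / p + 1) = p * ((N + a) / p) + p * (H / p) + p := by ring
    omega
  exact Nat.sub_le_iff_le_add.2 (by linarith)

theorem card_dvd_pred_le (N H p : ℕ) (hp : 1 ≤ p) :
    ((Ioc N (N + H)).filter (fun n => p ∣ n - 1)).card ≤ H / p + 1 := by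
  have h := card_dvd_le N H p hp (p - 1)
  refine le_trans (card_le_card ?_) h
  intro n hn
  rw [mem_filter, mem_Ioc] at hn ⊢
  refine ⟨hn.1, ?_⟩
  have : n + (p - 1) = (n - 1) + p := by omega
  rw [this]
  exact Nat.dvd_add hn.2 (dvd_refl p)

end Pool.Agent.SPT
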