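import Pool.Agent.RG.SievL
import Pool.Agent.SPT.Sel

set_option autoImplicit false

/-!
# SPT / Cls: the linear sieve with arbitrary classes in an interval

By the Chinese remainder theorem the classes can be shifted to `0`.
-/

open Finset Classical Pool.Agent.Helper76.OB

namespace Pool.Agent.SPT

theorem exists_shift (y : ℕ) (T : Finset ℕ) : ∃ a : ℕ, ∀ p ∈ PR 1 y, ∀ n : ℕ,
    n ≡ cl T p [MOD p] ↔ p ∣ n + a := by
  have hcl : ∀ p ∈ PR 1 y, cl T p ≤ p := by
    intro p hp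
    have := (mem_PR.1 hp).2.one_lt
    unfold cl
    split_ifs <;> omega
  obtain ⟨a, ha⟩ := Nat.chineseRemainderOfFinset (fun p => p - cl T p) (fun p => p) (PR 1 y)
    (fun p hp => (mem_PR.1 hp).2.ne_zero)
    (fun p hp q hq hpq => (Nat.coprime_primes (mem_PR.1 hp).2 (mem_PR.1 hq).2).2 hpq)
  refine ⟨a, fun p hp n => ?_⟩
  have h1 := ha p hp
  have h2 := hcl p hp
  have h3 : a + cl T p ≡ 0 [MOD p] := by
    have h4 : a + cl T p ≡ (p - cl T p) + cl T p [MOD p] := Nat.ModEq.add_right _ h1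
    rw [Nat.sub_add_cancel h2] at h4
    exact h4.trans (by simp [Nat.ModEq])
  constructor
  · intro h
    rw [← Nat.modEq_zero_iff_dvd]
    have h5 : n + a ≡ cl T p + a [MOD p] := Nat.ModEq.add_right _ h
    rw [add_comm (cl T p) a] at h5
    exact h5.trans h3
  · intro h
    rw [← Nat.modEq_zero_iff_dvd] at h
    have h5 : n + a ≡ cl T p + a [MOD p] := by
      rw [add_comm (cl T p) a]
      exact h.trans h3.symm
    exact Nat.ModEq.add_right_cancel' a h5

theorem sieve_cls : ∃ (c : ℝ) (y0 : ℕ), 0 < c ∧ 2 ≤ y0 ∧ ∀ y : ℕ, y0 ≤ y → ∀ (N H : ℕ)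
    (T : Finset ℕ), y ^ 3 ≤ H →
      c * H / Real.log y ≤ (((Ioc N (N + H)).filter (fun n => Sur T (PR 1 y) n)).card : ℝ) := by
  obtain ⟨c, y0, hc, hy0, h⟩ := Pool.Agent.RG.linear_sieve 1 one_pos
  refine ⟨c, y0, hc, hy0, fun y hy N H T hH => ?_⟩
  obtain ⟨a, ha⟩ := exists_shift y T
  have h1 := h y hy (N + 1 + a) H (by
    have : (2 : ℝ) + 1 = ((3 : ℕ) : ℝ) := by norm_num
    rw [this, Real.rpow_natCast]
    exact_mod_cast hH)
  refine h1.trans ?_
  have h2 : ((Ico (N + 1 + a) (N + 1 + a + H)).filter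
      (fun n : ℕ => ∀ p ∈ Pool.Agent.RG.prm 0 y, ¬ p ∣ n)).card ≤
      ((Ioc N (N + H)).filter (fun n => Sur T (PR 1 y) n)).card := by
    refine card_le_card_of_injOn (fun n => n - a) ?_ ?_
    · intro n hn
      have hn' := mem_filter.1 hn
      rw [mem_Ico] at hn'
      obtain ⟨⟨h3, h4⟩, h5⟩ := hn'
      refine mem_coe.2 (mem_filter.2 ⟨mem_Ioc.2 ⟨?_, ?_⟩, ?_⟩)
      · show N < n - a
        omega
      · show n - a ≤ N + H
        omega
      intro p hp hmod
      change n - a ≡ cl T p [MOD p] at hmod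
      rw [ha p hp] at hmod
      rw [show n - a + a = n by omega] at hmod
      rw [mem_PR] at hp
      exact h5 p (Pool.Agent.RG.mem_prm.2 ⟨⟨by omega, hp.1.2⟩, hp.2⟩) hmod
    · intro n hn m hm hnm
      have hn' := (mem_Ico.1 (mem_filter.1 hn).1).1
      have hm' := (mem_Ico.1 (mem_filter.1 hm).1).1
      simp only at hnm
      omega
  exact_mod_cast h2

end Pool.Agent.SPT
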