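import Mathlib

set_option autoImplicit false

/-!
# SPT / Num: the choice of the parameters

`L = log N`, `G = g N` with `log L ≤ G ≤ L / 25`, `s = √(L G)`, `y = ⌊exp (3 s / 2)⌋`.
-/

open Filter

namespace Pool.Agent.SPT

/-- the level of the sieve -/
noncomputable def yT (g : ℝ → ℝ) (N : ℕ) : ℕ :=
  ⌊Real.exp (3 / 2 * √(Real.log N * g N))⌋₊

/-- the bound for the number of large prime factors -/
noncomputable def KT (g : ℝ → ℝ) (N : ℕ) : ℕ := ⌊Real.log (2 * N) / Real.log (yT g N)⌋₊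

/-- facts about `L` -/
theorem num_real (c : ℝ) (hc : 0 < c) (M : ℝ) : ∀ᶠ L : ℝ in atTop,
    1 ≤ Real.log L ∧ M ≤ L ∧ 28 ≤ √L ∧ 72 * L ^ 2 ≤ c * Real.exp (1 / 12 * √L) ∧ M ≤ √L := by
  have h1 := Real.tendsto_log_atTop.eventually_ge_atTop 1
  have h2 := eventually_ge_atTop M
  have h2' := eventually_ge_atTop (M ^ 2)
  have h3 := eventually_ge_atTop ((28 : ℝ) ^ 2)
  have h5 : ∀ᶠ L : ℝ in atTop, 72 * L ^ 2 ≤ c * Real.exp (1 / 12 * √L) := by
    have h6 : Tendsto (fun t : ℝ => t ^ 4 * Real.exp (-(1 / 12) * t)) atTop (nhds 0) := by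
      have := Real.tendsto_pow_mul_exp_neg_atTop_nhds_zero 4
      have h7 : Tendsto (fun t : ℝ => 1 / 12 * t) atTop atTop :=
        tendsto_id.const_mul_atTop (by positivity)
      have h8 := (this.comp h7).const_mul (12 ^ 4)
      rw [mul_zero] at h8
      refine h8.congr fun t => ?_
      simp only [Function.comp]
      rw [neg_mul, mul_pow]
      field_simp
    have h9 := (h6.const_mul 72).eventually_lt_const (u := c) (by rw [mul_zero]; exact hc)
    have h10 : Tendsto (fun L : ℝ => √L) atTop atTop := Real.tendsto_sqrt_atTop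
    filter_upwards [h10.eventually h9, eventually_ge_atTop 0] with L hL hL0
    have h11 : (√L) ^ 4 = L ^ 2 := by
      rw [show 4 = 2 * 2 by norm_num, pow_mul, Real.sq_sqrt hL0]
    rw [h11, neg_mul, Real.exp_neg, ← mul_assoc, ← div_eq_mul_inv, div_lt_iff₀ (Real.exp_pos _)] at hL
    exact hL.le
  filter_upwards [h1, h2, h3, h5, eventually_ge_atTop 1, h2'] with L h1 h2 h3 h5 h6 h7
  refine ⟨h1, h2, ?_, h5, ?_⟩
  · exact Real.le_sqrt_of_sq_le h3
  · exact Real.le_sqrt_of_sq_le h7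

theorem num (g : ℝ → ℝ) (hg1 : ∀ᶠ x : ℝ in atTop, Real.log (Real.log x) ≤ g x)
    (hg2 : ∀ᶠ x : ℝ in atTop, g x ≤ Real.log x / 25) (c : ℝ) (hc : 0 < c) (y0 : ℕ) :
    ∀ᶠ N : ℕ in atTop,
    y0 ≤ yT g N ∧ 1 ≤ KT g N ∧ 1 ≤ N ∧ N + (yT g N) ^ 3 ≤ 2 * N ∧
    N + (yT g N) ^ 3 < (yT g N) ^ (KT g N + 1) ∧ yT g N ≤ Nat.sqrt (2 * N) ∧
    0 ≤ g N ∧ Nat.sqrt (2 * N) ≤ N ∧
    Real.exp (-((Real.exp (-g N)) ^ (2 * KT g N) *
      (c * yT g N / (9 * KT g N * Real.log (yT g N))))) ≤ 1 / (N : ℝ) ^ 2 := by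
  have hL : Tendsto (fun N : ℕ => Real.log (N : ℝ)) atTop atTop :=
    Real.tendsto_log_atTop.comp tendsto_natCast_atTop_atTop
  filter_upwards [hL.eventually (num_real c hc (y0 + 2)), eventually_ge_atTop 1,
    tendsto_natCast_atTop_atTop.eventually hg1, tendsto_natCast_atTop_atTop.eventually hg2]
    with N h hN hG1 hG2
  obtain ⟨h1, h2, h4, h6, h7⟩ := h
  obtain ⟨L, hLd⟩ : ∃ L, L = Real.log (N : ℝ) := ⟨_, rfl⟩
  obtain ⟨G, hGd⟩ : ∃ G, G = g N := ⟨_, rfl⟩
  obtain ⟨s, hs⟩ : ∃ s, s = √(Real.log N * g N) := ⟨_, rfl⟩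
  rw [← hLd, ← hGd] at hG1 hG2
  rw [← hLd] at h1 h2 h4 h6 h7
  have hNR : (1 : ℝ) ≤ N := by exact_mod_cast hN
  have hL1 : 1 ≤ L := by linarith [Nat.cast_nonneg (α := ℝ) y0]
  have hG0 : 1 ≤ G := by linarith
  have hsL : √L ≤ s := by
    rw [hs, ← hLd, ← hGd]
    exact Real.sqrt_le_sqrt (by nlinarith)
  have hs28 : 28 ≤ s := h4.trans hsL
  have hsq : s ^ 2 = L * G := by
    rw [hs, ← hLd, ← hGd, Real.sq_sqrt (by nlinarith)]
  have hGs : G ≤ s := by
    rw [hs, ← hLd, ← hGd]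
    exact Real.le_sqrt_of_sq_le (by nlinarith)
  have h3 : 9 / 2 * s ≤ L := by
    have e1 : (9 / 2 * s) ^ 2 ≤ L ^ 2 := by
      rw [mul_pow, hsq]
      nlinarith
    exact abs_le_of_sq_le_sq' e1 (by linarith) |>.2
  have h6' : 72 * L ^ 2 ≤ c * Real.exp (1 / 12 * s) := h6.trans
    (mul_le_mul_of_nonneg_left (Real.exp_le_exp.2 (by linarith)) hc.le)
  have h7' : (y0 : ℝ) + 2 ≤ s := h7.trans hsL
  have hexpL : Real.exp L = N := by rw [hLd, Real.exp_log (by linarith)]
  obtain ⟨y, hy⟩ : ∃ y, y = yT g N := ⟨_, rfl⟩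
  have hy' : y = ⌊Real.exp (3 / 2 * s)⌋₊ := by rw [hy, hs]; rfl
  have hyle : (y : ℝ) ≤ Real.exp (3 / 2 * s) := by rw [hy']; exact Nat.floor_le (Real.exp_pos _).le
  have hexp_big : s + 1 ≤ Real.exp (3 / 2 * s) := by
    refine (Real.add_one_le_exp s).trans (Real.exp_le_exp.2 ?_)
    nlinarith
  have hylt : Real.exp (3 / 2 * s) < y + 1 := by rw [hy']; exact Nat.lt_floor_add_one _
  have hy0 : y0 + 2 ≤ y := by
    have h8 : ((y0 + 2 : ℕ) : ℝ) < ((y + 1 : ℕ) : ℝ) := by push_cast; linarith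
    have h9 : y0 + 2 < y + 1 := by exact_mod_cast h8
    omega
  have hyR : (2 : ℝ) ≤ y := by exact_mod_cast (by omega : 2 ≤ y)
  have hyhalf : Real.exp (3 / 2 * s) ≤ 2 * y := by linarith
  have hlog2 : Real.log 2 ≤ 1 := by
    have := Real.log_two_lt_d9
    linarith
  have hlog2' : 0 < Real.log 2 := Real.log_pos (by norm_num)
  have hlogy_ge : 3 / 2 * s - 1 ≤ Real.log y := by
    have h8 : 3 / 2 * s ≤ Real.log (2 * y) := by
      rw [Real.le_log_iff_exp_le (by positivity)]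
      exact hyhalf
    rw [Real.log_mul (by norm_num) (by linarith)] at h8
    linarith
  have hlogy_le : Real.log y ≤ 3 / 2 * s := by
    rw [Real.log_le_iff_le_exp (by linarith)]
    exact hyle
  have hlogy_pos : 0 < Real.log y := Real.log_pos (by linarith)
  obtain ⟨K, hK⟩ : ∃ K, K = KT g N := ⟨_, rfl⟩
  have hK' : K = ⌊Real.log (2 * N) / Real.log y⌋₊ := by rw [hK, hy]; rfl
  have hlog2N : Real.log (2 * N) = Real.log 2 + L := by
    rw [Real.log_mul (by norm_num) (by linarith), hLd]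
  have hy3 : (y : ℝ) ^ 3 ≤ N := by
    calc (y : ℝ) ^ 3 ≤ (Real.exp (3 / 2 * s)) ^ 3 := pow_le_pow_left₀ (by linarith) hyle 3
      _ = Real.exp (9 / 2 * s) := by
          rw [← Real.exp_nat_mul]; congr 1; push_cast; ring
      _ ≤ Real.exp L := Real.exp_le_exp.2 h3
      _ = N := hexpL
  have hy3' : y ^ 3 ≤ N := by exact_mod_cast hy3
  have hK1 : 1 ≤ K := by
    rw [hK', Nat.one_le_floor_iff, le_div_iff₀ hlogy_pos, one_mul, hlog2N]
    linarith
  have hKle : (K : ℝ) * Real.log y ≤ L + 1 := by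
    have h8 : (K : ℝ) ≤ Real.log (2 * N) / Real.log y := by
      rw [hK']
      exact Nat.floor_le (by rw [hlog2N]; positivity)
    rw [le_div_iff₀ hlogy_pos] at h8
    linarith
  have hKgt : Real.log (2 * N) < ((K : ℝ) + 1) * Real.log y := by
    have h8 : Real.log (2 * N) / Real.log y < (K : ℝ) + 1 := by
      rw [hK']
      exact Nat.lt_floor_add_one _
    rw [div_lt_iff₀ hlogy_pos] at h8
    exact h8
  have hpow : 2 * N < y ^ (K + 1) := by
    have h8 : ((2 * N : ℕ) : ℝ) < ((y ^ (K + 1) : ℕ) : ℝ) := by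
      push_cast
      rw [← Real.log_lt_log_iff (by positivity) (by positivity), Real.log_pow]
      push_cast
      exact hKgt
    exact_mod_cast h8
  rw [← hy, ← hK, ← hGd]
  refine ⟨by omega, hK1, hN, by omega, by omega, ?_, by linarith, ?_, ?_⟩
  · rw [Nat.le_sqrt]
    have h8 : y * y ≤ y ^ 3 := by
      calc y * y = y ^ 2 := (pow_two y).symm
        _ ≤ y ^ 3 := Nat.pow_le_pow_right (by omega) (by norm_num)
    omega
  · have h9 : 2 ≤ N := by
      have : 2 ^ 3 ≤ y ^ 3 := Nat.pow_le_pow_left (by omega) 3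
      omega
    have h10 : Nat.sqrt (2 * N) < N + 1 := Nat.sqrt_lt'.2 (by nlinarith)
    omega
  · -- the exponent
    have hKA : 2 * G * K ≤ (3 / 2 - 1 / 12) * s := by
      have h9 : 2 * G * (K * Real.log y) ≤ 2 * G * (L + 1) :=
        mul_le_mul_of_nonneg_left hKle (by linarith)
      have h11 : 2 * G * (L + 1) ≤ (3 / 2 - 1 / 12) * s * (3 / 2 * s - 1) := by
        have e2 : 2 * G * (L + 1) = 2 * s ^ 2 + 2 * G := by
          rw [hsq]; ring
        rw [e2]
        nlinarith [mul_le_mul_of_nonneg_right hs28 (show 0 ≤ s by linarith)]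
      have h12 : (3 / 2 - 1 / 12) * s * (3 / 2 * s - 1) ≤ (3 / 2 - 1 / 12) * s * Real.log y :=
        mul_le_mul_of_nonneg_left hlogy_ge (by nlinarith)
      refine le_of_mul_le_mul_right ?_ hlogy_pos
      calc 2 * G * K * Real.log y = 2 * G * (K * Real.log y) := by ring
        _ ≤ _ := h9.trans (h11.trans h12)
    have hLpos : 0 < L := by linarith
    have hpowe : (Real.exp (-G)) ^ (2 * K) = Real.exp (-(2 * G * K)) := by
      rw [← Real.exp_nat_mul]
      congr 1
      push_cast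
      ring
    have hbig : 2 * L ≤ (Real.exp (-G)) ^ (2 * K) * (c * y / (9 * K * Real.log y)) := by
      rw [hpowe]
      have h8 : Real.exp (-((3 / 2 - 1 / 12) * s)) ≤ Real.exp (-(2 * G * K)) :=
        Real.exp_le_exp.2 (neg_le_neg hKA)
      have hKpos : (0 : ℝ) < K := by exact_mod_cast hK1
      have h9 : c * Real.exp (3 / 2 * s) / (36 * L) ≤ c * y / (9 * K * Real.log y) := by
        rw [div_le_div_iff₀ (by positivity) (by positivity)]
        have h10 : 9 * K * Real.log y ≤ 18 * L := by nlinarith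
        calc c * Real.exp (3 / 2 * s) * (9 * K * Real.log y) ≤ c * (2 * y) * (18 * L) := by
              refine mul_le_mul (mul_le_mul_of_nonneg_left hyhalf hc.le) h10 (by positivity)
                (by positivity)
          _ = c * y * (36 * L) := by ring
      have h11 : 2 * L ≤ Real.exp (-((3 / 2 - 1 / 12) * s)) *
          (c * Real.exp (3 / 2 * s) / (36 * L)) := by
        have e1 : Real.exp (-((3 / 2 - 1 / 12) * s)) *
          (c * Real.exp (3 / 2 * s) / (36 * L)) = c * Real.exp (1 / 12 * s) / (36 * L) := by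
          have e2 : Real.exp (1 / 12 * s) =
              Real.exp (-((3 / 2 - 1 / 12) * s)) * Real.exp (3 / 2 * s) := by
            rw [← Real.exp_add]; congr 1; ring
          rw [e2]; ring
        rw [e1, le_div_iff₀ (by positivity)]
        nlinarith
      exact h11.trans (mul_le_mul h8 h9 (by positivity) (Real.exp_pos _).le)
    calc Real.exp (-((Real.exp (-G)) ^ (2 * K) * (c * y / (9 * K * Real.log y)))) ≤
        Real.exp (-(2 * L)) := Real.exp_le_exp.2 (neg_le_neg hbig)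
      _ = 1 / (N : ℝ) ^ 2 := by
          rw [Real.exp_neg, ← hexpL, ← Real.exp_nat_mul]
          push_cast
          rw [one_div]

end Pool.Agent.SPT
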