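import Pool.Agent.SPT.Win
import Pool.Agent.SPT.Num
import Pool.Agent.Helper76.OB.PRB

set_option autoImplicit false

/-!
# SPT / Fin: almost surely every long interval contains a survivor
-/

open Finset Classical Filter MeasureTheory ProbabilityTheory Pool.Agent.Helper76.OB

namespace Pool.Agent.SPT

/-- survivors of the primes `≤ √(2N)` belong to the sifted set -/
theorem mem_Sv_of_sur {F : Set ℕ} {R n : ℕ} {T : Finset ℕ} (hn : 2 ≤ n) (hR : Nat.sqrt n ≤ R)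
    (hT : ∀ p, p ∈ T ↔ p ∈ PR 2 R ∧ p ∈ F) (h : Sur T (PR 1 R) n) : n ∈ Sv F := by
  refine ⟨hn, fun p hp hpn => ?_⟩
  have hp2 : 2 ≤ p := hp.two_le
  have hpR : p ≤ R := le_trans (Nat.le_sqrt'.2 hpn) hR
  have h1 := h p (mem_PR.2 ⟨⟨by omega, hpR⟩, hp⟩)
  constructor
  · rintro ⟨h2, h3⟩ h4
    have hpT : p ∈ T := (hT p).2 ⟨mem_PR.2 ⟨⟨by omega, hpR⟩, hp⟩, h2⟩
    have hcl : cl T p = 1 := by unfold cl; rw [if_pos hpT]
    rw [hcl] at h1
    exact h1 ((Nat.modEq_iff_dvd' (by omega)).2 h4).symm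
  · intro h2 h4
    have hpT : p ∉ T := by
      intro h5
      have h6 := (hT p).1 h5
      have := (mem_PR.1 h6.1).1.1
      exact h2 ⟨h6.2, by omega⟩
    have hcl : cl T p = 0 := by unfold cl; rw [if_neg hpT]
    rw [hcl] at h1
    exact h1 ((Nat.modEq_zero_iff_dvd).2 h4)

theorem ae_short {Ω : Type*} [MeasurableSpace Ω] (μ : Measure Ω) [IsProbabilityMeasure μ]
    (E : ℕ → Set Ω) (hE : ∀ p, MeasurableSet (E p)) (hind : iIndepSet E μ) (g : ℝ → ℝ)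
    (hg : ∃ x0, MonotoneOn g (Set.Ici x0))
    (hg1 : ∀ᶠ x : ℝ in atTop, Real.log (Real.log x) ≤ g x)
    (hg2 : ∀ᶠ x : ℝ in atTop, g x ≤ Real.log x / 25)
    (hF : ∀ᶠ p : ℕ in atTop, p.Prime →
      Real.exp (-g p) ≤ μ.real (E p) ∧ μ.real (E p) ≤ 1 - Real.exp (-g p)) :
    ∀ᵐ ω ∂μ, ∀ᶠ N : ℕ in atTop, ∃ n ∈ Ioc N (N + (yT g N) ^ 3), n ∈ Sv {p | ω ∈ E p} := by
  obtain ⟨p0, hp0⟩ := eventually_atTop.1 hF
  obtain ⟨x0, hx0⟩ := hg
  obtain ⟨c, y0, hc, hy0, hw⟩ := window_bound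
  obtain ⟨N0, hN0⟩ := eventually_atTop.1 (num g hg1 hg2 c hc (y0 + p0 + ⌈x0⌉₊))
  obtain ⟨Bad, hBad⟩ : ∃ Bad : ℕ → Set Ω, ∀ N, Bad N = {ω | ∀ n ∈ Ioc N (N + (yT g N) ^ 3),
      ¬ Sur ((PR 2 (Nat.sqrt (2 * N))).filter (fun p => ω ∈ E p)) (PR 1 (Nat.sqrt (2 * N))) n} :=
    ⟨_, fun _ => rfl⟩
  have hle : ∀ N, N0 ≤ N → μ (Bad N) ≤ ENNReal.ofReal (1 / (N : ℝ) ^ 2) := by
    intro N hN
    obtain ⟨h1, h2, h3, h4, h5, h6, h7, h8, h9⟩ := hN0 N hN
    have e0 : 0 ≤ Real.exp (-g N) := (Real.exp_pos _).le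
    have e1 : Real.exp (-g N) ≤ 1 := Real.exp_le_one_iff.2 (by linarith)
    have h10 := hw (fun p => μ.real (E p)) (Real.exp (-g N)) (yT g N) N (KT g N)
      (Nat.sqrt (2 * N)) (by omega) h2 h3 h5 h6 e0 e1
      (fun p => ⟨measureReal_nonneg, measureReal_le_one⟩) (by
        intro p hp
        have hp' := mem_PR.1 hp
        have h11 := hp0 p (by omega) hp'.2
        have hp2 : p ≤ N := hp'.1.2.trans h8
        have hx0p : x0 ≤ p := (Nat.le_ceil x0).trans (by exact_mod_cast (by omega : ⌈x0⌉₊ ≤ p))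
        have hpN : (p : ℝ) ≤ N := by exact_mod_cast hp2
        have h12 : Real.exp (-g N) ≤ Real.exp (-g p) :=
          Real.exp_le_exp.2 (neg_le_neg (hx0 hx0p (hx0p.trans hpN) hpN))
        exact ⟨h12.trans h11.1, by linarith [h11.2]⟩)
    have h14 := (prob_bits μ E hE hind (PR 2 (Nat.sqrt (2 * N)))
      (fun T => ∀ n ∈ Ioc N (N + (yT g N) ^ 3), ¬ Sur T (PR 1 (Nat.sqrt (2 * N))) n)).1
    rw [← hBad N] at h14
    rw [← ofReal_measureReal]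
    refine ENNReal.ofReal_le_ofReal ?_
    rw [h14]
    exact h10.trans h9
  have hsumm : Summable (fun N : ℕ => 1 / ((N + N0 : ℕ) : ℝ) ^ 2) := by
    have h1 : Summable (fun N : ℕ => 1 / (N : ℝ) ^ 2) := Real.summable_one_div_nat_pow.2 (by norm_num)
    exact (summable_nat_add_iff N0).2 h1
  have hsum : ∑' N, μ (Bad (N + N0)) ≠ ⊤ := by
    refine ne_top_of_le_ne_top hsumm.tsum_ofReal_ne_top ?_
    exact ENNReal.tsum_le_tsum fun N => hle (N + N0) (by omega)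
  filter_upwards [ae_eventually_notMem hsum] with ω hω
  obtain ⟨N1, hN1⟩ := eventually_atTop.1 hω
  refine eventually_atTop.2 ⟨N1 + N0, fun N hN => ?_⟩
  have h6 := hN1 (N - N0) (by omega)
  rw [Nat.sub_add_cancel (by omega), hBad] at h6
  simp only [Set.mem_setOf_eq] at h6
  push Not at h6
  obtain ⟨n, hn, hsur⟩ := h6
  obtain ⟨h1, h2, h3, h4, h5, -, -, -, -⟩ := hN0 N (by omega)
  refine ⟨n, hn, mem_Sv_of_sur (T := (PR 2 (Nat.sqrt (2 * N))).filter (fun p => ω ∈ E p)) ?_ ?_ ?_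
    hsur⟩
  · have := (mem_Ioc.1 hn).1
    omega
  · exact Nat.sqrt_le_sqrt (le_trans (mem_Ioc.1 hn).2 h4)
  · intro p
    rw [mem_filter]
    rfl

/-- real form -/
theorem ae_short_real {Ω : Type*} [MeasurableSpace Ω] (μ : Measure Ω) [IsProbabilityMeasure μ]
    (E : ℕ → Set Ω) (hE : ∀ p, MeasurableSet (E p)) (hind : iIndepSet E μ) (g : ℝ → ℝ)
    (hg : ∃ x0, MonotoneOn g (Set.Ici x0))
    (hg1 : ∀ᶠ x : ℝ in atTop, Real.log (Real.log x) ≤ g x)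
    (hg2 : ∀ᶠ x : ℝ in atTop, g x ≤ Real.log x / 25)
    (hF : ∀ᶠ p : ℕ in atTop, p.Prime →
      Real.exp (-g p) ≤ μ.real (E p) ∧ μ.real (E p) ≤ 1 - Real.exp (-g p)) :
    ∀ᵐ ω ∂μ, ∀ᶠ x : ℝ in atTop, ∃ n : ℕ, n ∈ Sv {p | ω ∈ E p} ∧ x < n ∧
      (n : ℝ) ≤ x + Real.exp (9 / 2 * √(Real.log x * g x)) := by
  filter_upwards [ae_short μ E hE hind g hg hg1 hg2 hF] with ω hω
  obtain ⟨N0, hN0⟩ := eventually_atTop.1 hω
  obtain ⟨x0, hx0⟩ := hg
  obtain ⟨x1, hx1⟩ := eventually_atTop.1 hg1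
  filter_upwards [eventually_ge_atTop ((N0 : ℝ) + 4), eventually_ge_atTop (x0 + 1),
    eventually_ge_atTop (x1 + 1)] with x hx hx0' hx1'
  have hx4 : (4 : ℝ) ≤ x := by linarith [Nat.cast_nonneg (α := ℝ) N0]
  obtain ⟨N, hN⟩ : ∃ N, N = ⌊x⌋₊ := ⟨_, rfl⟩
  have h1 : (N : ℝ) ≤ x := by rw [hN]; exact Nat.floor_le (by linarith)
  have h2 : x < N + 1 := by rw [hN]; exact Nat.lt_floor_add_one x
  have hNN : N0 ≤ N := by
    have : ((N0 : ℕ) : ℝ) < ((N + 1 : ℕ) : ℝ) := by push_cast; linarith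
    have : N0 < N + 1 := by exact_mod_cast this
    omega
  have hN3 : (3 : ℝ) ≤ N := by
    have : ((3 : ℕ) : ℝ) < ((N + 1 : ℕ) : ℝ) := by push_cast; linarith
    have : 3 < N + 1 := by exact_mod_cast this
    exact_mod_cast (by omega : 3 ≤ N)
  obtain ⟨n, hn, hnS⟩ := hN0 N hNN
  rw [mem_Ioc] at hn
  refine ⟨n, hnS, ?_, ?_⟩
  · have : N + 1 ≤ n := hn.1
    have : ((N + 1 : ℕ) : ℝ) ≤ n := by exact_mod_cast this
    push_cast at this
    linarith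
  · have h3 : (n : ℝ) ≤ N + (yT g N : ℝ) ^ 3 := by exact_mod_cast hn.2
    have h4 : (yT g N : ℝ) ≤ Real.exp (3 / 2 * √(Real.log N * g N)) :=
      Nat.floor_le (Real.exp_pos _).le
    have h5 : (yT g N : ℝ) ^ 3 ≤ Real.exp (9 / 2 * √(Real.log N * g N)) := by
      refine (pow_le_pow_left₀ (Nat.cast_nonneg _) h4 3).trans ?_
      rw [← Real.exp_nat_mul]
      refine le_of_eq ?_
      congr 1
      push_cast
      ring
    have h6 : 1 ≤ Real.log N := by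
      rw [Real.le_log_iff_exp_le (by linarith)]
      have := Real.exp_one_lt_d9
      linarith
    have h7 : Real.log N ≤ Real.log x := Real.log_le_log (by linarith) h1
    have h8 : g N ≤ g x := hx0 (by rw [Set.mem_Ici]; linarith) (by rw [Set.mem_Ici]; linarith) h1
    have h9 : 0 ≤ g N := (Real.log_nonneg h6).trans (hx1 N (by linarith))
    have h10 : Real.exp (9 / 2 * √(Real.log N * g N)) ≤ Real.exp (9 / 2 * √(Real.log x * g x)) := by
      refine Real.exp_le_exp.2 (mul_le_mul_of_nonneg_left ?_ (by norm_num))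
      exact Real.sqrt_le_sqrt (mul_le_mul h7 h8 h9 (by linarith))
    linarith

end Pool.Agent.SPT
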