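import Pool.Agent.Helper76.OB.PRB
import Pool.Agent.Helper76.OB.CYL

set_option autoImplicit false

/-!
# SPT / Prod: independent cylinder events on disjoint blocks of bits
-/

open Finset Classical Pool.Agent.Helper76.OB

namespace Pool.Agent.SPT

theorem wt_nonneg {ε : ℕ → ℝ} {P : Finset ℕ} (hε : ∀ p ∈ P, 0 ≤ ε p ∧ ε p ≤ 1) (T : Finset ℕ) :
    0 ≤ wt ε P T := by
  refine Finset.prod_nonneg (fun p hp => ?_)
  split_ifs
  · exact (hε p hp).1
  · linarith [(hε p hp).2]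

theorem wt_sum (ε : ℕ → ℝ) (P : Finset ℕ) : ∑ T ∈ P.powerset, wt ε P T = 1 := by
  have h1 := Finset.prod_add (fun p => ε p) (fun p => 1 - ε p) P
  have h2 : ∏ p ∈ P, (ε p + (1 - ε p)) = 1 := by
    refine Finset.prod_eq_one (fun p _ => by ring)
  rw [h2] at h1
  rw [h1]
  refine Finset.sum_congr rfl (fun T hT => ?_)
  have hT' := Finset.mem_powerset.1 hT
  rw [wt, Finset.prod_ite]
  congr 1
  · refine Finset.prod_congr ?_ (fun _ _ => rfl)
    ext p
    simp only [Finset.mem_filter]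
    exact ⟨fun h => h.2, fun h => ⟨hT' h, h⟩⟩
  · refine Finset.prod_congr ?_ (fun _ _ => rfl)
    ext p
    simp only [Finset.mem_filter, Finset.mem_sdiff]

theorem PT_ite (ε : ℕ → ℝ) (P : Finset ℕ) (A : Finset ℕ → Prop) :
    PT ε P A = ∑ T ∈ P.powerset, if A T then wt ε P T else 0 := by
  rw [PT, Finset.sum_filter]

theorem PT_nonneg {ε : ℕ → ℝ} {P : Finset ℕ} (hε : ∀ p ∈ P, 0 ≤ ε p ∧ ε p ≤ 1)
    (A : Finset ℕ → Prop) : 0 ≤ PT ε P A :=
  Finset.sum_nonneg fun T _ => wt_nonneg hε T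

theorem PT_le_one {ε : ℕ → ℝ} {P : Finset ℕ} (hε : ∀ p ∈ P, 0 ≤ ε p ∧ ε p ≤ 1)
    (A : Finset ℕ → Prop) : PT ε P A ≤ 1 := by
  rw [← wt_sum ε P]
  exact Finset.sum_le_sum_of_subset_of_nonneg (Finset.filter_subset _ _) fun T _ _ => wt_nonneg hε T

theorem PT_mono {ε : ℕ → ℝ} {P : Finset ℕ} (hε : ∀ p ∈ P, 0 ≤ ε p ∧ ε p ≤ 1)
    {A B : Finset ℕ → Prop} (h : ∀ T ⊆ P, A T → B T) : PT ε P A ≤ PT ε P B := by
  refine Finset.sum_le_sum_of_subset_of_nonneg ?_ fun T _ _ => wt_nonneg hε T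
  intro T hT
  rw [Finset.mem_filter] at hT ⊢
  exact ⟨hT.1, h T (Finset.mem_powerset.1 hT.1) hT.2⟩

/-- union bound -/
theorem PT_or_le {ε : ℕ → ℝ} {P : Finset ℕ} (hε : ∀ p ∈ P, 0 ≤ ε p ∧ ε p ≤ 1)
    (A B : Finset ℕ → Prop) : PT ε P (fun T => A T ∨ B T) ≤ PT ε P A + PT ε P B := by
  rw [PT_ite, PT_ite, PT_ite, ← Finset.sum_add_distrib]
  refine Finset.sum_le_sum fun T _ => ?_
  have h := wt_nonneg hε T
  by_cases hA : A T
  · rw [if_pos (Or.inl hA), if_pos hA]
    split_ifs <;> linarith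
  · by_cases hB : B T
    · rw [if_pos (Or.inr hB), if_neg hA, if_pos hB]
      linarith
    · rw [if_neg (by tauto), if_neg hA, if_neg hB]
      linarith

/-- union bound over a finite set -/
theorem PT_exists_le {ε : ℕ → ℝ} {P : Finset ℕ} (hε : ∀ p ∈ P, 0 ≤ ε p ∧ ε p ≤ 1)
    (I : Finset ℕ) (A : ℕ → Finset ℕ → Prop) :
    PT ε P (fun T => ∃ i ∈ I, A i T) ≤ ∑ i ∈ I, PT ε P (A i) := by
  induction I using Finset.induction_on with
  | empty =>
    rw [Finset.sum_empty]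
    rw [PT_ite]
    refine (Finset.sum_eq_zero fun T _ => if_neg ?_).le
    rintro ⟨i, hi, -⟩
    exact absurd hi (Finset.notMem_empty i)
  | insert a I ha ih =>
    rw [Finset.sum_insert ha]
    have h1 : PT ε P (fun T => ∃ i ∈ insert a I, A i T) =
        PT ε P (fun T => A a T ∨ ∃ i ∈ I, A i T) := by
      congr 1
      funext T
      simp
    rw [h1]
    exact (PT_or_le hε _ _).trans (by linarith)

theorem PT_union_eq (ε : ℕ → ℝ) (P1 P2 : Finset ℕ) (hd : Disjoint P1 P2)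
    (A : Finset ℕ → Prop) :
    PT ε (P1 ∪ P2) A = ∑ T0 ∈ P1.powerset, wt ε P1 T0 * PT ε P2 (fun T1 => A (T0 ∪ T1)) := by
  rw [PT]
  have h1 : ∀ T0 ∈ P1.powerset, wt ε P1 T0 * PT ε P2 (fun T1 => A (T0 ∪ T1))
      = ∑ T1 ∈ P2.powerset, if A (T0 ∪ T1) then wt ε P1 T0 * wt ε P2 T1 else 0 := by
    intro T0 _
    rw [PT, Finset.mul_sum, Finset.sum_filter]
  rw [Finset.sum_congr rfl h1, ← Finset.sum_product', Finset.sum_filter]
  symm
  refine Finset.sum_bij' (fun x _ => x.1 ∪ x.2) (fun T _ => (T ∩ P1, T ∩ P2)) ?_ ?_ ?_ ?_ ?_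
  · rintro ⟨T0, T1⟩ hx
    simp only [Finset.mem_product, Finset.mem_powerset] at hx ⊢
    exact Finset.union_subset_union hx.1 hx.2
  · intro T _
    simp only [Finset.mem_product, Finset.mem_powerset]
    exact ⟨Finset.inter_subset_right, Finset.inter_subset_right⟩
  · rintro ⟨T0, T1⟩ hx
    simp only [Finset.mem_product, Finset.mem_powerset] at hx
    have ha : (T0 ∪ T1) ∩ P1 = T0 := by
      ext p
      simp only [Finset.mem_inter, Finset.mem_union]
      constructor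
      · rintro ⟨h0 | h1, hp⟩
        · exact h0
        · exact absurd (hx.2 h1) (Finset.disjoint_left.1 hd hp)
      · intro h0
        exact ⟨Or.inl h0, hx.1 h0⟩
    have hb : (T0 ∪ T1) ∩ P2 = T1 := by
      ext p
      simp only [Finset.mem_inter, Finset.mem_union]
      constructor
      · rintro ⟨h0 | h1, hp⟩
        · exact absurd hp (Finset.disjoint_left.1 hd (hx.1 h0))
        · exact h1
      · intro h1
        exact ⟨Or.inr h1, hx.2 h1⟩
    simp only [ha, hb]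
  · intro T hT
    have hT' := Finset.mem_powerset.1 hT
    simp only
    rw [← Finset.inter_union_distrib_left]
    exact Finset.inter_eq_left.2 hT'
  · rintro ⟨T0, T1⟩ hx
    simp only [Finset.mem_product, Finset.mem_powerset] at hx
    simp only
    split_ifs with hA
    · rw [wt, wt, wt, Finset.prod_union hd]
      congr 1
      · refine Finset.prod_congr rfl fun p hp => ?_
        have : p ∈ T0 ∪ T1 ↔ p ∈ T0 := by
          rw [Finset.mem_union]
          exact ⟨fun h => h.elim id fun h1 => absurd (hx.2 h1) (Finset.disjoint_left.1 hd hp),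
            Or.inl⟩
        simp only [this]
      · refine Finset.prod_congr rfl fun p hp => ?_
        have : p ∈ T0 ∪ T1 ↔ p ∈ T1 := by
          rw [Finset.mem_union]
          exact ⟨fun h => h.elim (fun h1 => absurd hp (Finset.disjoint_left.1 hd (hx.1 h1))) id,
            Or.inr⟩
        simp only [this]
    · rfl

/-- bounds on the two parts multiply -/
theorem PT_mul_le (ε : ℕ → ℝ) (P1 P2 : Finset ℕ) (hd : Disjoint P1 P2)
    (hε1 : ∀ p ∈ P1, 0 ≤ ε p ∧ ε p ≤ 1) (hε2 : ∀ p ∈ P2, 0 ≤ ε p ∧ ε p ≤ 1)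
    (A B C : Finset ℕ → Prop)
    (h : ∀ T0 ⊆ P1, ∀ T1 ⊆ P2, A (T0 ∪ T1) → B T0 ∧ C T1) :
    PT ε (P1 ∪ P2) A ≤ PT ε P1 B * PT ε P2 C := by
  rw [PT_union_eq ε P1 P2 hd]
  have h1 : PT ε P1 B = ∑ T0 ∈ P1.powerset, if B T0 then wt ε P1 T0 else 0 := by
    rw [PT, Finset.sum_filter]
  rw [h1, Finset.sum_mul]
  refine Finset.sum_le_sum fun T0 hT0 => ?_
  have hT0' := Finset.mem_powerset.1 hT0
  by_cases hB : B T0
  · rw [if_pos hB]
    refine mul_le_mul_of_nonneg_left ?_ (wt_nonneg hε1 T0)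
    exact PT_mono hε2 fun T1 hT1 hA => (h T0 hT0' T1 hT1 hA).2
  · rw [if_neg hB, zero_mul]
    have h2 : PT ε P2 (fun T1 => A (T0 ∪ T1)) = 0 := by
      unfold PT
      rw [Finset.filter_false_of_mem, Finset.sum_empty]
      intro T1 hT1 hA
      exact hB (h T0 hT0' T1 (Finset.mem_powerset.1 hT1) hA).1
    rw [h2, mul_zero]

theorem PT_not_cy (ε : ℕ → ℝ) (P U V : Finset ℕ) (hU : U ⊆ P) (hV : V ⊆ P)
    (hUV : Disjoint U V) : PT ε P (fun T => ¬ Cy U V T) = 1 - pC ε U V := by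
  have h1 := cyl_sum ε P U V hU hV hUV
  have h2 := wt_sum ε P
  rw [PT_ite, ← h1, ← h2, ← Finset.sum_sub_distrib]
  refine Finset.sum_congr rfl fun T _ => ?_
  by_cases h : Cy U V T
  · rw [if_neg (not_not.2 h), if_pos h, sub_self]
  · rw [if_pos h, if_neg h, sub_zero]

/-- The probability that none of the cylinder events on disjoint blocks occurs. -/
theorem PT_none_le (ε : ℕ → ℝ) (P S : Finset ℕ) (Q Q1 : ℕ → Finset ℕ) (s : ℝ) (hs1 : s ≤ 1)
    (hε : ∀ p ∈ P, 0 ≤ ε p ∧ ε p ≤ 1)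
    (hQ : ∀ n ∈ S, Q n ⊆ P) (hQ1 : ∀ n ∈ S, Q1 n ⊆ P) (hd : ∀ n ∈ S, Disjoint (Q1 n) (Q n))
    (hdd : ∀ n ∈ S, ∀ m ∈ S, n ≠ m → Disjoint (Q n ∪ Q1 n) (Q m ∪ Q1 m))
    (hs : ∀ n ∈ S, s ≤ pC ε (Q1 n) (Q n)) :
    PT ε P (fun T => ∀ n ∈ S, ¬ Cy (Q1 n) (Q n) T) ≤ (1 - s) ^ S.card := by
  induction S using Finset.induction_on generalizing P with
  | empty =>
    rw [Finset.card_empty, pow_zero]
    exact PT_le_one hε _
  | insert a S ha ih =>
    rw [Finset.card_insert_of_notMem ha, pow_succ, mul_comm]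
    obtain ⟨U, hU⟩ : ∃ U, U = Q a ∪ Q1 a := ⟨_, rfl⟩
    have hUP : U ⊆ P := by
      rw [hU]
      exact Finset.union_subset (hQ a (mem_insert_self a S)) (hQ1 a (mem_insert_self a S))
    have hP : P = U ∪ (P \ U) := (Finset.union_sdiff_of_subset hUP).symm
    have hdis : Disjoint U (P \ U) := Finset.disjoint_sdiff
    have hεU : ∀ p ∈ U, 0 ≤ ε p ∧ ε p ≤ 1 := fun p hp => hε p (hUP hp)
    have hεR : ∀ p ∈ P \ U, 0 ≤ ε p ∧ ε p ≤ 1 := fun p hp => hε p (Finset.mem_sdiff.1 hp).1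
    have hsub : ∀ n ∈ S, Q n ∪ Q1 n ⊆ P \ U := by
      intro n hn p hp
      refine Finset.mem_sdiff.2 ⟨?_, fun hpU => ?_⟩
      · rcases Finset.mem_union.1 hp with h1 | h1
        · exact hQ n (mem_insert_of_mem hn) h1
        · exact hQ1 n (mem_insert_of_mem hn) h1
      · have hna : n ≠ a := fun h => ha (h ▸ hn)
        have := hdd n (mem_insert_of_mem hn) a (mem_insert_self a S) hna
        rw [hU] at hpU
        exact Finset.disjoint_left.1 this hp hpU
    have hstep : PT ε (U ∪ (P \ U)) (fun T => ∀ n ∈ insert a S, ¬ Cy (Q1 n) (Q n) T) ≤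
        PT ε U (fun T => ¬ Cy (Q1 a) (Q a) T) *
          PT ε (P \ U) (fun T => ∀ n ∈ S, ¬ Cy (Q1 n) (Q n) T) := by
      refine PT_mul_le ε U (P \ U) hdis hεU hεR _ _ _ ?_
      intro T0 hT0 T1 hT1 hA
      constructor
      · intro hcy
        refine hA a (mem_insert_self a S) ⟨?_, ?_⟩
        · exact hcy.1.trans Finset.subset_union_left
        · rw [Finset.disjoint_union_right]
          refine ⟨hcy.2, ?_⟩
          rw [Finset.disjoint_left]
          intro p hp hpT1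
          have h1 : p ∈ U := by rw [hU]; exact Finset.mem_union_right _ hp
          exact (Finset.mem_sdiff.1 (hT1 hpT1)).2 h1
      · intro n hn hcy
        refine hA n (mem_insert_of_mem hn) ⟨?_, ?_⟩
        · exact hcy.1.trans Finset.subset_union_right
        · rw [Finset.disjoint_union_right]
          refine ⟨?_, hcy.2⟩
          rw [Finset.disjoint_left]
          intro p hp hpT0
          exact (Finset.mem_sdiff.1 (hsub n hn (Finset.mem_union_right _ hp))).2 (hT0 hpT0)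
    rw [← hP] at hstep
    refine hstep.trans ?_
    have h1 : PT ε U (fun T => ¬ Cy (Q1 a) (Q a) T) = 1 - pC ε (Q1 a) (Q a) := by
      refine PT_not_cy ε U _ _ ?_ ?_ (hd a (mem_insert_self a S))
      · rw [hU]; exact Finset.subset_union_right
      · rw [hU]; exact Finset.subset_union_left
    have h2 := ih (P \ U) hεR
      (fun n hn => (Finset.subset_union_left).trans (hsub n hn))
      (fun n hn => (Finset.subset_union_right).trans (hsub n hn))
      (fun n hn => hd n (mem_insert_of_mem hn))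
      (fun n hn m hm => hdd n (mem_insert_of_mem hn) m (mem_insert_of_mem hm))
      (fun n hn => hs n (mem_insert_of_mem hn))
    have h3 : PT ε U (fun T => ¬ Cy (Q1 a) (Q a) T) ≤ 1 - s := by
      rw [h1]
      linarith [hs a (mem_insert_self a S)]
    exact mul_le_mul h3 h2 (PT_nonneg hεR _) (by linarith)

end Pool.Agent.SPT
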