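import Pool.Agent.SPT.T2Num
import Pool.Agent.SPT.Prod

set_option autoImplicit false

/-!
# SPT / T2Cnt: candidates `W n`, `n = m l`, and the probability that all of them are killed
-/

open Finset Filter Classical Pool.Agent.Helper76.OB Pool.Agent.Helper7.PTX

namespace Pool.Agent.SPT

/-- an inverse of `W` modulo `p` -/
theorem exists_inv_class {W p : ℕ} (hp : p.Prime) (hW : ¬ p ∣ W) : ∃ a : ℕ, ∀ n : ℕ,
    W * n ≡ 1 [MOD p] → n ≡ a [MOD p] := by
  have hcop : Nat.Coprime W p := (Nat.Coprime.symm ((Nat.Prime.coprime_iff_not_dvd hp).2 hW))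
  obtain ⟨a, ha⟩ := Nat.exists_mul_mod_eq_one_of_coprime hcop hp.one_lt
  refine ⟨a, fun n hn => ?_⟩
  have h1 : W * a ≡ 1 [MOD p] := by
    unfold Nat.ModEq
    rw [ha.2, Nat.mod_eq_of_lt hp.one_lt]
  exact Nat.ModEq.cancel_left_of_coprime (by rw [Nat.gcd_comm]; exact hcop) (hn.trans h1.symm)

/-- few products are in the class `1` modulo one of the small primes after multiplication by `W` -/
theorem small_kill : ∃ C1 : ℝ, 0 < C1 ∧ ∀ δ : ℝ, 0 < δ → δ ≤ 1 / 2000 → ∀ᶠ N : ℕ in atTop,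
    ∀ m : ℕ, 1 ≤ m → m ≤ PTH.hd (2 * δ) N → ∀ (T0 : Finset ℕ) (W w z : ℕ),
    (∀ p ∈ T0, p.Prime ∧ p ≤ z) → (z : ℝ) ^ 2 ≤ (N : ℝ) ^ δ / 2 → (m = 1 ∨ (m.Prime ∧ z < m)) →
    (∀ p ∈ T0, w < p → ¬ p ∣ W) →
    (((QQ N (PTH.hd δ N) m).filter (fun n => ∃ p ∈ T0, w < p ∧ W * n ≡ 1 [MOD p])).card : ℝ) ≤
      C1 / δ * (∑ p ∈ T0.filter (fun p => w < p), 1 / ((p : ℝ) - 1)) *
        ((PTH.hd δ N : ℝ) / (m * Real.log N)) := by
  obtain ⟨C, hC, h⟩ := cls_asy
  refine ⟨C, hC, fun δ hδ hδ2 => ?_⟩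
  filter_upwards [h δ hδ hδ2] with N hN
  intro m hm1 hmh T0 W w z hT0 hz hm hW
  have hinv : ∀ p : ℕ, ∃ a : ℕ, p ∈ T0 → w < p → ∀ n : ℕ, W * n ≡ 1 [MOD p] → n ≡ a [MOD p] := by
    intro p
    by_cases hp : p ∈ T0 ∧ w < p
    · obtain ⟨a, ha⟩ := exists_inv_class (hT0 p hp.1).1 (hW p hp.1 hp.2)
      exact ⟨a, fun _ _ => ha⟩
    · exact ⟨0, fun h1 h2 => absurd ⟨h1, h2⟩ hp⟩
  choose a ha using hinv
  have hsub : (QQ N (PTH.hd δ N) m).filter (fun n => ∃ p ∈ T0, w < p ∧ W * n ≡ 1 [MOD p]) ⊆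
      (T0.filter (fun p => w < p)).biUnion
        (fun p => (QQ N (PTH.hd δ N) m).filter (fun n => n ≡ a p [MOD p])) := by
    intro n hn
    rw [mem_filter] at hn
    obtain ⟨hn1, p, hp, hwp, hmod⟩ := hn
    rw [mem_biUnion]
    exact ⟨p, mem_filter.2 ⟨hp, hwp⟩, mem_filter.2 ⟨hn1, ha p hp hwp n hmod⟩⟩
  have h1 : (((QQ N (PTH.hd δ N) m).filter (fun n => ∃ p ∈ T0, w < p ∧ W * n ≡ 1 [MOD p])).card : ℝ)
      ≤ ∑ p ∈ T0.filter (fun p => w < p),
        (((QQ N (PTH.hd δ N) m).filter (fun n => n ≡ a p [MOD p])).card : ℝ) := by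
    have := (card_le_card hsub).trans card_biUnion_le
    exact_mod_cast this
  refine h1.trans ?_
  rw [mul_assoc, Finset.sum_mul, Finset.mul_sum]
  refine Finset.sum_le_sum fun p hp => ?_
  rw [mem_filter] at hp
  obtain ⟨hpp, hpz⟩ := hT0 p hp.1
  have hcop : Nat.Coprime m p := by
    rcases hm with rfl | ⟨hmp, hzm⟩
    · exact Nat.coprime_one_left p
    · exact (Nat.coprime_primes hmp hpp).2 (by omega)
  have h2 := hN m hm1 hmh p (a p) hpp.one_lt.le hcop (by
    refine le_trans ?_ hz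
    exact pow_le_pow_left₀ (Nat.cast_nonneg _) (by exact_mod_cast hpz) 2)
  refine h2.trans (le_of_eq ?_)
  rw [Nat.totient_prime hpp, Nat.cast_sub hpp.one_lt.le, Nat.cast_one]
  ring

/-- selection of candidates with disjoint sets of large primes -/
theorem sel (N h m W z R K : ℕ) (S : Finset ℕ) (hS : S ⊆ QQ N h m) (hm : m = 1 ∨ m.Prime)
    (hW : 1 ≤ W) (hz : 1 ≤ z) (hh : 1 ≤ h) (hN : 1 ≤ N) (hK : ∀ n ∈ S, W * n < z ^ K) :
    ∃ S' ⊆ S, (∀ n ∈ S', ∀ n' ∈ S', n ≠ n' →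
      Disjoint (Qf z R (W * n - 1)) (Qf z R (W * n' - 1))) ∧
      S.card ≤ S'.card * (K * (⌊(h : ℝ) / (m * z)⌋₊ + 1) + 1) ∧
      ∀ n ∈ S', (Qf z R (W * n - 1)).card ≤ K := by
  have hm1 : 1 ≤ m := by
    rcases hm with rfl | hm
    · exact le_rfl
    · exact hm.one_lt.le
  have hn2 : ∀ n ∈ S, 2 ≤ W * n := by
    intro n hn
    have h1 := (mem_QQ.1 (hS hn)).1
    rw [PSK.mem_JH] at h1
    have : 1 * n ≤ W * n := Nat.mul_le_mul_right n hW
    omega
  have hcard : ∀ n ∈ S, (Qf z R (W * n - 1)).card ≤ K := by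
    intro n hn
    have h2 := hn2 n hn
    have h3 := pow_card_Qf_le z R (W * n - 1) (by omega)
    have h4 := hK n hn
    by_contra hcon
    have h5 : z ^ K ≤ z ^ (Qf z R (W * n - 1)).card := Nat.pow_le_pow_right hz (by omega)
    omega
  obtain ⟨S', hS', hd, hc⟩ := exists_disjoint_family S (fun n => Qf z R (W * n - 1)) K
    (⌊(h : ℝ) / (m * z)⌋₊ + 1) hcard (by
      intro p
      by_cases hp : z < p ∧ p ≤ R ∧ p.Prime
      · obtain ⟨hzp, hpR, hpp⟩ := hp
        have hsub : S.filter (fun n => p ∈ Qf z R (W * n - 1)) ⊆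
            S.filter (fun n => W * n ≡ 1 [MOD p]) := by
          intro n hn
          rw [mem_filter] at hn ⊢
          refine ⟨hn.1, ?_⟩
          have h2 := hn2 n hn.1
          exact ((Nat.modEq_iff_dvd' (by omega)).2 (mem_Qf.1 hn.2).2).symm
        refine (card_le_card hsub).trans ?_
        by_cases hcop : Nat.Coprime m p ∧ ¬ p ∣ W
        · obtain ⟨a, ha⟩ := exists_inv_class hpp hcop.2
          have h1 := triv_le N h m p a hm1 hpp.one_lt.le hcop.1 hh
          have h2 : S.filter (fun n => W * n ≡ 1 [MOD p]) ⊆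
              (QQ N h m).filter (fun n => n ≡ a [MOD p]) := by
            intro n hn
            rw [mem_filter] at hn ⊢
            exact ⟨hS hn.1, ha n hn.2⟩
          have h3 : ((S.filter (fun n => W * n ≡ 1 [MOD p])).card : ℝ) ≤ (h : ℝ) / (m * z) + 1 := by
            have h4 : ((S.filter (fun n => W * n ≡ 1 [MOD p])).card : ℝ) ≤
                ((QQ N h m).filter (fun n => n ≡ a [MOD p])).card := by
              exact_mod_cast card_le_card h2
            refine h4.trans (h1.trans ?_)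
            have hm0 : (0 : ℝ) < m := by exact_mod_cast hm1
            have hz0 : (0 : ℝ) < z := by exact_mod_cast hz
            have hzp' : (z : ℝ) ≤ p := by exact_mod_cast hzp.le
            gcongr
          have h4 : (S.filter (fun n => W * n ≡ 1 [MOD p])).card ≤ ⌊(h : ℝ) / (m * z) + 1⌋₊ :=
            Nat.le_floor h3
          rwa [Nat.floor_add_one (by positivity)] at h4
        · rw [filter_eq_empty_iff.2]
          · simp
          · intro n hn hmod
            have hdvd : p ∣ W * n := by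
              by_cases hpW : p ∣ W
              · exact Dvd.dvd.mul_right hpW n
              · have hnc : ¬ Nat.Coprime m p := fun h => hcop ⟨h, hpW⟩
                have hpm : p ∣ m := by
                  by_contra h
                  exact hnc ((Nat.Prime.coprime_iff_not_dvd hpp).2 h).symm
                obtain ⟨-, l, -, -, hl⟩ := mem_QQ.1 (hS hn)
                rw [hl]
                exact Dvd.dvd.mul_left (Dvd.dvd.mul_right hpm l) W
            have h1 : W * n ≡ 0 [MOD p] := Nat.modEq_zero_iff_dvd.2 hdvd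
            have h2 : (1 : ℕ) ≡ 0 [MOD p] := hmod.symm.trans h1
            have h3 := Nat.modEq_zero_iff_dvd.1 h2
            exact hpp.one_lt.ne' (Nat.dvd_one.1 h3)
      · rw [filter_eq_empty_iff.2]
        · simp
        · intro n _ hmem
          rw [mem_Qf] at hmem
          exact hp ⟨hmem.1.1.1, hmem.1.1.2, hmem.1.2⟩)
  exact ⟨S', hS', hd, hc, fun n hn => hcard n (hS' hn)⟩

theorem none_prob (ε : ℕ → ℝ) (z R W K : ℕ) (S' : Finset ℕ) (η : ℝ) (hη0 : 0 ≤ η)
    (hε : ∀ p ∈ PR z R, 0 ≤ ε p ∧ ε p ≤ η) (hKη : K * η ≤ 1 / 2) (hη1 : η ≤ 1)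
    (hd : ∀ n ∈ S', ∀ n' ∈ S', n ≠ n' → Disjoint (Qf z R (W * n - 1)) (Qf z R (W * n' - 1)))
    (hK : ∀ n ∈ S', (Qf z R (W * n - 1)).card ≤ K) :
    PT ε (PR z R) (fun T => ∀ n ∈ S', ¬ Disjoint (Qf z R (W * n - 1)) T) ≤ (1 / 2 : ℝ) ^ S'.card := by
  have h1 := PT_none_le ε (PR z R) S' (fun _ => ∅) (fun n => Qf z R (W * n - 1)) (1 / 2)
    (by norm_num) (fun p hp => ⟨(hε p hp).1, (hε p hp).2.trans hη1⟩) (fun _ _ => empty_subset _)
    (fun n _ => Qf_subset z R _) (fun n _ => disjoint_empty_right _)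
    (by
      intro n hn n' hn' hne
      rw [empty_union, empty_union]
      exact hd n hn n' hn' hne)
    (by
      intro n hn
      unfold pC
      rw [prod_empty, one_mul]
      have h2 : (1 - η) ^ (Qf z R (W * n - 1)).card ≤ ∏ p ∈ Qf z R (W * n - 1), (1 - ε p) := by
        rw [← prod_const]
        exact prod_le_prod (fun _ _ => by linarith) fun p hp => by
          linarith [(hε p (Qf_subset z R _ hp)).2]
      have h3 : (1 - η) ^ K ≤ (1 - η) ^ (Qf z R (W * n - 1)).card :=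
        pow_le_pow_of_le_one (by linarith) (by linarith) (hK n hn)
      have h4 := one_add_mul_le_pow (show (-2 : ℝ) ≤ -η by linarith) K
      have h5 : (1 + -η) ^ K = (1 - η) ^ K := by ring_nf
      rw [h5] at h4
      linarith)
  have h2 : (1 - 1 / 2 : ℝ) = 1 / 2 := by norm_num
  rw [h2] at h1
  refine le_trans (le_of_eq ?_) h1
  congr 1
  ext T
  refine forall₂_congr fun n _ => ?_
  unfold Cy
  simp

/-- probability that no element of `G` is chosen -/
theorem none_chosen (ε : ℕ → ℝ) (P G : Finset ℕ) (hG : G ⊆ P) (hε : ∀ p ∈ P, 0 ≤ ε p ∧ ε p ≤ 1) :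
    PT ε P (fun T => ∀ m ∈ G, m ∉ T) ≤ Real.exp (-∑ m ∈ G, ε m) := by
  have h1 : PT ε P (fun T => ∀ m ∈ G, m ∉ T) = ∏ m ∈ G, (1 - ε m) := by
    have h2 := cyl_sum ε P G ∅ hG (empty_subset _) (disjoint_empty_right _)
    unfold pC at h2
    rw [prod_empty, one_mul] at h2
    rw [← h2, PT_ite]
    refine sum_congr rfl fun T _ => ?_
    have h3 : (∀ m ∈ G, m ∉ T) ↔ Cy G ∅ T := by
      unfold Cy
      rw [disjoint_left]
      simp
    simp only [h3]
  rw [h1, ← sum_neg_distrib, Real.exp_sum]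
  refine prod_le_prod (fun m hm => by linarith [(hε m (hG hm)).2]) fun m _ => ?_
  have := Real.add_one_le_exp (-ε m)
  linarith

end Pool.Agent.SPT
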