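import Pool.Agent.SPT.T2Main
import Pool.Agent.SPT.Fin

set_option autoImplicit false

/-!
# SPT / T2Fin: almost surely every interval `(x, x + x^(1/2-δ))` contains a survivor
-/

open Finset Classical Filter MeasureTheory ProbabilityTheory Pool.Agent.Helper76.OB

namespace Pool.Agent.SPT

theorem ae_summable' {Ω : Type*} [MeasurableSpace Ω] (μ : Measure Ω) [IsProbabilityMeasure μ]
    (E : ℕ → Set Ω) (hE : ∀ p, MeasurableSet (E p))
    (hs : Summable (fun p : ℕ => if p.Prime then μ.real (E p) / p else 0)) :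
    ∀ᵐ ω ∂μ, Summable (fun p : ℕ => if ω ∈ E p ∧ p.Prime then (1 : ℝ) / p else 0) := by
  set a : ℕ → ℝ := fun p => if p.Prime then μ.real (E p) / p else 0 with ha
  set g : ℕ → Ω → ENNReal := fun p =>
    (E p).indicator (fun _ => if p.Prime then ENNReal.ofReal (1 / (p : ℝ)) else 0) with hg
  have hgm : ∀ p, Measurable (g p) := fun p => measurable_const.indicator (hE p)
  have hgi : ∀ p, ∫⁻ ω, g p ω ∂μ = ENNReal.ofReal (a p) := by
    intro p
    rw [hg]
    simp only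
    rw [lintegral_indicator_const (hE p), ha]
    simp only
    split_ifs
    · rw [show μ.real (E p) / (p : ℝ) = 1 / p * μ.real (E p) by ring,
        ENNReal.ofReal_mul (by positivity), Measure.real, ENNReal.ofReal_toReal
        (measure_ne_top μ _)]
    · simp
  have hfin : ∫⁻ ω, ∑' p, g p ω ∂μ ≠ ⊤ := by
    rw [lintegral_tsum (fun p => (hgm p).aemeasurable)]
    simp only [hgi]
    exact hs.tsum_ofReal_ne_top
  have hae := ae_lt_top (Measurable.tsum hgm) hfin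
  filter_upwards [hae] with ω hω
  have h1 := ENNReal.summable_toReal hω.ne
  refine h1.congr fun p => ?_
  rw [hg]
  simp only
  by_cases hE' : ω ∈ E p
  · rw [Set.indicator_of_mem hE']
    by_cases hpr : p.Prime
    · rw [if_pos hpr, if_pos ⟨hE', hpr⟩, ENNReal.toReal_ofReal (by positivity)]
    · rw [if_neg hpr, if_neg (fun h => hpr h.2), ENNReal.toReal_zero]
  · rw [Set.indicator_of_notMem hE', if_neg (fun h => hE' h.1), ENNReal.toReal_zero]

/-- the tail condition holds for some `w` -/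
theorem exists_tail {F : Set ℕ} {τ : ℝ} (hτ : 0 < τ)
    (hs : Summable (fun p : ℕ => if p ∈ F ∧ p.Prime then (1 : ℝ) / p else 0)) :
    ∃ w : ℕ, ∀ T : Finset ℕ, (∀ p ∈ T, p ∈ F ∧ p.Prime) → Tail τ w T := by
  obtain ⟨s, hs'⟩ := summable_iff_vanishing.1 hs (Metric.ball 0 (τ / 2))
    (Metric.ball_mem_nhds 0 (by linarith))
  refine ⟨s.sup id, fun T hT => ?_⟩
  have h1 := hs' (T.filter (fun p => s.sup id < p)) (by
    rw [disjoint_left]
    intro p hp hps
    rw [mem_filter] at hp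
    have := le_sup (f := id) hps
    simp only [id] at this
    omega)
  rw [Metric.mem_ball, dist_zero_right, Real.norm_eq_abs] at h1
  have h2 : ∑ p ∈ T.filter (fun p => s.sup id < p), (if p ∈ F ∧ p.Prime then (1 : ℝ) / p else 0) =
      ∑ p ∈ T.filter (fun p => s.sup id < p), (1 : ℝ) / p :=
    sum_congr rfl fun p hp => if_pos (hT p (mem_filter.1 hp).1)
  rw [h2] at h1
  unfold Tail
  have h3 : ∑ p ∈ T.filter (fun p => s.sup id < p), 1 / ((p : ℝ) - 1) ≤
      2 * ∑ p ∈ T.filter (fun p => s.sup id < p), (1 : ℝ) / p := by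
    rw [mul_sum]
    refine sum_le_sum fun p hp => ?_
    have hp2 : (2 : ℝ) ≤ p := by exact_mod_cast (hT p (mem_filter.1 hp).1).2.two_le
    rw [← mul_div_assoc, mul_one, div_le_div_iff₀ (by linarith) (by linarith)]
    linarith
  have h4 := (abs_lt.1 h1).2
  linarith

theorem t2_main : ∃ (δ C η : ℝ), 0 < δ ∧ 0 < C ∧ 0 < η ∧
    ∀ {Ω : Type*} [MeasurableSpace Ω] (μ : Measure Ω) [IsProbabilityMeasure μ]
    (E : ℕ → Set Ω), (∀ p, MeasurableSet (E p)) → iIndepSet E μ →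
    (∀ᶠ p : ℕ in atTop, p.Prime → C * Real.log p / p ≤ μ.real (E p) ∧ μ.real (E p) ≤ η) →
    Summable (fun p : ℕ => if p.Prime then μ.real (E p) / p else 0) →
    ∀ᵐ ω ∂μ, ∀ᶠ x : ℝ in atTop, ∃ n : ℕ, n ∈ Sv {p | ω ∈ E p} ∧ x < n ∧
      (n : ℝ) < x + x ^ (1 / 2 - δ) := by
  obtain ⟨δ, C, τ, η, hδ, hδ1, hC, hτ, hη, hwin⟩ := t2_window
  refine ⟨δ / 2, C, η, by linarith, hC, hη, ?_⟩
  intro Ω _ μ _ E hE hind hF hs
  -- for every `w`: almost surely, eventually no bad window with the tail condition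
  have key : ∀ w : ℕ, ∀ᵐ ω ∂μ, ∀ᶠ N : ℕ in atTop,
      Tail τ w ((PR 2 (Nat.sqrt (2 * N))).filter (fun p => ω ∈ E p)) →
      ∃ n : ℕ, N < n ∧ n ≤ 2 * N ∧ (n : ℝ) < N + (N : ℝ) ^ (1 / 2 - δ / 2) ∧
        Sur ((PR 2 (Nat.sqrt (2 * N))).filter (fun p => ω ∈ E p)) (PR 1 (Nat.sqrt (2 * N))) n := by
    intro w
    obtain ⟨N0, hN0⟩ := eventually_atTop.1 (hwin (fun p => μ.real (E p)) w
      (fun p => ⟨measureReal_nonneg, measureReal_le_one⟩) hF)
    obtain ⟨Bd, hBd⟩ : ∃ Bd : ℕ → Finset ℕ → Prop, ∀ N T, Bd N T ↔ (Tail τ w T ∧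
      ∀ n : ℕ, N < n → n ≤ 2 * N → (n : ℝ) < N + (N : ℝ) ^ (1 / 2 - δ / 2) →
        ¬ Sur T (PR 1 (Nat.sqrt (2 * N))) n) := ⟨_, fun _ _ => Iff.rfl⟩
    obtain ⟨Bad, hBad⟩ : ∃ Bad : ℕ → Set Ω, ∀ N, Bad N = {ω | Bd N
        ((PR 2 (Nat.sqrt (2 * N))).filter (fun p => ω ∈ E p))} := ⟨_, fun _ => rfl⟩
    have hle : ∀ N, N0 ≤ N → μ (Bad N) ≤ ENNReal.ofReal (2 / (N : ℝ) ^ 2) := by
      intro N hN
      have h10 := hN0 N hN
      have h14 := (prob_bits μ E hE hind (PR 2 (Nat.sqrt (2 * N))) (Bd N)).1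
      rw [← hBad N] at h14
      rw [← ofReal_measureReal]
      refine ENNReal.ofReal_le_ofReal ?_
      rw [h14]
      refine le_trans (le_of_eq ?_) h10
      congr 1
      ext T
      exact hBd N T
    have hsumm : Summable (fun N : ℕ => 2 / ((N + N0 : ℕ) : ℝ) ^ 2) := by
      have h1 : Summable (fun N : ℕ => 1 / (N : ℝ) ^ 2) :=
        Real.summable_one_div_nat_pow.2 (by norm_num)
      have h2 := ((summable_nat_add_iff N0).2 h1).mul_left 2
      refine h2.congr fun N => ?_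
      rw [mul_one_div]
    have hsum : ∑' N, μ (Bad (N + N0)) ≠ ⊤ := by
      refine ne_top_of_le_ne_top hsumm.tsum_ofReal_ne_top ?_
      exact ENNReal.tsum_le_tsum fun N => hle (N + N0) (by omega)
    filter_upwards [ae_eventually_notMem hsum] with ω hω
    obtain ⟨N1, hN1⟩ := eventually_atTop.1 hω
    refine eventually_atTop.2 ⟨N1 + N0, fun N hN hT => ?_⟩
    have h6 := hN1 (N - N0) (by omega)
    rw [Nat.sub_add_cancel (by omega), hBad] at h6
    by_contra hcon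
    push Not at hcon
    refine h6 ?_
    change Bd N _
    rw [hBd]
    exact ⟨hT, fun n h1 h2 h3 => hcon n h1 h2 h3⟩
  have hall := ae_all_iff.2 key
  filter_upwards [hall, ae_summable' μ E hE hs] with ω hω hsω
  obtain ⟨w, hw⟩ := exists_tail (F := {p | ω ∈ E p}) hτ hsω
  obtain ⟨N0, hN0⟩ := eventually_atTop.1 (hω w)
  filter_upwards [eventually_ge_atTop ((N0 : ℝ) + 2)] with x hx
  have hx2 : (2 : ℝ) ≤ x := by linarith [Nat.cast_nonneg (α := ℝ) N0]
  obtain ⟨N, hN⟩ : ∃ N, N = ⌊x⌋₊ := ⟨_, rfl⟩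
  have h1 : (N : ℝ) ≤ x := by rw [hN]; exact Nat.floor_le (by linarith)
  have h2 : x < N + 1 := by rw [hN]; exact Nat.lt_floor_add_one x
  have hNN : N0 ≤ N := by
    have : ((N0 : ℕ) : ℝ) < ((N + 1 : ℕ) : ℝ) := by push_cast; linarith
    have : N0 < N + 1 := by exact_mod_cast this
    omega
  have hN1 : 1 ≤ N := by
    have : ((1 : ℕ) : ℝ) < ((N + 1 : ℕ) : ℝ) := by push_cast; linarith
    have : 1 < N + 1 := by exact_mod_cast this
    omega
  obtain ⟨n, h3, h4, h5, h6⟩ := hN0 N hNN (hw _ fun p hp => by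
    rw [mem_filter, mem_PR] at hp
    exact ⟨hp.2, hp.1.2⟩)
  refine ⟨n, mem_Sv_of_sur (T := (PR 2 (Nat.sqrt (2 * N))).filter (fun p => ω ∈ E p)) (by omega)
    (Nat.sqrt_le_sqrt h4) (fun p => by rw [mem_filter]; rfl) h6, ?_, ?_⟩
  · have : ((N + 1 : ℕ) : ℝ) ≤ n := by exact_mod_cast h3
    push_cast at this
    linarith
  · have h7 : (N : ℝ) ^ (1 / 2 - δ / 2) ≤ x ^ (1 / 2 - δ / 2) :=
      Real.rpow_le_rpow (Nat.cast_nonneg _) h1 (by linarith)
    linarith

end Pool.Agent.SPT
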