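import Pool.Agent.SPT.T2Win

set_option autoImplicit false

/-!
# SPT / T2Main: the window theorem
-/

open Finset Filter Classical Pool.Agent.Helper76.OB Pool.Agent.Helper7.PTX

namespace Pool.Agent.SPT

theorem t2_window : ∃ (δ C τ η : ℝ), 0 < δ ∧ δ ≤ 1 / 100000 ∧ 0 < C ∧ 0 < τ ∧ 0 < η ∧
    ∀ (ε : ℕ → ℝ) (w : ℕ), (∀ p, 0 ≤ ε p ∧ ε p ≤ 1) →
    (∀ᶠ p : ℕ in atTop, p.Prime → C * Real.log p / p ≤ ε p ∧ ε p ≤ η) →
    ∀ᶠ N : ℕ in atTop, PT ε (PR 2 (Nat.sqrt (2 * N))) (fun T => Tail τ w T ∧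
      ∀ n : ℕ, N < n → n ≤ 2 * N → (n : ℝ) < N + (N : ℝ) ^ (1 / 2 - δ / 2) →
        ¬ Sur T (PR 1 (Nat.sqrt (2 * N))) n) ≤ 2 / (N : ℝ) ^ 2 := by
  obtain ⟨δ, c, c2, hδ, hδ1, hc, hc2, hdich⟩ := dich
  obtain ⟨C1, hC1, hkill⟩ := small_kill
  obtain ⟨K, hK⟩ : ∃ K, K = ⌈16 / δ⌉₊ := ⟨_, rfl⟩
  have hKδ : 16 / δ ≤ K := by rw [hK]; exact Nat.le_ceil _
  have hK1 : (1 : ℝ) ≤ K := by
    refine le_trans ?_ hKδ
    rw [le_div_iff₀ hδ]
    linarith
  have hK0 : (0 : ℝ) < K := by linarith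
  refine ⟨δ, 20 / c2, c * δ / (2 * C1), 1 / (2 * K), hδ, hδ1, by positivity, by positivity,
    by positivity, ?_⟩
  intro ε w hε hF
  obtain ⟨p0, hp0⟩ := eventually_atTop.1 hF
  obtain ⟨B, hB⟩ : ∃ B, B = primorial w := ⟨_, rfl⟩
  have hB1 : 1 ≤ B := by rw [hB]; exact primorial_pos w
  obtain ⟨N1, hN1⟩ := eventually_atTop.1
    ((hd_facts δ hδ (by linarith)).and (hdich.and (hkill δ hδ (by linarith))))
  have e1 : ∀ᶠ x : ℝ in atTop, (N1 : ℝ) ≤ x / (2 * B) ∧ (p0 : ℝ) ≤ x ^ (δ / 8) := by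
    filter_upwards [(tendsto_id.atTop_div_const (show (0 : ℝ) < 2 * B by positivity)).eventually_ge_atTop
      (N1 : ℝ), (tendsto_rpow_atTop (show 0 < δ / 8 by linarith)).eventually_ge_atTop (p0 : ℝ)]
      with x h1 h2
    exact ⟨h1, h2⟩
  filter_upwards [facts δ hδ hδ1 B hB1 K hKδ, pow_small δ (c / (4 * (K + 1))) hδ (by positivity),
    tendsto_natCast_atTop_atTop.eventually e1] with N hf hpow he
  obtain ⟨hN2, hz2, hzR, hzK, hz8, hW⟩ := hf
  obtain ⟨he1, he2⟩ := he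
  obtain ⟨z, hz⟩ : ∃ z, z = zN δ N := ⟨_, rfl⟩
  obtain ⟨R, hR⟩ : ∃ R, R = Nat.sqrt (2 * N) := ⟨_, rfl⟩
  rw [← hz] at hz2 hzR hzK hz8
  rw [← hR] at hzR
  rw [← hR]
  have hNR : (2 : ℝ) ≤ N := by exact_mod_cast hN2
  have hN0 : (0 : ℝ) < N := by linarith
  have hlogN : 0 < Real.log N := Real.log_pos (by linarith)
  have hz0 : (0 : ℝ) < z := by exact_mod_cast (by omega : 0 < z)
  -- the probabilities of the large primes
  have hεz : ∀ p ∈ PR z R, p.Prime ∧ 20 / c2 * Real.log p / p ≤ ε p ∧ 0 ≤ ε p ∧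
      ε p ≤ 1 / (2 * (K : ℝ)) := by
    intro p hp
    obtain ⟨⟨h1, h2⟩, h3⟩ := mem_PR.1 hp
    have h4 : p0 ≤ z := by
      have : (p0 : ℝ) ≤ z := he2.trans hz8
      exact_mod_cast this
    obtain ⟨h5, h6⟩ := hp0 p (by omega) h3
    exact ⟨h3, h5, (hε p).1, h6⟩
  have hη1 : 1 / (2 * (K : ℝ)) ≤ 1 := by
    rw [div_le_one (by positivity)]
    linarith
  have hKη : K * (1 / (2 * (K : ℝ))) ≤ 1 / 2 := le_of_eq (by field_simp)
  rw [PR_split hz2 hzR]
  refine PT_union ε _ _ PR_disj (fun p _ => hε p) _ _ ?_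
  intro T0 hT0
  have hT0p : ∀ p ∈ T0, p.Prime := fun p hp => (mem_PR.1 (hT0 hp)).2
  by_cases hTail : Tail (c * δ / (2 * C1)) w T0
  swap
  · have h1 : PT ε (PR z R) (fun T1 => Tail (c * δ / (2 * C1)) w (T0 ∪ T1) ∧
        ∀ n : ℕ, N < n → n ≤ 2 * N → (n : ℝ) < N + (N : ℝ) ^ (1 / 2 - δ / 2) →
          ¬ Sur (T0 ∪ T1) (PR 1 R) n) = 0 := by
      rw [PT_ite]
      refine sum_eq_zero fun T1 hT1 => if_neg ?_
      rintro ⟨h2, -⟩
      refine hTail (h2.mono subset_union_left ?_)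
      intro p hp
      rcases mem_union.1 hp with h | h
      · exact hT0p p h
      · exact (mem_PR.1 (mem_powerset.1 hT1 h)).2
    rw [h1]
    positivity
  obtain ⟨W, hWd⟩ : ∃ W, W = WP w T0 := ⟨_, rfl⟩
  have hW1 : 1 ≤ W := by rw [hWd]; exact WP_pos w T0 hT0p
  have hWB : W ≤ B := by rw [hWd, hB]; exact WP_le w T0 hT0p
  obtain ⟨hN'N, hlow, hzδ, hzz, hlogzz, hm, hWh, hWhN⟩ := hW W hW1 hWB
  obtain ⟨N', hN'⟩ : ∃ N', N' = N / W := ⟨_, rfl⟩
  rw [← hN'] at hN'N hlow hzδ hzz hlogzz hm hWh hWhN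
  rw [← hz] at hzδ hzz
  rw [← hR] at hm
  have hN'1 : N1 ≤ N' := by
    have : (N1 : ℝ) ≤ N' := he1.trans hlow
    exact_mod_cast this
  obtain ⟨⟨hN'3, h2h, hD1, hDh, hhle, hhge, hhm⟩, hdi, hki⟩ := hN1 N' hN'1
  obtain ⟨h, hh⟩ : ∃ h, h = PTH.hd δ N' := ⟨_, rfl⟩
  rw [← hh] at hWh hWhN h2h hDh hhle hhge hhm hdi hki
  have hN'0 : (0 : ℝ) < N' := by exact_mod_cast (by omega : 0 < N')
  have hlogN' : 0 < Real.log N' := Real.log_pos (by exact_mod_cast (by omega : 1 < N'))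
  have hlogNN' : Real.log N' ≤ Real.log N := Real.log_le_log hN'0 (by exact_mod_cast hN'N)
  -- elements of the window
  have hwin : ∀ m n : ℕ, n ∈ QQ N' h m → N < W * n ∧ W * n ≤ 2 * N ∧
      ((W * n : ℕ) : ℝ) < N + (N : ℝ) ^ (1 / 2 - δ / 2) := by
    intro m n hn
    have h1 := (mem_QQ.1 hn).1
    rw [PSK.mem_JH] at h1
    have h2 : N < W * (N' + 1) := by
      rw [hN', mul_comm]
      exact Nat.lt_mul_of_div_lt (Nat.lt_succ_self _) (by omega)
    have h3 : W * N' ≤ N := by rw [hN']; exact Nat.mul_div_le N W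
    have h4 : W * (N' + 1) ≤ W * n := Nat.mul_le_mul_left W h1.1
    have h5 : W * n < W * (N' + h) := Nat.mul_lt_mul_of_pos_left h1.2 (by omega)
    rw [Nat.mul_add] at h5
    refine ⟨by omega, by omega, ?_⟩
    have h6 : ((W * n : ℕ) : ℝ) < ((W * N' + W * h : ℕ) : ℝ) := by exact_mod_cast h5
    have h7 : ((W * N' : ℕ) : ℝ) ≤ N := by exact_mod_cast h3
    push_cast at h6 h7 hWh ⊢
    linarith
  obtain ⟨S, hS⟩ : ∃ S : ℕ → Finset ℕ, ∀ m, S m =
      (QQ N' h m).filter (fun n => ¬ ∃ p ∈ T0, w < p ∧ W * n ≡ 1 [MOD p]) := ⟨_, fun _ => rfl⟩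
  have hSQ : ∀ m, S m ⊆ QQ N' h m := fun m => by rw [hS m]; exact filter_subset _ _
  -- the probability that all candidates of `m` are killed
  have claimM : ∀ m : ℕ, (m = 1 ∨ (m.Prime ∧ z < m)) → m ≤ PTH.hd (2 * δ) N' →
      c * ((h : ℝ) / (m * Real.log N')) ≤ ((QQ N' h m).card : ℝ) →
      PT ε (PR z R) (fun T1 => ∀ n ∈ S m, ¬ Disjoint (Qf z R (W * n - 1)) T1) ≤
        1 / (N : ℝ) ^ 3 := by
    intro m hm1 hmh hQ
    have hmpos : 1 ≤ m := by
      rcases hm1 with rfl | ⟨h1, -⟩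
      · exact le_rfl
      · exact h1.one_lt.le
    have hm0 : (0 : ℝ) < m := by exact_mod_cast hmpos
    have hX : 0 ≤ (h : ℝ) / (m * Real.log N') := by positivity
    have h1 := hki m hmpos hmh T0 W w z (fun p hp => ⟨hT0p p hp, (mem_PR.1 (hT0 hp)).1.2⟩)
      hzδ hm1 (fun p hp hwp hpW => by
        rw [hWd] at hpW
        have := ((dvd_WP hT0p (hT0p p hp)).1 hpW).2
        omega)
    have h2 : (((QQ N' h m).filter (fun n => ∃ p ∈ T0, w < p ∧ W * n ≡ 1 [MOD p])).card : ℝ) ≤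
        c / 2 * ((h : ℝ) / (m * Real.log N')) := by
      refine h1.trans (mul_le_mul_of_nonneg_right ?_ hX)
      calc C1 / δ * ∑ p ∈ T0.filter (fun p => w < p), 1 / ((p : ℝ) - 1)
          ≤ C1 / δ * (c * δ / (2 * C1)) := mul_le_mul_of_nonneg_left hTail (by positivity)
        _ = c / 2 := by field_simp
    have h3 : c / 2 * ((h : ℝ) / (m * Real.log N')) ≤ ((S m).card : ℝ) := by
      have h4 := card_filter_add_card_filter_not (s := QQ N' h m)
        (fun n => ∃ p ∈ T0, w < p ∧ W * n ≡ 1 [MOD p])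
      rw [← hS m] at h4
      have h5 : (((QQ N' h m).filter (fun n => ∃ p ∈ T0, w < p ∧ W * n ≡ 1 [MOD p])).card : ℝ) +
          ((S m).card : ℝ) = ((QQ N' h m).card : ℝ) := by exact_mod_cast h4
      linarith
    have hh1 : 1 ≤ h := hD1.trans hDh
    obtain ⟨S', hS'S, hS'd, hS'c, hS'K⟩ := sel N' h m W z R K (S m) (hSQ m)
      (hm1.imp id fun h => h.1) hW1 (by omega) hh1 (by omega)
      (fun n hn => lt_of_le_of_lt (hwin m n (hSQ m hn)).2.1 hzK)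
    have h4 := none_prob ε z R W K S' (1 / (2 * (K : ℝ))) (by positivity)
      (fun p hp => ⟨(hεz p hp).2.2.1, (hεz p hp).2.2.2⟩) hKη hη1 hS'd hS'K
    have h5 : PT ε (PR z R) (fun T1 => ∀ n ∈ S m, ¬ Disjoint (Qf z R (W * n - 1)) T1) ≤
        PT ε (PR z R) (fun T1 => ∀ n ∈ S', ¬ Disjoint (Qf z R (W * n - 1)) T1) :=
      PT_mono (fun p hp => hε p) fun T1 _ hall n hn => hall n (hS'S hn)
    refine h5.trans (h4.trans ?_)
    rw [← Real.rpow_natCast]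
    refine hpow _ ?_
    -- the size of `S'`
    have hu : 1 ≤ (h : ℝ) / (m * z) := by
      have h6 := hhm m hmpos hmh
      have h7 : (z : ℝ) ≤ (h : ℝ) / m := by
        refine le_trans ?_ (hzδ.trans h6)
        have : (1 : ℝ) ≤ z := by exact_mod_cast (by omega : 1 ≤ z)
        nlinarith
      rw [← div_div, le_div_iff₀ hz0, one_mul]
      exact h7
    have h6 : ((S m).card : ℝ) ≤ S'.card * (2 * (K + 1) * ((h : ℝ) / (m * z))) := by
      have h7 : ((S m).card : ℝ) ≤ S'.card * (K * ((⌊(h : ℝ) / (m * z)⌋₊ : ℝ) + 1) + 1) := by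
        exact_mod_cast hS'c
      refine h7.trans (mul_le_mul_of_nonneg_left ?_ (Nat.cast_nonneg _))
      have h8 : (⌊(h : ℝ) / (m * z)⌋₊ : ℝ) ≤ (h : ℝ) / (m * z) := Nat.floor_le (by positivity)
      nlinarith [mul_le_mul_of_nonneg_left h8 hK0.le, mul_le_mul_of_nonneg_left hu hK0.le]
    have h7 : c / (4 * (K + 1)) * (z : ℝ) / Real.log N' ≤ S'.card := by
      have h8 := h3.trans h6
      have hh0 : (0 : ℝ) < h := by exact_mod_cast hh1
      have hK01 : (0 : ℝ) < (K : ℝ) + 1 := by positivity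
      have h9 : c / 2 * ((h : ℝ) / (m * Real.log N')) =
          (c / (4 * (K + 1)) * (z : ℝ) / Real.log N') * (2 * (K + 1) * ((h : ℝ) / (m * z))) := by
        field_simp
        ring
      rw [h9] at h8
      exact le_of_mul_le_mul_right h8 (by positivity)
    refine le_trans ?_ h7
    have h8 : 0 ≤ c / (4 * ((K : ℝ) + 1)) := by positivity
    calc c / (4 * (K + 1)) * (N : ℝ) ^ (δ / 8) / Real.log N
        ≤ c / (4 * (K + 1)) * (z : ℝ) / Real.log N :=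
          div_le_div_of_nonneg_right (mul_le_mul_of_nonneg_left hz8 h8) hlogN.le
      _ ≤ c / (4 * (K + 1)) * (z : ℝ) / Real.log N' :=
          div_le_div_of_nonneg_left (by positivity) hlogN' hlogNN'
  -- a bad event has all candidates killed
  have hbad : ∀ T1 ⊆ PR z R, ∀ m : ℕ, (m = 1 ∨ (m.Prime ∧ m ∈ T1)) → m ≤ PTH.hd (2 * δ) N' →
      (∀ n : ℕ, N < n → n ≤ 2 * N → (n : ℝ) < N + (N : ℝ) ^ (1 / 2 - δ / 2) →
          ¬ Sur (T0 ∪ T1) (PR 1 R) n) →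
      ∀ n ∈ S m, ¬ Disjoint (Qf z R (W * n - 1)) T1 := by
    intro T1 hT1 m hm1 hmh hall n hn hdis
    have hmpos : 1 ≤ m := by
      rcases hm1 with rfl | ⟨h1, -⟩
      · exact le_rfl
      · exact h1.one_lt.le
    obtain ⟨h1, h2, h3⟩ := hwin m n (hSQ m hn)
    refine hall (W * n) h1 h2 h3 ?_
    have h4 := hn
    rw [hS m, mem_filter] at h4
    obtain ⟨h5, l, hl, hml, hnl⟩ := mem_QQ.1 h4.1
    rw [PSK.mem_JH] at h5
    rw [hWd]
    refine cand_sur hz2 hT0 hT1 hm1 ⟨l, hl, (hm m hmpos hmh).2 l (by rw [← hnl]; exact h5.1), hnl⟩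
      ?_ ?_
    · rw [← hWd]; exact h4.2
    · rw [← hWd]; exact hdis
  by_cases hmany : ((QQ N' h 1).card : ℝ) < c * ((h : ℝ) / Real.log N')
  · -- few primes: a small factor is needed
    have hmass := hdi hmany
    have hGd : ∀ m ∈ Gd c δ N', m.Prime ∧ z < m ∧ m ≤ PTH.hd (2 * δ) N' ∧ m ≤ R ∧
        c * ((h : ℝ) / (m * Real.log N')) ≤ ((QQ N' h m).card : ℝ) := by
      intro m hmG
      rw [mem_Gd, ← hh] at hmG
      obtain ⟨h1, h2, h3, h4⟩ := hmG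
      exact ⟨h2, by omega, h1, (hm m h2.one_lt.le h1).1, h4⟩
    have hGdP : Gd c δ N' ⊆ PR z R := by
      intro m hmG
      obtain ⟨h1, h2, h3, h4, h5⟩ := hGd m hmG
      exact mem_PR.2 ⟨⟨h2, h4⟩, h1⟩
    have h1 : PT ε (PR z R) (fun T1 => Tail (c * δ / (2 * C1)) w (T0 ∪ T1) ∧
        ∀ n : ℕ, N < n → n ≤ 2 * N → (n : ℝ) < N + (N : ℝ) ^ (1 / 2 - δ / 2) →
          ¬ Sur (T0 ∪ T1) (PR 1 R) n) ≤
        PT ε (PR z R) (fun T1 => (∀ m ∈ Gd c δ N', m ∉ T1) ∨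
          ∃ m ∈ Gd c δ N', ∀ n ∈ S m, ¬ Disjoint (Qf z R (W * n - 1)) T1) := by
      refine PT_mono (fun p _ => hε p) ?_
      rintro T1 hT1 ⟨-, hall⟩
      by_cases hex : ∀ m ∈ Gd c δ N', m ∉ T1
      · exact Or.inl hex
      · push Not at hex
        obtain ⟨m, hmG, hmT⟩ := hex
        obtain ⟨h1, h2, h3, h4, h5⟩ := hGd m hmG
        exact Or.inr ⟨m, hmG, hbad T1 hT1 m (Or.inr ⟨h1, hmT⟩) h3 hall⟩
    refine h1.trans ((PT_or_le (fun p _ => hε p) _ _).trans ?_)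
    have h2 : PT ε (PR z R) (fun T1 => ∀ m ∈ Gd c δ N', m ∉ T1) ≤ 1 / (N : ℝ) ^ 2 := by
      refine (none_chosen ε (PR z R) (Gd c δ N') hGdP (fun p _ => hε p)).trans ?_
      have h3 : 2 * Real.log N ≤ ∑ m ∈ Gd c δ N', ε m := by
        have h4 : ∀ m ∈ Gd c δ N', 20 / c2 * (Real.log N / 10) * (1 / (m : ℝ)) ≤ ε m := by
          intro m hmG
          obtain ⟨h5, h6, h7⟩ := hεz m (hGdP hmG)
          refine le_trans ?_ h6
          have hm0 : (0 : ℝ) < m := by exact_mod_cast h5.pos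
          have hzm : PTH.zz N' ≤ m := (mem_Gd.1 hmG).2.2.1
          have hlogm : Real.log (PTH.zz N') ≤ Real.log m :=
            Real.log_le_log (by exact_mod_cast (by omega : 0 < PTH.zz N')) (by exact_mod_cast hzm)
          rw [mul_one_div]
          refine div_le_div_of_nonneg_right (mul_le_mul_of_nonneg_left ?_ (by positivity)) hm0.le
          linarith
        calc 2 * Real.log N = 20 / c2 * (Real.log N / 10) * c2 := by field_simp; ring
          _ ≤ 20 / c2 * (Real.log N / 10) * ∑ m ∈ Gd c δ N', 1 / (m : ℝ) :=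
              mul_le_mul_of_nonneg_left hmass (by positivity)
          _ = ∑ m ∈ Gd c δ N', 20 / c2 * (Real.log N / 10) * (1 / (m : ℝ)) := by
              rw [Finset.mul_sum]
          _ ≤ _ := sum_le_sum h4
      calc Real.exp (-∑ m ∈ Gd c δ N', ε m) ≤ Real.exp (-(2 * Real.log N)) :=
            Real.exp_le_exp.2 (neg_le_neg h3)
        _ = 1 / (N : ℝ) ^ 2 := by
            have h7 : (N : ℝ) ^ 2 = Real.exp (2 * Real.log N) := by
              conv_lhs => rw [← Real.exp_log hN0]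
              rw [← Real.exp_nat_mul]
              push_cast
              rfl
            rw [h7, Real.exp_neg, one_div]
    have h3 : PT ε (PR z R) (fun T1 => ∃ m ∈ Gd c δ N', ∀ n ∈ S m,
        ¬ Disjoint (Qf z R (W * n - 1)) T1) ≤ 1 / (N : ℝ) ^ 2 := by
      refine (PT_exists_le (fun p _ => hε p) _ _).trans ?_
      have h4 : ∀ m ∈ Gd c δ N', PT ε (PR z R) (fun T1 => ∀ n ∈ S m,
          ¬ Disjoint (Qf z R (W * n - 1)) T1) ≤ 1 / (N : ℝ) ^ 3 := by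
        intro m hmG
        obtain ⟨h5, h6, h7, h8, h9⟩ := hGd m hmG
        exact claimM m (Or.inr ⟨h5, h6⟩) h7 h9
      refine (sum_le_card_nsmul _ _ _ h4).trans ?_
      rw [nsmul_eq_mul]
      have h5 : (Gd c δ N').card ≤ N := by
        have h6 : Gd c δ N' ⊆ Ioc 0 N := by
          intro m hmG
          obtain ⟨h7, h8, h9, h10, h11⟩ := hGd m hmG
          rw [mem_Ioc]
          refine ⟨h7.pos, ?_⟩
          have h12 : R ≤ N := by
            rw [hR]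
            have h13 : Nat.sqrt (2 * N) < N + 1 := Nat.sqrt_lt'.2 (by nlinarith)
            omega
          omega
        have := card_le_card h6
        rwa [Nat.card_Ioc, Nat.sub_zero] at this
      have h6 : ((Gd c δ N').card : ℝ) ≤ N := by exact_mod_cast h5
      calc ((Gd c δ N').card : ℝ) * (1 / (N : ℝ) ^ 3) ≤ N * (1 / (N : ℝ) ^ 3) :=
            mul_le_mul_of_nonneg_right h6 (by positivity)
        _ = 1 / (N : ℝ) ^ 2 := by field_simp
    calc _ ≤ 1 / (N : ℝ) ^ 2 + 1 / (N : ℝ) ^ 2 := add_le_add h2 h3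
      _ = 2 / (N : ℝ) ^ 2 := by ring
  · -- many primes
    push Not at hmany
    have h1 : PT ε (PR z R) (fun T1 => Tail (c * δ / (2 * C1)) w (T0 ∪ T1) ∧
        ∀ n : ℕ, N < n → n ≤ 2 * N → (n : ℝ) < N + (N : ℝ) ^ (1 / 2 - δ / 2) →
          ¬ Sur (T0 ∪ T1) (PR 1 R) n) ≤
        PT ε (PR z R) (fun T1 => ∀ n ∈ S 1, ¬ Disjoint (Qf z R (W * n - 1)) T1) := by
      refine PT_mono (fun p _ => hε p) ?_
      rintro T1 hT1 ⟨-, hall⟩
      exact hbad T1 hT1 1 (Or.inl rfl) hD1 hall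
    refine h1.trans ((claimM 1 (Or.inl rfl) hD1 (by push_cast; rw [one_mul]; exact hmany)).trans ?_)
    have h2 : 1 / (N : ℝ) ^ 3 ≤ 1 / (N : ℝ) ^ 2 :=
      one_div_le_one_div_of_le (by positivity) (pow_le_pow_right₀ (by linarith) (by norm_num))
    have h3 : 1 / (N : ℝ) ^ 2 ≤ 2 / (N : ℝ) ^ 2 :=
      div_le_div_of_nonneg_right (by norm_num) (by positivity)
    exact h2.trans h3

end Pool.Agent.SPT
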