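import Pool.Agent.Helper7.PTX.Mass
import Pool.Agent.SPT.Sel

set_option autoImplicit false

/-!
# SPT / T2Num: numerical facts, `N' = N / W` with `W ≤ B`
-/

open Finset Filter Real

namespace Pool.Agent.SPT

/-- lower end of the large primes -/
noncomputable def zN (δ : ℝ) (N : ℕ) : ℕ := ⌊(N : ℝ) ^ (δ / 4)⌋₊

theorem rpow_div_ge {x y B a : ℝ} (hx : 0 < x) (hB : 1 ≤ B) (hy : x / (2 * B) ≤ y) (ha : 0 ≤ a)
    (ha1 : a ≤ 1) : x ^ a / (2 * B) ≤ y ^ a := by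
  have h1 : (x / (2 * B)) ^ a ≤ y ^ a := rpow_le_rpow (by positivity) hy ha
  refine le_trans ?_ h1
  rw [div_rpow hx.le (by positivity)]
  refine div_le_div_of_nonneg_left (rpow_nonneg hx.le a) (rpow_pos_of_pos (by positivity) a) ?_
  calc (2 * B) ^ a ≤ (2 * B) ^ (1 : ℝ) := rpow_le_rpow_of_exponent_le (by linarith) ha1
    _ = 2 * B := rpow_one _

theorem facts (δ : ℝ) (hδ : 0 < δ) (hδ1 : δ ≤ 1 / 100000) (B : ℕ) (hB : 1 ≤ B) (K : ℕ)
    (hK : 16 / δ ≤ K) : ∀ᶠ N : ℕ in atTop, 2 ≤ N ∧ 2 ≤ zN δ N ∧ zN δ N ≤ Nat.sqrt (2 * N) ∧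
    2 * N < (zN δ N) ^ K ∧ (N : ℝ) ^ (δ / 8) ≤ zN δ N ∧ ∀ W : ℕ, 1 ≤ W → W ≤ B →
      N / W ≤ N ∧ (N : ℝ) / (2 * B) ≤ ((N / W : ℕ) : ℝ) ∧
      (zN δ N : ℝ) ^ 2 ≤ ((N / W : ℕ) : ℝ) ^ δ / 2 ∧
      zN δ N < PTH.zz (N / W) ∧ log N ≤ 10 * log (PTH.zz (N / W)) ∧
      (∀ m : ℕ, 1 ≤ m → m ≤ PTH.hd (2 * δ) (N / W) → m ≤ Nat.sqrt (2 * N) ∧
        ∀ l : ℕ, N / W < m * l → Nat.sqrt (2 * N) < l) ∧
      ((W * PTH.hd δ (N / W) : ℕ) : ℝ) ≤ (N : ℝ) ^ (1 / 2 - δ / 2) ∧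
      W * PTH.hd δ (N / W) ≤ N := by
  have hBR : (1 : ℝ) ≤ B := by exact_mod_cast hB
  have e : ∀ᶠ x : ℝ in atTop, 4 * (B : ℝ) ≤ x ^ (δ / 2) ∧ 2 ≤ x ^ (δ / 8) ∧
      4 * (B : ℝ) ≤ x ^ (9 / 200 : ℝ) ∧ 8 * (B : ℝ) ^ 2 ≤ x ^ (4 * δ) ∧ 4 * (B : ℝ) ≤ x ∧
      1 ≤ x ^ (1 / 10 : ℝ) := by
    filter_upwards [(tendsto_rpow_atTop (show 0 < δ / 2 by linarith)).eventually_ge_atTop (4 * (B : ℝ)),
      (tendsto_rpow_atTop (show 0 < δ / 8 by linarith)).eventually_ge_atTop (2 : ℝ),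
      (tendsto_rpow_atTop (show (0 : ℝ) < 9 / 200 by norm_num)).eventually_ge_atTop (4 * (B : ℝ)),
      (tendsto_rpow_atTop (show 0 < 4 * δ by linarith)).eventually_ge_atTop (8 * (B : ℝ) ^ 2),
      eventually_ge_atTop (4 * (B : ℝ)),
      (tendsto_rpow_atTop (show (0 : ℝ) < 1 / 10 by norm_num)).eventually_ge_atTop (1 : ℝ)]
      with x h1 h2 h3 h4 h5 h6
    exact ⟨h1, h2, h3, h4, h5, h6⟩
  filter_upwards [tendsto_natCast_atTop_atTop.eventually e] with N hN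
  obtain ⟨h1, h2, h3, h4, h5, h6⟩ := hN
  obtain ⟨x, hx⟩ : ∃ x : ℝ, x = N := ⟨_, rfl⟩
  rw [← hx] at h1 h2 h3 h4 h5 h6
  have hx4 : 4 ≤ x := by linarith
  have hx0 : 0 < x := by linarith
  have hx1 : 1 ≤ x := by linarith
  have hN2 : 2 ≤ N := by
    have : (2 : ℝ) ≤ N := by rw [← hx]; linarith
    exact_mod_cast this
  obtain ⟨z, hz⟩ : ∃ z, z = zN δ N := ⟨_, rfl⟩
  have hzle : (z : ℝ) ≤ x ^ (δ / 4) := by
    rw [hz, zN, ← hx]
    exact Nat.floor_le (rpow_nonneg hx0.le _)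
  have hzge : x ^ (δ / 4) - 1 < z := by
    rw [hz, zN, ← hx]
    exact Nat.sub_one_lt_floor _
  have h84 : x ^ (δ / 4) = x ^ (δ / 8) * x ^ (δ / 8) := by
    rw [← rpow_add hx0]; ring_nf
  have hz8 : x ^ (δ / 8) ≤ z := by
    rw [h84] at hzge
    nlinarith
  have hz2 : 2 ≤ z := by
    have : (2 : ℝ) ≤ z := by linarith
    exact_mod_cast this
  have hz4x : (z : ℝ) ^ 2 ≤ x ^ (δ / 2) := by
    calc (z : ℝ) ^ 2 ≤ (x ^ (δ / 4)) ^ 2 := pow_le_pow_left₀ (Nat.cast_nonneg _) hzle 2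
      _ = x ^ (δ / 2) := by
          rw [← rpow_natCast, ← rpow_mul hx0.le]
          congr 1
          push_cast
          ring
  have hzx : (z : ℝ) ^ 2 ≤ x := hz4x.trans (by
    calc x ^ (δ / 2) ≤ x ^ (1 : ℝ) := rpow_le_rpow_of_exponent_le hx1 (by linarith)
      _ = x := rpow_one x)
  rw [← hz, ← hx]
  refine ⟨hN2, hz2, ?_, ?_, hz8, ?_⟩
  · rw [Nat.le_sqrt']
    have : ((z ^ 2 : ℕ) : ℝ) ≤ ((2 * N : ℕ) : ℝ) := by
      push_cast
      rw [← hx]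
      linarith
    exact_mod_cast this
  · have h7 : (x : ℝ) ^ (2 : ℝ) ≤ (z : ℝ) ^ K := by
      calc x ^ (2 : ℝ) ≤ x ^ (δ / 8 * K) := by
            refine rpow_le_rpow_of_exponent_le hx1 ?_
            rw [div_le_iff₀ hδ] at hK
            nlinarith
        _ = (x ^ (δ / 8)) ^ K := by rw [rpow_mul hx0.le, rpow_natCast]
        _ ≤ (z : ℝ) ^ K := pow_le_pow_left₀ (rpow_nonneg hx0.le _) hz8 K
    have h8 : ((2 * N : ℕ) : ℝ) < ((z ^ K : ℕ) : ℝ) := by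
      push_cast
      rw [← hx]
      refine lt_of_lt_of_le ?_ h7
      rw [rpow_two]
      nlinarith
    exact_mod_cast h8
  intro W hW1 hWB
  have hWR : (1 : ℝ) ≤ W := by exact_mod_cast hW1
  have hWBR : (W : ℝ) ≤ B := by exact_mod_cast hWB
  obtain ⟨N', hN'⟩ : ∃ N', N' = N / W := ⟨_, rfl⟩
  obtain ⟨x', hx'⟩ : ∃ x' : ℝ, x' = N' := ⟨_, rfl⟩
  rw [← hN']
  have hN'N : N' ≤ N := by rw [hN']; exact Nat.div_le_self N W
  have hx'x : x' ≤ x := by rw [hx, hx']; exact_mod_cast hN'N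
  have hlow : x / (2 * B) ≤ x' := by
    have h7 : N < W * (N' + 1) := by
      rw [hN', mul_comm]
      exact Nat.lt_mul_of_div_lt (Nat.lt_succ_self _) (by omega)
    have h8 : x < W * (x' + 1) := by rw [hx, hx']; exact_mod_cast h7
    have h9 : x / W < x' + 1 := by rw [div_lt_iff₀ (by linarith)]; linarith
    have h10 : x / B ≤ x / W := div_le_div_of_nonneg_left hx0.le (by linarith) hWBR
    have h11 : 1 ≤ x / (2 * B) := by rw [le_div_iff₀ (by positivity)]; linarith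
    have h12 : x / B = x / (2 * B) + x / (2 * B) := by field_simp; ring
    linarith
  have hx'1 : 1 ≤ x' := le_trans (by rw [le_div_iff₀ (by positivity)]; linarith) hlow
  have hx'0 : 0 < x' := by linarith
  have hzz : x ^ (1 / 10 : ℝ) < PTH.zz N' := by
    have h7 : x' ^ (29 / 200 : ℝ) - 1 < PTH.zz N' := by
      unfold PTH.zz
      rw [← hx']
      exact Nat.sub_one_lt_floor _
    have h8 := rpow_div_ge (a := 29 / 200) hx0 hBR hlow (by norm_num) (by norm_num)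
    have h9 : x ^ (29 / 200 : ℝ) = x ^ (1 / 10 : ℝ) * x ^ (9 / 200 : ℝ) := by
      rw [← rpow_add hx0]; norm_num
    have h10 : 2 * x ^ (1 / 10 : ℝ) ≤ x ^ (29 / 200 : ℝ) / (2 * B) := by
      rw [le_div_iff₀ (by positivity), h9]
      nlinarith [mul_le_mul_of_nonneg_left h3 (show 0 ≤ x ^ (1 / 10 : ℝ) by positivity)]
    linarith
  refine ⟨hN'N, by rw [← hx']; exact hlow, ?_, ?_, ?_, ?_, ?_, ?_⟩
  · rw [← hx']
    refine hz4x.trans ?_
    have h7 := rpow_div_ge (a := δ) hx0 hBR hlow hδ.le (by linarith)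
    have h8 : x ^ δ = x ^ (δ / 2) * x ^ (δ / 2) := by
      rw [← rpow_add hx0]; ring_nf
    have h9 : 2 * x ^ (δ / 2) ≤ x ^ δ / (2 * B) := by
      rw [le_div_iff₀ (by positivity), h8]
      nlinarith [mul_le_mul_of_nonneg_left h1 (show 0 ≤ x ^ (δ / 2) by positivity)]
    linarith
  · have h7 : (z : ℝ) < PTH.zz N' := by
      refine lt_of_le_of_lt (hzle.trans ?_) hzz
      exact rpow_le_rpow_of_exponent_le hx1 (by linarith)
    exact_mod_cast h7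
  · have h7 : log (x ^ (1 / 10 : ℝ)) ≤ log (PTH.zz N') := log_le_log (by positivity) hzz.le
    rw [log_rpow hx0] at h7
    linarith
  · intro m hm hmh
    have hmR : (1 : ℝ) ≤ m := by exact_mod_cast hm
    have hmle : (m : ℝ) ≤ x' ^ (1 / 2 - 2 * δ) := by
      have h7 : (m : ℝ) ≤ PTH.hd (2 * δ) N' := by exact_mod_cast hmh
      refine h7.trans ?_
      unfold PTH.hd
      rw [← hx']
      exact Nat.floor_le (rpow_nonneg hx'0.le _)
    constructor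
    · rw [Nat.le_sqrt']
      have h7 : (m : ℝ) ≤ x ^ (1 / 2 : ℝ) := hmle.trans ((rpow_le_rpow_of_exponent_le hx'1
        (by linarith)).trans (rpow_le_rpow hx'0.le hx'x (by norm_num)))
      have h8 : (m : ℝ) ^ 2 ≤ x := by
        calc (m : ℝ) ^ 2 ≤ (x ^ (1 / 2 : ℝ)) ^ 2 := pow_le_pow_left₀ (Nat.cast_nonneg _) h7 2
          _ = x := by rw [← rpow_natCast, ← rpow_mul hx0.le]; norm_num
      have h9 : ((m ^ 2 : ℕ) : ℝ) ≤ ((2 * N : ℕ) : ℝ) := by
        push_cast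
        rw [← hx]
        linarith
      exact_mod_cast h9
    · intro l hl
      rw [Nat.sqrt_lt']
      have h7 : x' < m * l := by rw [hx']; exact_mod_cast hl
      have h8 : x' < x' ^ (1 / 2 - 2 * δ) * l := lt_of_lt_of_le h7
        (mul_le_mul_of_nonneg_right hmle (Nat.cast_nonneg _))
      have h9 : x' ^ (1 / 2 + 2 * δ) < l := by
        have h10 : x' = x' ^ (1 / 2 - 2 * δ) * x' ^ (1 / 2 + 2 * δ) := by
          rw [← rpow_add hx'0]; ring_nf; rw [rpow_one]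
        have h11 : x' ^ (1 / 2 - 2 * δ) * x' ^ (1 / 2 + 2 * δ) < x' ^ (1 / 2 - 2 * δ) * l := by
          rw [← h10]; exact h8
        exact lt_of_mul_lt_mul_left h11 (rpow_nonneg hx'0.le _)
      have h10 : x' ^ (1 + 4 * δ) < (l : ℝ) ^ 2 := by
        calc x' ^ (1 + 4 * δ) = (x' ^ (1 / 2 + 2 * δ)) ^ 2 := by
              rw [← rpow_natCast, ← rpow_mul hx'0.le]
              congr 1
              push_cast
              ring
          _ < (l : ℝ) ^ 2 := pow_lt_pow_left₀ h9 (rpow_nonneg hx'0.le _) (by norm_num)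
      have h11 : 2 * x ≤ x' ^ (1 + 4 * δ) := by
        rw [rpow_add hx'0, rpow_one]
        have h12 := rpow_div_ge (a := 4 * δ) hx0 hBR hlow (by linarith) (by linarith)
        have h13 : 4 * B ≤ x' ^ (4 * δ) := by
          refine le_trans ?_ h12
          rw [le_div_iff₀ (by positivity)]
          nlinarith
        calc 2 * x = x / (2 * B) * (4 * B) := by field_simp; ring
          _ ≤ x' * x' ^ (4 * δ) := mul_le_mul hlow h13 (by positivity) hx'0.le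
      have h12 : ((2 * N : ℕ) : ℝ) < ((l ^ 2 : ℕ) : ℝ) := by
        push_cast
        rw [← hx]
        linarith
      exact_mod_cast h12
  · have h7 : (PTH.hd δ N' : ℝ) ≤ x ^ (1 / 2 - δ) := by
      unfold PTH.hd
      rw [← hx']
      refine (Nat.floor_le (rpow_nonneg hx'0.le _)).trans ?_
      exact rpow_le_rpow hx'0.le hx'x (by linarith)
    push_cast
    calc (W : ℝ) * PTH.hd δ N' ≤ x ^ (δ / 2) * x ^ (1 / 2 - δ) :=
          mul_le_mul (by linarith) h7 (Nat.cast_nonneg _) (by positivity)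
      _ = x ^ (1 / 2 - δ / 2) := by rw [← rpow_add hx0]; ring_nf
  · have h7 : (PTH.hd δ N' : ℝ) ≤ x ^ (1 / 2 - δ) := by
      unfold PTH.hd
      rw [← hx']
      refine (Nat.floor_le (rpow_nonneg hx'0.le _)).trans ?_
      exact rpow_le_rpow hx'0.le hx'x (by linarith)
    have h8 : ((W * PTH.hd δ N' : ℕ) : ℝ) ≤ (N : ℝ) := by
      push_cast
      rw [← hx]
      calc (W : ℝ) * PTH.hd δ N' ≤ x ^ (δ / 2) * x ^ (1 / 2 - δ) :=
            mul_le_mul (by linarith) h7 (Nat.cast_nonneg _) (by positivity)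
        _ = x ^ (1 / 2 - δ / 2) := by rw [← rpow_add hx0]; ring_nf
        _ ≤ x ^ (1 : ℝ) := rpow_le_rpow_of_exponent_le hx1 (by linarith)
        _ = x := rpow_one x
    exact_mod_cast h8

end Pool.Agent.SPT
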