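import Pool.Agent.SPT.Prod
import Pool.Agent.SPT.Cls

set_option autoImplicit false

/-!
# SPT / Win: probability that a window contains no survivor
-/

open Finset Classical Pool.Agent.Helper76.OB

namespace Pool.Agent.SPT

theorem PR_split {a b c : ℕ} (hab : a ≤ b) (hbc : b ≤ c) : PR a c = PR a b ∪ PR b c := by
  ext p
  rw [mem_union, mem_PR, mem_PR, mem_PR]
  constructor
  · rintro ⟨⟨h1, h2⟩, h3⟩
    rcases le_or_gt p b with h | h
    · exact Or.inl ⟨⟨h1, h⟩, h3⟩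
    · exact Or.inr ⟨⟨h, h2⟩, h3⟩
  · rintro (⟨⟨h1, h2⟩, h3⟩ | ⟨⟨h1, h2⟩, h3⟩)
    · exact ⟨⟨h1, h2.trans hbc⟩, h3⟩
    · exact ⟨⟨lt_of_le_of_lt hab h1, h2⟩, h3⟩

theorem PR_disj {a b c : ℕ} : Disjoint (PR a b) (PR b c) := by
  rw [disjoint_left]
  intro p h1 h2
  rw [mem_PR] at h1 h2
  omega

/-- a candidate survives if its large prime factors are in `T1` and those of `n - 1` are not -/
theorem sur_of_cy {y R n : ℕ} {T0 T1 : Finset ℕ} (hT0 : T0 ⊆ PR 1 y) (hT1 : T1 ⊆ PR y R)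
    (hn : 1 ≤ n) (h0 : Sur T0 (PR 1 y) n) (h1 : Cy (Qf y R (n - 1)) (Qf y R n) T1) :
    Sur (T0 ∪ T1) (PR 1 R) n := by
  intro p hp hmod
  rw [mem_PR] at hp
  rcases le_or_gt p y with hy | hy
  · have hpy : p ∈ PR 1 y := mem_PR.2 ⟨⟨hp.1.1, hy⟩, hp.2⟩
    have h2 : p ∈ T0 ∪ T1 ↔ p ∈ T0 := by
      rw [mem_union]
      exact ⟨fun h => h.elim id fun h3 => absurd (mem_PR.1 (hT1 h3)).1.1 (by omega), Or.inl⟩
    have h3 : cl (T0 ∪ T1) p = cl T0 p := by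
      unfold cl
      simp only [h2]
    rw [h3] at hmod
    exact h0 p hpy hmod
  · have hpy : p ∈ PR y R := mem_PR.2 ⟨⟨hy, hp.1.2⟩, hp.2⟩
    have h2 : p ∈ T0 ∪ T1 ↔ p ∈ T1 := by
      rw [mem_union]
      exact ⟨fun h => h.elim (fun h3 => absurd (mem_PR.1 (hT0 h3)).1.2 (by omega)) id, Or.inr⟩
    by_cases hpT : p ∈ T1
    · have h3 : cl (T0 ∪ T1) p = 1 := by
        unfold cl
        rw [if_pos (h2.2 hpT)]
      rw [h3] at hmod
      have h4 : p ∣ n - 1 := (Nat.modEq_iff_dvd' hn).1 hmod.symm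
      exact disjoint_left.1 h1.2 (mem_Qf.2 ⟨mem_PR.1 hpy, h4⟩) hpT
    · have h3 : cl (T0 ∪ T1) p = 0 := by
        unfold cl
        rw [if_neg (fun h => hpT (h2.1 h))]
      rw [h3] at hmod
      have h4 : p ∣ n := (Nat.modEq_zero_iff_dvd).1 hmod
      exact hpT (h1.1 (mem_Qf.2 ⟨mem_PR.1 hpy, h4⟩))

theorem pC_ge {ε : ℕ → ℝ} {e0 : ℝ} {P U V : Finset ℕ} {K : ℕ} (he0 : 0 ≤ e0) (he1 : e0 ≤ 1)
    (h : ∀ p ∈ P, e0 ≤ ε p ∧ ε p ≤ 1 - e0) (hU : U ⊆ P) (hV : V ⊆ P)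
    (hUK : U.card ≤ K) (hVK : V.card ≤ K) : e0 ^ (2 * K) ≤ pC ε U V := by
  have h1 : e0 ^ V.card ≤ ∏ p ∈ V, ε p := by
    rw [← prod_const]
    exact prod_le_prod (fun _ _ => he0) fun p hp => (h p (hV hp)).1
  have h2 : e0 ^ U.card ≤ ∏ p ∈ U, (1 - ε p) := by
    rw [← prod_const]
    exact prod_le_prod (fun _ _ => he0) fun p hp => by linarith [(h p (hU hp)).2]
  have h3 : e0 ^ K ≤ e0 ^ V.card := pow_le_pow_of_le_one he0 he1 hVK
  have h4 : e0 ^ K ≤ e0 ^ U.card := pow_le_pow_of_le_one he0 he1 hUK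
  have h5 : 0 ≤ e0 ^ K := pow_nonneg he0 K
  unfold pC
  calc e0 ^ (2 * K) = e0 ^ K * e0 ^ K := by rw [two_mul, pow_add]
    _ ≤ (∏ p ∈ V, ε p) * ∏ p ∈ U, (1 - ε p) :=
        mul_le_mul (h3.trans h1) (h4.trans h2) h5 (h5.trans (h3.trans h1))

theorem window_bound : ∃ (c : ℝ) (y0 : ℕ), 0 < c ∧ 2 ≤ y0 ∧ ∀ (ε : ℕ → ℝ) (e0 : ℝ)
    (y N K R : ℕ), y0 ≤ y → 1 ≤ K → 1 ≤ N → N + y ^ 3 < y ^ (K + 1) → y ≤ R → 0 ≤ e0 → e0 ≤ 1 →
    (∀ p, 0 ≤ ε p ∧ ε p ≤ 1) → (∀ p ∈ PR y R, e0 ≤ ε p ∧ ε p ≤ 1 - e0) →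
    PT ε (PR 2 R) (fun T => ∀ n ∈ Ioc N (N + y ^ 3), ¬ Sur T (PR 1 R) n) ≤
      Real.exp (-(e0 ^ (2 * K) * (c * y / (9 * K * Real.log y)))) := by
  obtain ⟨c, y0, hc, hy0, hs⟩ := sieve_cls
  refine ⟨c, y0, hc, hy0, ?_⟩
  intro ε e0 y N K R hy hK hN hNK hyR he0 he1 hε he
  have hy2 : 2 ≤ y := hy0.trans hy
  have hyR' : (2 : ℝ) ≤ y := by exact_mod_cast hy2
  have hly : 0 < Real.log y := Real.log_pos (by linarith)
  have hKR : (1 : ℝ) ≤ K := by exact_mod_cast hK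
  rw [PR_split hy2 hyR]
  refine PT_union ε _ _ PR_disj (fun p _ => hε p) _ _ ?_
  intro T0 hT0
  obtain ⟨S, hS⟩ : ∃ S, S = (Ioc N (N + y ^ 3)).filter (fun n => Sur T0 (PR 1 y) n) := ⟨_, rfl⟩
  have hScard := hs y hy N (y ^ 3) T0 le_rfl
  rw [← hS] at hScard
  have hSmem : ∀ n ∈ S, (N < n ∧ n ≤ N + y ^ 3) ∧ Sur T0 (PR 1 y) n := by
    intro n hn
    rw [hS, mem_filter, mem_Ioc] at hn
    exact hn
  have hcard : ∀ m, 1 ≤ m → m < y ^ (K + 1) → (Qf y R m).card ≤ K := by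
    intro m h0 hm
    have h1 := pow_card_Qf_le y R m h0
    have h2 := lt_of_le_of_lt h1 hm
    have h3 := (Nat.pow_lt_pow_iff_right (by omega : 1 < y)).1 h2
    omega
  obtain ⟨S', hS'S, hS'd, hS'c⟩ := exists_disjoint_family S
    (fun n => Qf y R n ∪ Qf y R (n - 1)) (2 * K) (2 * (y ^ 2 + 1))
    (by
      intro n hn
      have h1 := (hSmem n hn).1
      refine (card_union_le _ _).trans ?_
      have h2 := hcard n (by omega) (by omega)
      have h3 := hcard (n - 1) (by omega) (by omega)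
      omega)
    (by
      intro p
      rcases le_or_gt p y with hp | hp
      · rw [filter_eq_empty_iff.2]
        · simp
        · intro n _ h
          rw [mem_union, mem_Qf, mem_Qf] at h
          omega
      · have h1 : S.filter (fun n => p ∈ Qf y R n ∪ Qf y R (n - 1)) ⊆
            (Ioc N (N + y ^ 3)).filter (fun n => p ∣ n + 0) ∪
            (Ioc N (N + y ^ 3)).filter (fun n => p ∣ n - 1) := by
          intro n hn
          rw [mem_filter, mem_union, mem_Qf, mem_Qf] at hn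
          have h2 := (hSmem n hn.1).1
          rw [mem_union, mem_filter, mem_filter, mem_Ioc]
          rcases hn.2 with h | h
          · exact Or.inl ⟨h2, h.2⟩
          · exact Or.inr ⟨h2, h.2⟩
        have h2 := card_dvd_le N (y ^ 3) p (by omega) 0
        have h3 := card_dvd_pred_le N (y ^ 3) p (by omega)
        have h4 : y ^ 3 / p ≤ y ^ 2 := by
          refine Nat.div_le_of_le_mul ?_
          calc y ^ 3 = y * y ^ 2 := by ring
            _ ≤ p * y ^ 2 := Nat.mul_le_mul_right _ hp.le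
        have h5 := card_le_card h1
        have h6 := card_union_le ((Ioc N (N + y ^ 3)).filter (fun n => p ∣ n + 0))
          ((Ioc N (N + y ^ 3)).filter (fun n => p ∣ n - 1))
        omega)
  have hS'mem : ∀ n ∈ S', (N < n ∧ n ≤ N + y ^ 3) ∧ Sur T0 (PR 1 y) n := fun n hn =>
    hSmem n (hS'S hn)
  -- the probability bound
  have hb := PT_none_le ε (PR y R) S' (fun n => Qf y R n) (fun n => Qf y R (n - 1))
    (e0 ^ (2 * K)) (pow_le_one₀ he0 he1) (fun p _ => hε p) (fun n _ => Qf_subset y R n)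
    (fun n _ => Qf_subset y R (n - 1))
    (fun n hn => Qf_disjoint_pred y R n (by have := (hS'mem n hn).1; omega)) hS'd
    (fun n hn => pC_ge he0 he1 he (Qf_subset y R (n - 1)) (Qf_subset y R n)
      (hcard (n - 1) (by have := (hS'mem n hn).1; omega) (by have := (hS'mem n hn).1; omega))
      (hcard n (by have := (hS'mem n hn).1; omega) (by have := (hS'mem n hn).1; omega)))
  have hmono : PT ε (PR y R) (fun T1 => ∀ n ∈ Ioc N (N + y ^ 3), ¬ Sur (T0 ∪ T1)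
      (PR 1 R) n) ≤ PT ε (PR y R) (fun T => ∀ n ∈ S', ¬ Cy (Qf y R (n - 1)) (Qf y R n) T) := by
    refine PT_mono (fun p _ => hε p) ?_
    intro T1 hT1 hall n hn hCy
    have h1 := hS'mem n hn
    have h2 := hall n (mem_Ioc.2 h1.1)
    have hT0' : T0 ⊆ PR 1 y := fun p hp => by
      have h3 := mem_PR.1 (hT0 hp)
      exact mem_PR.2 ⟨⟨by omega, h3.1.2⟩, h3.2⟩
    exact h2 (sur_of_cy hT0' hT1 (by omega) h1.2 hCy)
  refine hmono.trans (hb.trans ?_)
  -- numerics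
  have hs0 : 0 ≤ e0 ^ (2 * K) := pow_nonneg he0 _
  have hs1 : e0 ^ (2 * K) ≤ 1 := pow_le_one₀ he0 he1
  have h1 : (1 - e0 ^ (2 * K)) ^ S'.card ≤ Real.exp (-(e0 ^ (2 * K) * S'.card)) := by
    have h2 : 1 - e0 ^ (2 * K) ≤ Real.exp (-(e0 ^ (2 * K))) := by
      have := Real.add_one_le_exp (-(e0 ^ (2 * K)))
      linarith
    calc (1 - e0 ^ (2 * K)) ^ S'.card ≤ (Real.exp (-(e0 ^ (2 * K)))) ^ S'.card :=
          pow_le_pow_left₀ (by linarith) h2 _
      _ = Real.exp (-(e0 ^ (2 * K) * S'.card)) := by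
          rw [← Real.exp_nat_mul]
          congr 1
          ring
  refine h1.trans (Real.exp_le_exp.2 (neg_le_neg ?_))
  refine mul_le_mul_of_nonneg_left ?_ hs0
  have h3 : (S.card : ℝ) ≤ S'.card * (9 * K * y ^ 2) := by
    have h4 : S.card ≤ S'.card * (9 * K * y ^ 2) := by
      refine hS'c.trans (Nat.mul_le_mul_left _ ?_)
      have h5 : 1 ≤ K * y ^ 2 := Nat.one_le_iff_ne_zero.2 (by positivity)
      have h6 : K * 4 ≤ K * y ^ 2 := Nat.mul_le_mul_left K (by nlinarith)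
      nlinarith
    exact_mod_cast h4
  rw [div_le_iff₀ (by positivity)]
  have h7 : c * (y : ℝ) ^ 3 ≤ S'.card * (9 * K * y ^ 2) * Real.log y := by
    have h8 : c * ((y ^ 3 : ℕ) : ℝ) ≤ S.card * Real.log y := (div_le_iff₀ hly).1 hScard
    push_cast at h8
    exact h8.trans (mul_le_mul_of_nonneg_right h3 hly.le)
  have h9 : (0 : ℝ) < y ^ 2 := by positivity
  refine le_of_mul_le_mul_right ?_ h9
  calc c * y * (y : ℝ) ^ 2 = c * y ^ 3 := by ring
    _ ≤ _ := h7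
    _ = S'.card * (9 * K * Real.log y) * y ^ 2 := by ring

end Pool.Agent.SPT
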