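import Pool.Agent.SPT.T2Cnt
import Pool.Agent.SPT.Win

set_option autoImplicit false

/-!
# SPT / T2Win: probability that a window of length `N^(1/2-δ)` has no survivor
-/

open Finset Filter Classical Pool.Agent.Helper76.OB Pool.Agent.Helper7.PTX

namespace Pool.Agent.SPT

/-- the tail condition -/
def Tail (τ : ℝ) (w : ℕ) (T : Finset ℕ) : Prop :=
  ∑ p ∈ T.filter (fun p => w < p), 1 / ((p : ℝ) - 1) ≤ τ

theorem Tail.mono {τ : ℝ} {w : ℕ} {T T' : Finset ℕ} (h : Tail τ w T') (hT : T ⊆ T')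
    (hp : ∀ p ∈ T', p.Prime) : Tail τ w T := by
  refine le_trans ?_ h
  refine sum_le_sum_of_subset_of_nonneg (filter_subset_filter _ hT) fun p hp' _ => ?_
  have h1 : (2 : ℝ) ≤ p := by exact_mod_cast (hp p (mem_filter.1 hp').1).two_le
  have : (0 : ℝ) < (p : ℝ) - 1 := by linarith
  positivity

/-- the product of the small primes of `T` -/
def WP (w : ℕ) (T : Finset ℕ) : ℕ := ∏ p ∈ T.filter (fun p => p ≤ w), p

theorem WP_le (w : ℕ) (T : Finset ℕ) (hT : ∀ p ∈ T, p.Prime) : WP w T ≤ primorial w := by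
  unfold WP primorial
  refine prod_le_prod_of_subset_of_one_le' ?_ fun p hp _ => (mem_filter.1 hp).2.one_lt.le
  intro p hp
  rw [mem_filter] at hp ⊢
  exact ⟨mem_range.2 (by omega), hT p hp.1⟩

theorem WP_pos (w : ℕ) (T : Finset ℕ) (hT : ∀ p ∈ T, p.Prime) : 1 ≤ WP w T := by
  unfold WP
  exact Nat.one_le_iff_ne_zero.2 (prod_ne_zero_iff.2 fun p hp => (hT p (mem_filter.1 hp).1).ne_zero)

theorem dvd_WP {w p : ℕ} {T : Finset ℕ} (hT : ∀ p ∈ T, p.Prime) (hp : p.Prime) :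
    p ∣ WP w T ↔ p ∈ T ∧ p ≤ w := by
  unfold WP
  rw [Prime.dvd_finset_prod_iff hp.prime]
  constructor
  · rintro ⟨q, hq, hpq⟩
    rw [mem_filter] at hq
    have : p = q := (Nat.prime_dvd_prime_iff_eq hp (hT q hq.1)).1 hpq
    rw [this]
    exact hq
  · intro h
    exact ⟨p, mem_filter.2 h, dvd_refl p⟩

/-- a candidate which is not killed survives -/
theorem cand_sur {z R w m n : ℕ} {T0 T1 : Finset ℕ} (hz : 2 ≤ z) (hT0 : T0 ⊆ PR 2 z)
    (hT1 : T1 ⊆ PR z R) (hm : m = 1 ∨ (m.Prime ∧ m ∈ T1))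
    (hn : ∃ l : ℕ, l.Prime ∧ R < l ∧ n = m * l) (hsmall : ¬ ∃ p ∈ T0, w < p ∧ WP w T0 * n ≡ 1 [MOD p])
    (hlarge : Disjoint (Qf z R (WP w T0 * n - 1)) T1) :
    Sur (T0 ∪ T1) (PR 1 R) (WP w T0 * n) := by
  have hT0p : ∀ p ∈ T0, p.Prime := fun p hp => (mem_PR.1 (hT0 hp)).2
  obtain ⟨l, hl, hRl, hnl⟩ := hn
  have hmpos : 1 ≤ m := by
    rcases hm with rfl | ⟨h, -⟩
    · exact le_rfl
    · exact h.one_lt.le
  have hpos : 1 ≤ WP w T0 * n := by
    have h1 := WP_pos w T0 hT0p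
    have h2 : 1 ≤ n := by
      rw [hnl]
      exact Nat.mul_pos hmpos hl.pos
    exact Nat.mul_pos h1 h2
  intro p hp hmod
  rw [mem_PR] at hp
  by_cases hpT : p ∈ T0 ∪ T1
  · have hcl : cl (T0 ∪ T1) p = 1 := by unfold cl; rw [if_pos hpT]
    rw [hcl] at hmod
    rcases mem_union.1 hpT with h0 | h1
    · rcases le_or_gt p w with hpw | hpw
      · have h2 : p ∣ WP w T0 * n := Dvd.dvd.mul_right ((dvd_WP hT0p hp.2).2 ⟨h0, hpw⟩) n
        have h3 : (1 : ℕ) ≡ 0 [MOD p] := hmod.symm.trans (Nat.modEq_zero_iff_dvd.2 h2)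
        exact hp.2.one_lt.ne' (Nat.dvd_one.1 (Nat.modEq_zero_iff_dvd.1 h3))
      · exact hsmall ⟨p, h0, hpw, hmod⟩
    · have h2 : p ∣ WP w T0 * n - 1 := (Nat.modEq_iff_dvd' hpos).1 hmod.symm
      exact disjoint_left.1 hlarge (mem_Qf.2 ⟨mem_PR.1 (hT1 h1), h2⟩) h1
  · have hcl : cl (T0 ∪ T1) p = 0 := by unfold cl; rw [if_neg hpT]
    rw [hcl] at hmod
    have h2 : p ∣ WP w T0 * n := Nat.modEq_zero_iff_dvd.1 hmod
    rw [mem_union, not_or] at hpT
    rcases (Nat.Prime.dvd_mul hp.2).1 h2 with h3 | h3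
    · exact hpT.1 ((dvd_WP hT0p hp.2).1 h3).1
    · rw [hnl] at h3
      rcases (Nat.Prime.dvd_mul hp.2).1 h3 with h4 | h4
      · rcases hm with rfl | ⟨hmp, hmT⟩
        · exact hp.2.one_lt.ne' (Nat.dvd_one.1 h4)
        · have : p = m := (Nat.prime_dvd_prime_iff_eq hp.2 hmp).1 h4
          exact hpT.2 (this ▸ hmT)
      · have : p = l := (Nat.prime_dvd_prime_iff_eq hp.2 hl).1 h4
        omega

theorem pow_small (δ c' : ℝ) (hδ : 0 < δ) (hc' : 0 < c') : ∀ᶠ N : ℕ in atTop,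
    ∀ k : ℝ, c' * (N : ℝ) ^ (δ / 8) / Real.log N ≤ k → (1 / 2 : ℝ) ^ k ≤ 1 / (N : ℝ) ^ 3 := by
  have e : ∀ᶠ x : ℝ in atTop, 3 * (Real.log x) ^ 2 ≤ Real.log 2 * c' * x ^ (δ / 8) ∧ 2 ≤ x := by
    have h1 := (isLittleO_log_rpow_atTop (show 0 < δ / 16 by linarith)).def
      (c := √(Real.log 2 * c' / 3)) (by
        have := Real.log_pos (show (1 : ℝ) < 2 by norm_num)
        positivity)
    filter_upwards [h1, eventually_ge_atTop 2] with x h1 h2
    refine ⟨?_, h2⟩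
    have hlog : 0 ≤ Real.log x := Real.log_nonneg (by linarith)
    have hx0 : 0 < x := by linarith
    rw [Real.norm_of_nonneg hlog, Real.norm_of_nonneg (Real.rpow_nonneg hx0.le _)] at h1
    have h3 := pow_le_pow_left₀ hlog h1 2
    have hl2 := Real.log_pos (show (1 : ℝ) < 2 by norm_num)
    rw [mul_pow, Real.sq_sqrt (by positivity), ← Real.rpow_natCast, ← Real.rpow_natCast,
      ← Real.rpow_mul hx0.le] at h3
    have h4 : δ / 16 * ((2 : ℕ) : ℝ) = δ / 8 := by push_cast; ring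
    rw [h4] at h3
    rw [← Real.rpow_natCast]
    calc 3 * Real.log x ^ ((2 : ℕ) : ℝ) ≤ 3 * (Real.log 2 * c' / 3 * x ^ (δ / 8)) := by linarith
      _ = Real.log 2 * c' * x ^ (δ / 8) := by ring
  filter_upwards [tendsto_natCast_atTop_atTop.eventually e] with N hN
  obtain ⟨h1, h2⟩ := hN
  intro k hk
  have hlog : 0 < Real.log N := Real.log_pos (by linarith)
  have hl2 := Real.log_pos (show (1 : ℝ) < 2 by norm_num)
  have h3 : 3 * Real.log N ≤ Real.log 2 * k := by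
    have h4 : 3 * Real.log N ≤ Real.log 2 * (c' * (N : ℝ) ^ (δ / 8) / Real.log N) := by
      rw [← mul_div_assoc, le_div_iff₀ hlog]
      nlinarith
    exact h4.trans (mul_le_mul_of_nonneg_left hk hl2.le)
  have h5 : (1 / 2 : ℝ) ^ k = Real.exp (-(Real.log 2 * k)) := by
    rw [Real.rpow_def_of_pos (by norm_num)]
    congr 1
    rw [one_div, Real.log_inv]
    ring
  rw [h5]
  have h6 : 1 / (N : ℝ) ^ 3 = Real.exp (-(3 * Real.log N)) := by
    have h7 : (N : ℝ) ^ 3 = Real.exp (3 * Real.log N) := by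
      conv_lhs => rw [← Real.exp_log (show (0 : ℝ) < N by linarith)]
      rw [← Real.exp_nat_mul]
      push_cast
      rfl
    rw [h7, Real.exp_neg, one_div]
  rw [h6]
  exact Real.exp_le_exp.2 (neg_le_neg h3)

end Pool.Agent.SPT
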