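import Pool.Agent.Helper6.PNT

set_option autoImplicit false

/-!
# SPT / T3A: consequences of the prime number theorem
-/

open Filter Real Topology

namespace Pool.Agent.SPT.T3

/-- number of primes `≤ t` -/
noncomputable def P (t : ℝ) : ℝ := (Nat.primeCounting ⌊t⌋₊ : ℝ)

theorem P_nonneg (t : ℝ) : 0 ≤ P t := Nat.cast_nonneg _

theorem P_mono {s t : ℝ} (h : s ≤ t) : P s ≤ P t := by
  unfold P
  exact_mod_cast Nat.monotone_primeCounting (Nat.floor_le_floor h)

theorem P_zero {t : ℝ} (h : t < 2) : P t = 0 := by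
  unfold P
  have h1 : ⌊t⌋₊ < 2 := (Nat.floor_lt' (by norm_num)).2 (by exact_mod_cast h)
  have h2 : Nat.primeCounting ⌊t⌋₊ = 0 := by
    rw [Nat.primeCounting_eq_zero_iff]
    omega
  rw [h2]
  norm_num

theorem P_asymp : Tendsto (fun t : ℝ => P t * log t / t) atTop (𝓝 1) := Helper6.pnt_real

/-- the prime number theorem at `a Y` -/
theorem P_scale (a : ℝ) (ha : 0 < a) : Tendsto (fun Y : ℝ => P (a * Y) * log Y / Y) atTop (𝓝 a) := by
  have h1 : Tendsto (fun Y : ℝ => a * Y) atTop atTop := tendsto_id.const_mul_atTop ha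
  have h2 := P_asymp.comp h1
  have h3 : Tendsto (fun Y : ℝ => log Y / log (a * Y)) atTop (𝓝 1) := by
    have h4 : Tendsto (fun Y : ℝ => 1 + log a / log Y) atTop (𝓝 (1 + 0)) :=
      tendsto_const_nhds.add (tendsto_const_nhds.div_atTop tendsto_log_atTop)
    rw [add_zero] at h4
    have h5 := h4.inv₀ one_ne_zero
    rw [inv_one] at h5
    refine h5.congr' ?_
    filter_upwards [eventually_gt_atTop 1, tendsto_log_atTop.eventually_gt_atTop (|log a|)] with Y hY hl
    have h6 : 0 < log Y := log_pos hY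
    rw [log_mul (by linarith) (by linarith), inv_eq_one_div, div_eq_div_iff]
    · field_simp
      ring
    · have h7 : -|log a| ≤ log a := neg_abs_le _
      have h8 : -log Y < log a := by linarith
      have h9 : -1 < log a / log Y := by
        rw [lt_div_iff₀ h6]
        linarith
      linarith
    · have h7 : -|log a| ≤ log a := neg_abs_le _
      linarith
  have h4 := (h2.mul h3).const_mul a
  rw [mul_one, mul_one] at h4
  refine h4.congr' ?_
  filter_upwards [eventually_gt_atTop 1, eventually_gt_atTop (1 / a)] with Y hY hYa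
  have h5 : 1 < a * Y := by
    rw [div_lt_iff₀ ha] at hYa
    linarith
  have h6 : log (a * Y) ≠ 0 := (log_pos h5).ne'
  simp only [Function.comp]
  field_simp

/-- Chebyshev's upper bound for all `t ≥ 0` -/
theorem P_bound : ∃ C : ℝ, 0 < C ∧ ∀ t : ℝ, 0 ≤ t → P t ≤ C * t / log (2 + t) := by
  refine ⟨4 * log 4 + 4, by have := log_pos (show (1 : ℝ) < 4 by norm_num); positivity, ?_⟩
  intro t ht
  have hl4 := log_pos (show (1 : ℝ) < 4 by norm_num)
  have hpos : 0 < log (2 + t) := log_pos (by linarith)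
  rcases lt_or_ge t 2 with h | h
  · rw [P_zero h]
    positivity
  have h1 := Chebyshev.pi_le_log4_mul_div (x := t) (by linarith)
  have h2 : log √t = log t / 2 := log_sqrt (by linarith)
  have hlt : 0 < log t := log_pos (by linarith)
  have h3 : log (2 + t) ≤ 2 * log t := by
    have h4 : log (2 + t) ≤ log (t ^ 2) := log_le_log (by linarith) (by nlinarith)
    rwa [log_pow] at h4
  have hs : 0 < √t := sqrt_pos.2 (by linarith)
  have h4 : log t ≤ 2 * √t := by
    have h5 := log_le_sub_one_of_pos hs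
    rw [h2] at h5
    linarith
  rw [h2] at h1
  unfold P
  rw [le_div_iff₀ hpos]
  have h5 : (Nat.primeCounting ⌊t⌋₊ : ℝ) * log (2 + t) ≤
      (log 4 * t / (log t / 2) + √t) * log (2 + t) := mul_le_mul_of_nonneg_right h1 hpos.le
  refine h5.trans ?_
  have h6 : log 4 * t / (log t / 2) * log (2 + t) ≤ 4 * log 4 * t := by
    have h7 : log 4 * t / (log t / 2) = 2 * log 4 * t / log t := by field_simp
    rw [h7, div_mul_eq_mul_div, div_le_iff₀ hlt]
    have h8 : 0 ≤ log 4 * t := by positivity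
    nlinarith
  have h7 : √t * log (2 + t) ≤ 4 * t := by
    have h8 : √t * √t = t := mul_self_sqrt (by linarith)
    nlinarith
  linarith

/-- the dominating bound -/
theorem P_dom : ∃ C : ℝ, 0 < C ∧ ∀ (Y : ℝ) (m : ℕ), 1 ≤ Y → 1 ≤ m →
    P (2 * Y / m) * log Y / Y ≤ C * (m : ℝ) ^ (-(1 / 2) : ℝ) := by
  obtain ⟨C, hC, h⟩ := P_bound
  refine ⟨10 * C, by positivity, fun Y m hY hm => ?_⟩
  have hm0 : (0 : ℝ) < m := by exact_mod_cast hm
  have hY0 : 0 < Y := by linarith
  have hlY : 0 ≤ log Y := log_nonneg hY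
  have h1 := h (2 * Y / m) (by positivity)
  have hpos : log 2 ≤ log (2 + 2 * Y / m) := log_le_log (by norm_num) (by
    have : 0 ≤ 2 * Y / m := by positivity
    linarith)
  have hl2 : (1 : ℝ) / 2 < log 2 := by
    have := log_two_gt_d9
    linarith
  have hlp : 0 < log (2 + 2 * Y / m) := by linarith
  have h2 : log Y ≤ log (2 + 2 * Y / m) + log m := by
    rw [← log_mul (by positivity) (by positivity)]
    refine log_le_log hY0 ?_
    have : (2 + 2 * Y / m) * m = 2 * m + 2 * Y := by field_simp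
    rw [this]
    linarith
  have hlm : 0 ≤ log (m : ℝ) := log_nonneg (by exact_mod_cast hm)
  have hs : 0 < √(m : ℝ) := sqrt_pos.2 hm0
  have hs1 : 1 ≤ √(m : ℝ) := by
    rw [show (1 : ℝ) = √1 by simp]
    exact sqrt_le_sqrt (by exact_mod_cast hm)
  have h3 : log (m : ℝ) ≤ 2 * √(m : ℝ) := by
    have h5 := log_le_sub_one_of_pos hs
    rw [log_sqrt hm0.le] at h5
    linarith
  have h4 : (m : ℝ) ^ (-(1 / 2) : ℝ) = √(m : ℝ) / m := by
    rw [sqrt_eq_rpow, eq_div_iff hm0.ne']
    nth_rewrite 2 [← rpow_one (m : ℝ)]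
    rw [← rpow_add hm0]
    norm_num
  rw [h4]
  calc P (2 * Y / m) * log Y / Y ≤ (C * (2 * Y / m) / log (2 + 2 * Y / m)) * log Y / Y :=
        div_le_div_of_nonneg_right (mul_le_mul_of_nonneg_right h1 hlY) hY0.le
    _ = 2 * C / m * (log Y / log (2 + 2 * Y / m)) := by field_simp
    _ ≤ 2 * C / m * (1 + 4 * √(m : ℝ)) := by
        refine mul_le_mul_of_nonneg_left ?_ (by positivity)
        rw [div_le_iff₀ hlp]
        nlinarith
    _ ≤ 2 * C / m * (5 * √(m : ℝ)) := mul_le_mul_of_nonneg_left (by linarith) (by positivity)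
    _ = 10 * C * (√(m : ℝ) / m) := by ring

end Pool.Agent.SPT.T3
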