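import Pool.Agent.SPT.T3A

set_option autoImplicit false

/-!
# SPT / T3B: sums over the numbers composed of finitely many primes
-/

open Filter Real Topology Finset

namespace Pool.Agent.SPT.T3

/-- `n ↦ n^(-1/2)` -/
noncomputable def fh : ℕ →* ℝ where
  toFun n := (n : ℝ) ^ (-(1 / 2) : ℝ)
  map_one' := by simp
  map_mul' a b := by
    push_cast
    rw [mul_rpow (Nat.cast_nonneg _) (Nat.cast_nonneg _)]

/-- `n ↦ 1 / n` -/
noncomputable def fi : ℕ →* ℝ where
  toFun n := 1 / (n : ℝ)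
  map_one' := by simp
  map_mul' a b := by
    push_cast
    rw [one_div_mul_one_div]

theorem fh_apply (n : ℕ) : fh n = (n : ℝ) ^ (-(1 / 2) : ℝ) := rfl

theorem fi_apply (n : ℕ) : fi n = 1 / (n : ℝ) := rfl

theorem summ_half (Q : Finset ℕ) :
    Summable (fun m : Nat.factoredNumbers Q => ((m : ℕ) : ℝ) ^ (-(1 / 2) : ℝ)) := by
  have h := (EulerProduct.summable_and_hasSum_factoredNumbers_prod_filter_prime_geometric
    (f := fh) (by
      intro p hp
      have h1 : (1 : ℝ) < p := by exact_mod_cast hp.one_lt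
      rw [fh_apply, norm_of_nonneg (by positivity)]
      exact rpow_lt_one_of_one_lt_of_neg h1 (by norm_num)) Q).1
  refine h.congr fun m => ?_
  rw [fh_apply, norm_of_nonneg (by positivity)]

/-- the Euler product `∏ (1 - 1/p)⁻¹` -/
noncomputable def PiQ (Q : Finset ℕ) : ℝ := ∏ p ∈ Q.filter Nat.Prime, (1 - 1 / (p : ℝ))⁻¹

theorem sum_inv (Q : Finset ℕ) :
    HasSum (fun m : Nat.factoredNumbers Q => 1 / ((m : ℕ) : ℝ)) (PiQ Q) := by
  have h := (EulerProduct.summable_and_hasSum_factoredNumbers_prod_filter_prime_geometric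
    (f := fi) (by
      intro p hp
      have h1 : (1 : ℝ) < p := by exact_mod_cast hp.one_lt
      rw [fi_apply, norm_of_nonneg (by positivity), div_lt_one (by linarith)]
      exact h1) Q).2
  exact h

theorem one_le_mem {Q : Finset ℕ} (m : Nat.factoredNumbers Q) : 1 ≤ (m : ℕ) :=
  Nat.one_le_iff_ne_zero.2 (Nat.ne_zero_of_mem_factoredNumbers m.2)

/-- the weighted count of the primes in `(Y/m, (1+η) Y/m]` -/
noncomputable def FF (η : ℝ) (m : ℕ) (Y : ℝ) : ℝ := (P ((1 + η) * Y / m) - P (Y / m)) * log Y / Y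

theorem FF_nonneg {η : ℝ} (hη : 0 < η) (m : ℕ) {Y : ℝ} (hY : 1 ≤ Y) : 0 ≤ FF η m Y := by
  unfold FF
  have h1 : P (Y / m) ≤ P ((1 + η) * Y / m) := by
    refine P_mono (div_le_div_of_nonneg_right ?_ (Nat.cast_nonneg _))
    nlinarith
  have h2 : 0 ≤ log Y := log_nonneg hY
  have h3 : 0 ≤ P ((1 + η) * Y / m) - P (Y / m) := by linarith
  positivity

theorem main_conv (Q : Finset ℕ) (η : ℝ) (hη : 0 < η) (hη1 : η ≤ 1) :
    Tendsto (fun Y : ℝ => ∑' m : Nat.factoredNumbers Q, FF η m Y) atTop (𝓝 (η * PiQ Q)) := by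
  obtain ⟨C, hC, hdom⟩ := P_dom
  have h1 : ∀ m : Nat.factoredNumbers Q, Tendsto (fun Y : ℝ => FF η m Y) atTop
      (𝓝 (η * (1 / ((m : ℕ) : ℝ)))) := by
    intro m
    have hm : (0 : ℝ) < (m : ℕ) := by exact_mod_cast one_le_mem m
    have h2 := (P_scale ((1 + η) / (m : ℕ)) (by positivity)).sub
      (P_scale (1 / (m : ℕ)) (by positivity))
    have h3 : (1 + η) / ((m : ℕ) : ℝ) - 1 / ((m : ℕ) : ℝ) = η * (1 / ((m : ℕ) : ℝ)) := by ring
    rw [h3] at h2
    refine h2.congr fun Y => ?_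
    unfold FF
    rw [show (1 + η) / ((m : ℕ) : ℝ) * Y = (1 + η) * Y / (m : ℕ) by ring,
      show 1 / ((m : ℕ) : ℝ) * Y = Y / (m : ℕ) by ring]
    ring
  have h2 := tendsto_tsum_of_dominated_convergence (𝓕 := atTop)
    (f := fun (Y : ℝ) (m : Nat.factoredNumbers Q) => FF η m Y)
    (g := fun m : Nat.factoredNumbers Q => η * (1 / ((m : ℕ) : ℝ)))
    (bound := fun m : Nat.factoredNumbers Q => C * ((m : ℕ) : ℝ) ^ (-(1 / 2) : ℝ))
    ((summ_half Q).mul_left C) h1 (by
      filter_upwards [eventually_ge_atTop 1] with Y hY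
      intro m
      rw [norm_of_nonneg (FF_nonneg hη m hY)]
      refine le_trans ?_ (hdom Y m hY (one_le_mem m))
      unfold FF
      have hlY : 0 ≤ log Y := log_nonneg hY
      refine div_le_div_of_nonneg_right (mul_le_mul_of_nonneg_right ?_ hlY) (by linarith)
      have h3 : P ((1 + η) * Y / (m : ℕ)) ≤ P (2 * Y / (m : ℕ)) :=
        P_mono (div_le_div_of_nonneg_right (by nlinarith) (Nat.cast_nonneg _))
      have h4 := P_nonneg (Y / (m : ℕ))
      linarith)
  rw [tsum_mul_left, (sum_inv Q).tsum_eq] at h2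
  exact h2

end Pool.Agent.SPT.T3
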