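import Pool.Agent.SPT.T3B

set_option autoImplicit false

/-!
# SPT / T3C: counting the numbers in `(N, (1+η) N]` whose prime factors are in `Q` or `> √N / K`
-/

open Filter Real Topology Finset Classical

namespace Pool.Agent.SPT.T3

/-- primes in `(a, b]` -/
theorem card_primes_Ioc (a b : ℕ) (h : a ≤ b) :
    (((Ioc a b).filter Nat.Prime).card : ℝ) = (Nat.primeCounting b : ℝ) - Nat.primeCounting a := by
  have h1 : ((range (b + 1)).filter Nat.Prime).card =
      ((range (a + 1)).filter Nat.Prime).card + ((Ioc a b).filter Nat.Prime).card := by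
    rw [← card_union_of_disjoint]
    · congr 1
      ext p
      simp only [mem_filter, mem_range, mem_union, mem_Ioc]
      constructor
      · rintro ⟨h2, h3⟩
        rcases Nat.lt_or_ge p (a + 1) with h4 | h4
        · exact Or.inl ⟨h4, h3⟩
        · exact Or.inr ⟨⟨by omega, by omega⟩, h3⟩
      · rintro (⟨h2, h3⟩ | ⟨h2, h3⟩)
        · exact ⟨by omega, h3⟩
        · exact ⟨by omega, h3⟩
    · rw [disjoint_left]
      intro p h2 h3
      simp only [mem_filter, mem_range, mem_Ioc] at h2 h3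
      omega
  have h2 : ∀ n, Nat.primeCounting n = ((range (n + 1)).filter Nat.Prime).card := by
    intro n
    rw [Nat.primeCounting, Nat.primeCounting', Nat.count_eq_card_filter_range]
  rw [h2 b, h2 a, h1]
  push_cast
  ring

/-- the survivors of the small primes outside `Q` -/
noncomputable def WW (Q : Finset ℕ) (K : ℕ) (η : ℝ) (N : ℕ) : Finset ℕ :=
  (Ioc N ⌊(1 + η) * N⌋₊).filter
    (fun n => ∀ p : ℕ, p.Prime → p ∣ n → p ∈ Q ∨ N < K ^ 2 * p ^ 2)

/-- the three parts -/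
theorem WW_cases {Q : Finset ℕ} {K : ℕ} {η : ℝ} {N n : ℕ} (hn : n ∈ WW Q K η N) :
    (∃ m ∈ Nat.factoredNumbers Q, ∃ l : ℕ, l.Prime ∧ n = m * l) ∨ n ∈ Nat.factoredNumbers Q ∨
    ∃ m l1 l2 : ℕ, l1.Prime ∧ l2.Prime ∧ N < K ^ 2 * l1 ^ 2 ∧ N < K ^ 2 * l2 ^ 2 ∧
      n = m * l1 * l2 := by
  unfold WW at hn
  rw [mem_filter, mem_Ioc] at hn
  obtain ⟨⟨h1, h2⟩, h3⟩ := hn
  by_cases hall : ∀ p : ℕ, p.Prime → p ∣ n → p ∈ Q
  · exact Or.inr (Or.inl (Nat.mem_factoredNumbers'.2 hall))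
  push Not at hall
  obtain ⟨l1, hl1, hd1, hq1⟩ := hall
  obtain ⟨m1, hm1⟩ := hd1
  have hN1 : N < K ^ 2 * l1 ^ 2 := by
    rcases h3 l1 hl1 ⟨m1, hm1⟩ with h | h
    · exact absurd h hq1
    · exact h
  by_cases hall2 : ∀ p : ℕ, p.Prime → p ∣ m1 → p ∈ Q
  · exact Or.inl ⟨m1, Nat.mem_factoredNumbers'.2 hall2, l1, hl1, by rw [hm1, mul_comm]⟩
  push Not at hall2
  obtain ⟨l2, hl2, hd2, hq2⟩ := hall2
  obtain ⟨m, hm⟩ := hd2
  have hN2 : N < K ^ 2 * l2 ^ 2 := by
    rcases h3 l2 hl2 ⟨l1 * m, by rw [hm1, hm]; ring⟩ with h | h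
    · exact absurd h hq2
    · exact h
  exact Or.inr (Or.inr ⟨m, l1, l2, hl1, hl2, hN1, hN2, by rw [hm1, hm]; ring⟩)

/-- first part -/
theorem count1 (Q : Finset ℕ) (η : ℝ) (hη : 0 < η) (hη1 : η ≤ 1) (N : ℕ) (hN : 1 ≤ N)
    (hs : Summable (fun m : Nat.factoredNumbers Q => FF η m N)) :
    (((Ioc N ⌊(1 + η) * N⌋₊).filter
      (fun n => ∃ m ∈ Nat.factoredNumbers Q, ∃ l : ℕ, l.Prime ∧ n = m * l)).card : ℝ) *
        log N / N ≤ ∑' m : Nat.factoredNumbers Q, FF η m N := by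
  have hNR : (1 : ℝ) ≤ N := by exact_mod_cast hN
  have hN0 : (0 : ℝ) < N := by linarith
  have hlog : 0 ≤ log (N : ℝ) := log_nonneg hNR
  obtain ⟨M, hM⟩ : ∃ M : Finset ℕ, M = (Icc 1 (2 * N)).filter (fun m => m ∈ Nat.factoredNumbers Q) :=
    ⟨_, rfl⟩
  have hsub : (Ioc N ⌊(1 + η) * N⌋₊).filter
      (fun n => ∃ m ∈ Nat.factoredNumbers Q, ∃ l : ℕ, l.Prime ∧ n = m * l) ⊆
      M.biUnion (fun m => ((Ioc ⌊(N : ℝ) / m⌋₊ ⌊(1 + η) * N / m⌋₊).filter Nat.Prime).image
        (fun l => m * l)) := by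
    intro n hn
    rw [mem_filter, mem_Ioc] at hn
    obtain ⟨⟨h1, h2⟩, m, hm, l, hl, hnl⟩ := hn
    have hm1 : 1 ≤ m := Nat.one_le_iff_ne_zero.2 (Nat.ne_zero_of_mem_factoredNumbers hm)
    have hm0 : (0 : ℝ) < m := by exact_mod_cast hm1
    have h3 : (n : ℝ) ≤ (1 + η) * N := (Nat.le_floor_iff (by positivity)).1 h2
    have h4 : (N : ℝ) < n := by exact_mod_cast h1
    have hnR : (n : ℝ) = m * l := by exact_mod_cast hnl
    rw [mem_biUnion]
    refine ⟨m, ?_, ?_⟩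
    · rw [hM, mem_filter, mem_Icc]
      refine ⟨⟨hm1, ?_⟩, hm⟩
      have h5 : (m : ℝ) ≤ n := by
        rw [hnR]
        have : (1 : ℝ) ≤ l := by exact_mod_cast hl.one_lt.le
        nlinarith
      have h6 : (m : ℝ) ≤ ((2 * N : ℕ) : ℝ) := by
        push_cast
        nlinarith
      exact_mod_cast h6
    · rw [mem_image]
      refine ⟨l, mem_filter.2 ⟨mem_Ioc.2 ⟨?_, ?_⟩, hl⟩, hnl.symm⟩
      · rw [Nat.floor_lt (by positivity), div_lt_iff₀ hm0]
        nlinarith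
      · rw [Nat.le_floor_iff (by positivity), le_div_iff₀ hm0]
        nlinarith
  have hcard : (((Ioc N ⌊(1 + η) * N⌋₊).filter
      (fun n => ∃ m ∈ Nat.factoredNumbers Q, ∃ l : ℕ, l.Prime ∧ n = m * l)).card : ℝ) ≤
      ∑ m ∈ M, (P ((1 + η) * N / m) - P ((N : ℝ) / m)) := by
    have h1 := (card_le_card hsub).trans card_biUnion_le
    have h2 : (((Ioc N ⌊(1 + η) * N⌋₊).filter
      (fun n => ∃ m ∈ Nat.factoredNumbers Q, ∃ l : ℕ, l.Prime ∧ n = m * l)).card : ℝ) ≤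
      ∑ m ∈ M, ((((Ioc ⌊(N : ℝ) / m⌋₊ ⌊(1 + η) * N / m⌋₊).filter Nat.Prime).image
        (fun l => m * l)).card : ℝ) := by exact_mod_cast h1
    refine h2.trans (sum_le_sum fun m _ => ?_)
    have h3 : ((((Ioc ⌊(N : ℝ) / m⌋₊ ⌊(1 + η) * N / m⌋₊).filter Nat.Prime).image
        (fun l => m * l)).card : ℝ) ≤
        ((Ioc ⌊(N : ℝ) / m⌋₊ ⌊(1 + η) * N / m⌋₊).filter Nat.Prime).card := by
      exact_mod_cast card_image_le
    refine h3.trans (le_of_eq ?_)
    rw [card_primes_Ioc _ _ (Nat.floor_le_floor (div_le_div_of_nonneg_right (by nlinarith)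
      (Nat.cast_nonneg _)))]
    rfl
  calc _ ≤ (∑ m ∈ M, (P ((1 + η) * N / m) - P ((N : ℝ) / m))) * log N / N :=
        div_le_div_of_nonneg_right (mul_le_mul_of_nonneg_right hcard hlog) hN0.le
    _ = ∑ m ∈ M, FF η m N := by
        unfold FF
        rw [Finset.sum_mul, Finset.sum_div]
    _ = ∑ m ∈ M.subtype (fun m => m ∈ Nat.factoredNumbers Q), FF η m N := by
        rw [Finset.sum_subtype_of_mem (f := fun m : ℕ => FF η m N)]
        intro m hm
        rw [hM, mem_filter] at hm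
        exact hm.2
    _ ≤ _ := hs.sum_le_tsum _ fun m _ => FF_nonneg hη m hNR

/-- second part -/
theorem count2 (Q : Finset ℕ) (δ : ℝ) (hδ : 0 < δ) : ∀ᶠ N : ℕ in atTop,
    (((Icc 1 (2 * N)).filter (fun n => n ∈ Nat.factoredNumbers Q)).card : ℝ) * log N / N ≤ δ := by
  obtain ⟨s, hs⟩ : ∃ s : ℝ, s = ∑' m : Nat.factoredNumbers Q, ((m : ℕ) : ℝ) ^ (-(1 / 2) : ℝ) :=
    ⟨_, rfl⟩
  have hs0 : 0 ≤ s := by
    rw [hs]
    exact tsum_nonneg fun m => by positivity
  have e : ∀ᶠ x : ℝ in atTop, √2 * s * (log x / √x) ≤ δ := by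
    have h1 : Tendsto (fun x : ℝ => log x / √x) atTop (𝓝 0) := by
      have h2 := (isLittleO_log_rpow_atTop (show (0 : ℝ) < 1 / 2 by norm_num)).tendsto_div_nhds_zero
      refine h2.congr fun x => ?_
      rw [sqrt_eq_rpow]
    have h2 := h1.const_mul (√2 * s)
    rw [mul_zero] at h2
    filter_upwards [h2.eventually_lt_const hδ] with x hx
    exact hx.le
  filter_upwards [tendsto_natCast_atTop_atTop.eventually e, eventually_ge_atTop 1] with N hN hN1
  refine le_trans ?_ hN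
  have hNR : (1 : ℝ) ≤ N := by exact_mod_cast hN1
  have hN0 : (0 : ℝ) < N := by linarith
  have hlog : 0 ≤ log (N : ℝ) := log_nonneg hNR
  have hsN : 0 < √(N : ℝ) := sqrt_pos.2 hN0
  have hcard : (((Icc 1 (2 * N)).filter (fun n => n ∈ Nat.factoredNumbers Q)).card : ℝ) ≤
      √2 * √(N : ℝ) * s := by
    have h1 : ∑ n ∈ (Icc 1 (2 * N)).filter (fun n => n ∈ Nat.factoredNumbers Q),
        (n : ℝ) ^ (-(1 / 2) : ℝ) ≤ s := by
      rw [hs]
      have h2 := (summ_half Q).sum_le_tsum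
        (((Icc 1 (2 * N)).filter (fun n => n ∈ Nat.factoredNumbers Q)).subtype
          (fun m => m ∈ Nat.factoredNumbers Q)) fun m _ => by positivity
      rw [Finset.sum_subtype_of_mem (f := fun m : ℕ => (m : ℝ) ^ (-(1 / 2) : ℝ))] at h2
      · exact h2
      · intro m hm
        exact (mem_filter.1 hm).2
    have h2 : ∀ n ∈ (Icc 1 (2 * N)).filter (fun n => n ∈ Nat.factoredNumbers Q),
        (√2 * √(N : ℝ))⁻¹ ≤ (n : ℝ) ^ (-(1 / 2) : ℝ) := by
      intro n hn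
      rw [mem_filter, mem_Icc] at hn
      have hn0 : (0 : ℝ) < n := by exact_mod_cast hn.1.1
      rw [rpow_neg hn0.le, ← sqrt_eq_rpow, ← sqrt_mul (by norm_num)]
      refine inv_anti₀ (sqrt_pos.2 hn0) (sqrt_le_sqrt ?_)
      exact_mod_cast hn.1.2
    have h3 := (card_nsmul_le_sum _ _ _ h2).trans h1
    rw [nsmul_eq_mul, ← div_eq_mul_inv, div_le_iff₀ (by positivity)] at h3
    linarith
  calc _ ≤ √2 * √(N : ℝ) * s * log N / N :=
        div_le_div_of_nonneg_right (mul_le_mul_of_nonneg_right hcard hlog) hN0.le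
    _ = √2 * s * (log N / √(N : ℝ)) := by
        have h5 : √(N : ℝ) * √(N : ℝ) = N := mul_self_sqrt hN0.le
        have h6 : √(N : ℝ) / N = 1 / √(N : ℝ) := by
          rw [div_eq_div_iff hN0.ne' hsN.ne']
          linarith
        calc √2 * √(N : ℝ) * s * log N / N = √2 * s * (log N * (√(N : ℝ) / N)) := by ring
          _ = √2 * s * (log N / √(N : ℝ)) := by rw [h6]; ring

/-- third part -/
theorem count3 (K : ℕ) (δ : ℝ) (hδ : 0 < δ) : ∀ᶠ N : ℕ in atTop,
    (((Icc 1 (2 * N)).filter (fun n => ∃ m l1 l2 : ℕ, l1.Prime ∧ l2.Prime ∧ N < K ^ 2 * l1 ^ 2 ∧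
      N < K ^ 2 * l2 ^ 2 ∧ n = m * l1 * l2)).card : ℝ) * log N / N ≤ δ := by
  obtain ⟨C, hC, hP⟩ := P_bound
  have e : ∀ᶠ x : ℝ in atTop, (2 * (K : ℝ) ^ 2 + 1) * (4 * C * K) ^ 2 / log x ≤ δ := by
    have h1 : Tendsto (fun x : ℝ => (2 * (K : ℝ) ^ 2 + 1) * (4 * C * K) ^ 2 / log x) atTop (𝓝 0) :=
      tendsto_const_nhds.div_atTop tendsto_log_atTop
    filter_upwards [h1.eventually_lt_const hδ] with x hx
    exact hx.le
  filter_upwards [tendsto_natCast_atTop_atTop.eventually e, eventually_ge_atTop 2] with N hN hN2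
  refine le_trans ?_ hN
  have hNR : (2 : ℝ) ≤ N := by exact_mod_cast hN2
  have hN0 : (0 : ℝ) < N := by linarith
  have hlog : 0 < log (N : ℝ) := log_pos (by linarith)
  have hsN : 0 < √(N : ℝ) := sqrt_pos.2 hN0
  have hsq : √(N : ℝ) * √(N : ℝ) = N := mul_self_sqrt hN0.le
  obtain ⟨t, ht⟩ : ∃ t : ℝ, t = 2 * K * √(N : ℝ) := ⟨_, rfl⟩
  have ht0 : 0 ≤ t := by rw [ht]; positivity
  have hsub : (Icc 1 (2 * N)).filter (fun n => ∃ m l1 l2 : ℕ, l1.Prime ∧ l2.Prime ∧
      N < K ^ 2 * l1 ^ 2 ∧ N < K ^ 2 * l2 ^ 2 ∧ n = m * l1 * l2) ⊆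
      ((range (2 * K ^ 2 + 1)) ×ˢ (((range (⌊t⌋₊ + 1)).filter Nat.Prime) ×ˢ
        ((range (⌊t⌋₊ + 1)).filter Nat.Prime))).image (fun v => v.1 * v.2.1 * v.2.2) := by
    intro n hn
    rw [mem_filter, mem_Icc] at hn
    obtain ⟨⟨h1, h2⟩, m, l1, l2, hl1, hl2, h3, h4, hnl⟩ := hn
    have hm1 : 1 ≤ m := by
      rcases Nat.eq_zero_or_pos m with h0 | h0
      · rw [h0] at hnl
        simp at hnl
        omega
      · exact h0
    have hnR : (n : ℝ) = m * l1 * l2 := by exact_mod_cast hnl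
    have h2R : (n : ℝ) ≤ 2 * N := by exact_mod_cast h2
    have hl10 : (0 : ℝ) < l1 := by exact_mod_cast hl1.pos
    have hl20 : (0 : ℝ) < l2 := by exact_mod_cast hl2.pos
    have hmR : (1 : ℝ) ≤ m := by exact_mod_cast hm1
    have h5 : √(N : ℝ) < K * l1 := by
      rw [sqrt_lt' ?_]
      · have : (N : ℝ) < (K : ℝ) ^ 2 * l1 ^ 2 := by exact_mod_cast h3
        rw [mul_pow]
        exact this
      · by_contra hcon
        push Not at hcon
        have hK0 : (K : ℝ) = 0 := by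
          have : (0 : ℝ) ≤ K := Nat.cast_nonneg _
          by_contra hne
          have : 0 < (K : ℝ) := lt_of_le_of_ne this (Ne.symm hne)
          nlinarith
        have : K = 0 := by exact_mod_cast hK0
        rw [this] at h3
        simp at h3
    have h6 : √(N : ℝ) < K * l2 := by
      rw [sqrt_lt' ?_]
      · have : (N : ℝ) < (K : ℝ) ^ 2 * l2 ^ 2 := by exact_mod_cast h4
        rw [mul_pow]
        exact this
      · nlinarith [Nat.cast_nonneg (α := ℝ) K]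
    have hK0 : (0 : ℝ) < K := by
      by_contra hcon
      push Not at hcon
      nlinarith
    have h12 : (l1 : ℝ) * l2 ≤ 2 * N := by
      calc (l1 : ℝ) * l2 = 1 * (l1 * l2) := by ring
        _ ≤ m * (l1 * l2) := mul_le_mul_of_nonneg_right hmR (by positivity)
        _ = n := by rw [hnR]; ring
        _ ≤ 2 * N := h2R
    rw [mem_image]
    refine ⟨(m, l1, l2), ?_, hnl.symm⟩
    rw [mem_product, mem_product, mem_filter, mem_filter, mem_range, mem_range, mem_range]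
    refine ⟨?_, ⟨?_, hl1⟩, ⟨?_, hl2⟩⟩
    · -- `m ≤ 2 K²`
      have h7 : (N : ℝ) < K ^ 2 * (l1 * l2) := by
        calc (N : ℝ) = √(N : ℝ) * √(N : ℝ) := hsq.symm
          _ < (K * l1) * (K * l2) := mul_lt_mul'' h5 h6 hsN.le hsN.le
          _ = _ := by ring
      have h8 : (m : ℝ) < 2 * K ^ 2 := by
        have h9 : (m : ℝ) * (l1 * l2) < 2 * K ^ 2 * (l1 * l2) := by
          calc (m : ℝ) * (l1 * l2) = n := by rw [hnR]; ring
            _ ≤ 2 * N := h2R
            _ < 2 * (K ^ 2 * (l1 * l2)) := by linarith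
            _ = _ := by ring
        exact lt_of_mul_lt_mul_right h9 (by positivity)
      have h9 : m < 2 * K ^ 2 := by exact_mod_cast h8
      show m < 2 * K ^ 2 + 1
      omega
    · show l1 < ⌊t⌋₊ + 1
      have h7 : (l1 : ℝ) ≤ t := by
        rw [ht]
        have h8 : (l1 : ℝ) * √(N : ℝ) ≤ 2 * K * √(N : ℝ) * √(N : ℝ) := by
          calc (l1 : ℝ) * √(N : ℝ) ≤ l1 * (K * l2) := mul_le_mul_of_nonneg_left h6.le hl10.le
            _ = K * (l1 * l2) := by ring
            _ ≤ K * (2 * N) := mul_le_mul_of_nonneg_left h12 hK0.le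
            _ = 2 * K * √(N : ℝ) * √(N : ℝ) := by rw [mul_assoc (2 * (K : ℝ)), hsq]; ring
        exact le_of_mul_le_mul_right h8 hsN
      have := Nat.le_floor h7
      omega
    · show l2 < ⌊t⌋₊ + 1
      have h7 : (l2 : ℝ) ≤ t := by
        rw [ht]
        have h8 : (l2 : ℝ) * √(N : ℝ) ≤ 2 * K * √(N : ℝ) * √(N : ℝ) := by
          calc (l2 : ℝ) * √(N : ℝ) ≤ l2 * (K * l1) := mul_le_mul_of_nonneg_left h5.le hl20.le
            _ = K * (l1 * l2) := by ring
            _ ≤ K * (2 * N) := mul_le_mul_of_nonneg_left h12 hK0.le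
            _ = 2 * K * √(N : ℝ) * √(N : ℝ) := by rw [mul_assoc (2 * (K : ℝ)), hsq]; ring
        exact le_of_mul_le_mul_right h8 hsN
      have := Nat.le_floor h7
      omega
  have hcard : (((Icc 1 (2 * N)).filter (fun n => ∃ m l1 l2 : ℕ, l1.Prime ∧ l2.Prime ∧
      N < K ^ 2 * l1 ^ 2 ∧ N < K ^ 2 * l2 ^ 2 ∧ n = m * l1 * l2)).card : ℝ) ≤
      (2 * (K : ℝ) ^ 2 + 1) * (P t * P t) := by
    have h1 := (card_le_card hsub).trans card_image_le
    rw [card_product, card_product, card_range] at h1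
    have h2 : ((range (⌊t⌋₊ + 1)).filter Nat.Prime).card = Nat.primeCounting ⌊t⌋₊ := by
      rw [Nat.primeCounting, Nat.primeCounting', Nat.count_eq_card_filter_range]
    rw [h2] at h1
    unfold P
    exact_mod_cast h1
  have hPt : P t ≤ 4 * C * K * √(N : ℝ) / log N := by
    have h1 := hP t ht0
    refine h1.trans ?_
    rcases Nat.eq_zero_or_pos K with hK | hK
    · rw [ht, hK]
      simp
    have hK1 : (1 : ℝ) ≤ K := by exact_mod_cast hK
    have h2 : log N / 2 ≤ log (2 + t) := by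
      rw [← log_sqrt hN0.le]
      refine log_le_log hsN ?_
      rw [ht]
      nlinarith
    calc C * t / log (2 + t) ≤ C * t / (log N / 2) :=
          div_le_div_of_nonneg_left (by positivity) (by positivity) h2
      _ = 4 * C * K * √(N : ℝ) / log N := by
          rw [ht]
          field_simp
          ring
  calc _ ≤ (2 * (K : ℝ) ^ 2 + 1) * (P t * P t) * log N / N :=
        div_le_div_of_nonneg_right (mul_le_mul_of_nonneg_right hcard hlog.le) hN0.le
    _ ≤ (2 * (K : ℝ) ^ 2 + 1) * ((4 * C * K * √(N : ℝ) / log N) * (4 * C * K * √(N : ℝ) / log N)) *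
        log N / N := by
        refine div_le_div_of_nonneg_right (mul_le_mul_of_nonneg_right
          (mul_le_mul_of_nonneg_left ?_ (by positivity)) hlog.le) hN0.le
        exact mul_le_mul hPt hPt (P_nonneg t) (by positivity)
    _ = (2 * (K : ℝ) ^ 2 + 1) * (4 * C * K) ^ 2 / log N := by
        have h5 : (√(N : ℝ)) ^ 2 = N := sq_sqrt hN0.le
        field_simp
        rw [h5]

end Pool.Agent.SPT.T3
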