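import Pool.Agent.SPT.T3C

set_option autoImplicit false

/-!
# SPT / T3D: survivors and killers
-/

open Filter Real Topology Finset Classical

namespace Pool.Agent.SPT.T3

theorem FF_summable (Q : Finset ℕ) (η : ℝ) (hη : 0 < η) (hη1 : η ≤ 1) (Y : ℝ) (hY : 1 ≤ Y) :
    Summable (fun m : Nat.factoredNumbers Q => FF η m Y) := by
  obtain ⟨C, hC, hdom⟩ := P_dom
  refine Summable.of_nonneg_of_le (fun m => FF_nonneg hη m hY) (fun m => ?_)
    ((summ_half Q).mul_left C)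
  refine le_trans ?_ (hdom Y m hY (one_le_mem m))
  unfold FF
  have hlY : 0 ≤ log Y := log_nonneg hY
  refine div_le_div_of_nonneg_right (mul_le_mul_of_nonneg_right ?_ hlY) (by linarith)
  have h3 : P ((1 + η) * Y / (m : ℕ)) ≤ P (2 * Y / (m : ℕ)) :=
    P_mono (div_le_div_of_nonneg_right (by nlinarith) (Nat.cast_nonneg _))
  have h4 := P_nonneg (Y / (m : ℕ))
  linarith

theorem WW_count (Q : Finset ℕ) (K : ℕ) (η : ℝ) (hη : 0 < η) (hη1 : η ≤ 1) (δ : ℝ) (hδ : 0 < δ) :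
    ∀ᶠ N : ℕ in atTop, ((WW Q K η N).card : ℝ) * log N / N ≤ η * PiQ Q + δ := by
  have h1 := ((main_conv Q η hη hη1).comp tendsto_natCast_atTop_atTop).eventually_lt_const
    (u := η * PiQ Q + δ / 3) (by linarith)
  filter_upwards [h1, count2 Q (δ / 3) (by linarith), count3 K (δ / 3) (by linarith),
    eventually_ge_atTop 1] with N h1 h2 h3 hN
  have hNR : (1 : ℝ) ≤ N := by exact_mod_cast hN
  have hN0 : (0 : ℝ) < N := by linarith
  have hlog : 0 ≤ log (N : ℝ) := log_nonneg hNR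
  simp only [Function.comp] at h1
  have h4 := count1 Q η hη hη1 N hN (FF_summable Q η hη hη1 N hNR)
  have hsub : WW Q K η N ⊆ ((Ioc N ⌊(1 + η) * N⌋₊).filter
      (fun n => ∃ m ∈ Nat.factoredNumbers Q, ∃ l : ℕ, l.Prime ∧ n = m * l)) ∪
      (((Icc 1 (2 * N)).filter (fun n => n ∈ Nat.factoredNumbers Q)) ∪
      ((Icc 1 (2 * N)).filter (fun n => ∃ m l1 l2 : ℕ, l1.Prime ∧ l2.Prime ∧ N < K ^ 2 * l1 ^ 2 ∧
      N < K ^ 2 * l2 ^ 2 ∧ n = m * l1 * l2))) := by
    intro n hn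
    have h5 := WW_cases hn
    unfold WW at hn
    have h6 := (mem_filter.1 hn).1
    have h7 := mem_Ioc.1 h6
    have h8 : n ≤ 2 * N := by
      have h9 : (n : ℝ) ≤ (1 + η) * N := (Nat.le_floor_iff (by positivity)).1 h7.2
      have h10 : (n : ℝ) ≤ ((2 * N : ℕ) : ℝ) := by
        push_cast
        nlinarith
      exact_mod_cast h10
    have h9 : n ∈ Icc 1 (2 * N) := mem_Icc.2 ⟨by omega, h8⟩
    rw [mem_union, mem_union, mem_filter, mem_filter, mem_filter]
    rcases h5 with h5 | h5 | h5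
    · exact Or.inl ⟨h6, h5⟩
    · exact Or.inr (Or.inl ⟨h9, h5⟩)
    · exact Or.inr (Or.inr ⟨h9, h5⟩)
  have h5 : ((WW Q K η N).card : ℝ) ≤ (((Ioc N ⌊(1 + η) * N⌋₊).filter
      (fun n => ∃ m ∈ Nat.factoredNumbers Q, ∃ l : ℕ, l.Prime ∧ n = m * l)).card : ℝ) +
      ((((Icc 1 (2 * N)).filter (fun n => n ∈ Nat.factoredNumbers Q)).card : ℝ) +
      (((Icc 1 (2 * N)).filter (fun n => ∃ m l1 l2 : ℕ, l1.Prime ∧ l2.Prime ∧ N < K ^ 2 * l1 ^ 2 ∧
      N < K ^ 2 * l2 ^ 2 ∧ n = m * l1 * l2)).card : ℝ)) := by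
    have h6 := (card_le_card hsub).trans ((card_union_le _ _).trans
      (Nat.add_le_add_left (card_union_le _ _) _))
    exact_mod_cast h6
  calc ((WW Q K η N).card : ℝ) * log N / N ≤ _ :=
        div_le_div_of_nonneg_right (mul_le_mul_of_nonneg_right h5 hlog) hN0.le
    _ = (((Ioc N ⌊(1 + η) * N⌋₊).filter
      (fun n => ∃ m ∈ Nat.factoredNumbers Q, ∃ l : ℕ, l.Prime ∧ n = m * l)).card : ℝ) * log N / N +
      ((((Icc 1 (2 * N)).filter (fun n => n ∈ Nat.factoredNumbers Q)).card : ℝ) * log N / N +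
      (((Icc 1 (2 * N)).filter (fun n => ∃ m l1 l2 : ℕ, l1.Prime ∧ l2.Prime ∧ N < K ^ 2 * l1 ^ 2 ∧
      N < K ^ 2 * l2 ^ 2 ∧ n = m * l1 * l2)).card : ℝ) * log N / N) := by ring
    _ ≤ η * PiQ Q + δ := by linarith

/-- the killers -/
noncomputable def DD (K N : ℕ) : Finset ℕ :=
  (Icc 1 (Nat.sqrt N)).filter (fun p => p.Prime ∧ N < K ^ 2 * p ^ 2)

theorem DD_count (K : ℕ) (hK : 1 ≤ K) (c : ℝ) (hc : c < 1 - 1 / K) : ∀ᶠ N : ℕ in atTop,
    c * (2 * √(N : ℝ) / log N) ≤ ((DD K N).card : ℝ) := by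
  have hKR : (1 : ℝ) ≤ K := by exact_mod_cast hK
  have hs : Tendsto (fun N : ℕ => √(N : ℝ)) atTop atTop :=
    tendsto_sqrt_atTop.comp tendsto_natCast_atTop_atTop
  have h1 : Tendsto (fun N : ℕ => P (1 * √(N : ℝ)) * log √(N : ℝ) / √(N : ℝ) -
      P (1 / K * √(N : ℝ)) * log √(N : ℝ) / √(N : ℝ)) atTop (𝓝 (1 - 1 / K)) :=
    ((P_scale 1 one_pos).sub (P_scale (1 / K) (by positivity))).comp hs
  filter_upwards [h1.eventually_const_lt hc, eventually_ge_atTop 2] with N h1 hN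
  have hNR : (2 : ℝ) ≤ N := by exact_mod_cast hN
  have hN0 : (0 : ℝ) < N := by linarith
  have hlog : 0 < log (N : ℝ) := log_pos (by linarith)
  have hsN : 0 < √(N : ℝ) := sqrt_pos.2 hN0
  rw [log_sqrt hN0.le, one_mul] at h1
  have h2 : c * (2 * √(N : ℝ) / log N) ≤ P √(N : ℝ) - P (1 / K * √(N : ℝ)) := by
    have h3 : P √(N : ℝ) * (log N / 2) / √(N : ℝ) - P (1 / K * √(N : ℝ)) * (log N / 2) / √(N : ℝ) =
        (P √(N : ℝ) - P (1 / K * √(N : ℝ))) * (log N / (2 * √(N : ℝ))) := by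
      field_simp
    rw [h3] at h1
    have h4 : c * (2 * √(N : ℝ) / log N) =
        c * (log N / (2 * √(N : ℝ)))⁻¹ := by rw [inv_div]
    rw [h4, mul_inv_le_iff₀ (by positivity)]
    exact h1.le
  refine h2.trans ?_
  -- the cardinality
  have h3 : ((range (Nat.sqrt N + 1)).filter Nat.Prime) ⊆
      DD K N ∪ (range (⌊1 / K * √(N : ℝ)⌋₊ + 1)).filter Nat.Prime := by
    intro p hp
    rw [mem_filter, mem_range] at hp
    rw [mem_union, DD, mem_filter, mem_filter, mem_Icc, mem_range]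
    rcases lt_or_ge N (K ^ 2 * p ^ 2) with h4 | h4
    · exact Or.inl ⟨⟨hp.2.one_lt.le, by omega⟩, hp.2, h4⟩
    · refine Or.inr ⟨?_, hp.2⟩
      have h5 : (K : ℝ) * p ≤ √(N : ℝ) := by
        refine le_sqrt_of_sq_le ?_
        rw [mul_pow]
        exact_mod_cast h4
      have h6 : (p : ℝ) ≤ 1 / K * √(N : ℝ) := by
        rw [div_mul_eq_mul_div, one_mul, le_div_iff₀ (by linarith)]
        linarith
      have := Nat.le_floor h6
      omega
  have h4 := (card_le_card h3).trans (card_union_le _ _)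
  have h5 : ∀ n, ((range (n + 1)).filter Nat.Prime).card = Nat.primeCounting n := by
    intro n
    rw [Nat.primeCounting, Nat.primeCounting', Nat.count_eq_card_filter_range]
  rw [h5, h5] at h4
  have h6 : (Nat.primeCounting (Nat.sqrt N) : ℝ) ≤ (DD K N).card +
      Nat.primeCounting ⌊1 / K * √(N : ℝ)⌋₊ := by exact_mod_cast h4
  have h7 : P √(N : ℝ) = Nat.primeCounting (Nat.sqrt N) := by
    unfold P
    rw [Real.nat_floor_real_sqrt_eq_nat_sqrt]
  rw [h7]
  unfold P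
  linarith

theorem DD_sum (K : ℕ) (hK : 1 ≤ K) (s : ℝ) (hs : 0 < s) : ∀ᶠ N : ℕ in atTop,
    ∑ p ∈ DD K N, 1 / (p : ℝ) ≤ s := by
  have hKR : (1 : ℝ) ≤ K := by exact_mod_cast hK
  have hsq : Tendsto (fun N : ℕ => √(N : ℝ)) atTop atTop :=
    tendsto_sqrt_atTop.comp tendsto_natCast_atTop_atTop
  have h1 : Tendsto (fun Y : ℝ => P (1 * Y) / Y) atTop (𝓝 0) := by
    have h2 := (P_scale 1 one_pos).mul tendsto_log_atTop.inv_tendsto_atTop
    rw [mul_zero] at h2
    refine h2.congr' ?_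
    filter_upwards [eventually_gt_atTop 1] with Y hY
    have : log Y ≠ 0 := (log_pos hY).ne'
    simp only [Pi.inv_apply]
    field_simp
  have h2 := ((h1.comp hsq).mul_const (K : ℝ))
  rw [zero_mul] at h2
  filter_upwards [h2.eventually_lt_const hs, eventually_ge_atTop 1] with N h2 hN
  have hN0 : (0 : ℝ) < N := by exact_mod_cast hN
  have hsN : 0 < √(N : ℝ) := sqrt_pos.2 hN0
  simp only [Function.comp, one_mul] at h2
  refine le_trans ?_ h2.le
  have h3 : ∀ p ∈ DD K N, 1 / (p : ℝ) ≤ K / √(N : ℝ) := by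
    intro p hp
    rw [DD, mem_filter] at hp
    have hp0 : (0 : ℝ) < p := by exact_mod_cast hp.2.1.pos
    rw [div_le_div_iff₀ hp0 hsN, one_mul]
    refine sqrt_le_iff.2 ⟨by positivity, ?_⟩
    rw [mul_pow]
    exact_mod_cast hp.2.2.le
  refine (sum_le_card_nsmul _ _ _ h3).trans ?_
  rw [nsmul_eq_mul]
  have h4 : ((DD K N).card : ℝ) ≤ P √(N : ℝ) := by
    unfold P
    rw [Real.nat_floor_real_sqrt_eq_nat_sqrt]
    have h5 : DD K N ⊆ (range (Nat.sqrt N + 1)).filter Nat.Prime := by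
      intro p hp
      rw [DD, mem_filter, mem_Icc] at hp
      exact mem_filter.2 ⟨mem_range.2 (by omega), hp.2.1⟩
    have h6 := card_le_card h5
    rw [← Nat.count_eq_card_filter_range] at h6
    exact_mod_cast h6
  calc ((DD K N).card : ℝ) * (K / √(N : ℝ)) ≤ P √(N : ℝ) * (K / √(N : ℝ)) :=
        mul_le_mul_of_nonneg_right h4 (by positivity)
    _ = P √(N : ℝ) / √(N : ℝ) * K := by ring

/-- one stage: an interval with fewer survivors than killers -/
theorem stage (Q : Finset ℕ) (K : ℕ) (hK : 1 ≤ K) (η lam : ℝ) (hη : 0 < η) (hη1 : η ≤ 1)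
    (hlam : 0 < lam) (hcond : PiQ Q * (lam * √(1 + η)) < 2 * (1 - 1 / K)) :
    ∀ᶠ N : ℕ in atTop, ∃ (X : ℝ) (V : Finset ℕ), (N : ℝ) ≤ X ∧ V.card ≤ (DD K N).card ∧
      ∀ n : ℕ, X < n → (n : ℝ) < X + lam * √X →
        n ∈ V ∨ ∃ p : ℕ, p.Prime ∧ p ∣ n ∧ p ∉ Q ∧ K ^ 2 * p ^ 2 ≤ N := by
  obtain ⟨A, hA⟩ : ∃ A, A = lam * √(1 + η) := ⟨_, rfl⟩
  have hA0 : 0 < A := by rw [hA]; exact mul_pos hlam (sqrt_pos.2 (by linarith))
  rw [← hA] at hcond
  have hPi0 : 0 ≤ PiQ Q := (sum_inv Q).nonneg fun m => by positivity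
  obtain ⟨c, hc1, hc2⟩ : ∃ c : ℝ, PiQ Q * A / 2 < c ∧ c < 1 - 1 / K := exists_between (by linarith)
  have hc0 : 0 < c := lt_of_le_of_lt (by positivity) hc1
  obtain ⟨δ, hδ⟩ : ∃ δ, δ = η * (2 * c - PiQ Q * A) / (2 * A) := ⟨_, rfl⟩
  have hδ0 : 0 < δ := by
    rw [hδ]
    have : 0 < 2 * c - PiQ Q * A := by linarith
    positivity
  obtain ⟨θ, hθ⟩ : ∃ θ, θ = (2 * c + PiQ Q * A) / (4 * c) := ⟨_, rfl⟩
  have hθ0 : 0 < θ := by rw [hθ]; positivity
  have hθ1 : θ < 1 := by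
    rw [hθ, div_lt_one (by positivity)]
    linarith
  have hs : Tendsto (fun N : ℕ => √(N : ℝ)) atTop atTop :=
    tendsto_sqrt_atTop.comp tendsto_natCast_atTop_atTop
  filter_upwards [WW_count Q K η hη hη1 δ hδ0, DD_count K hK c hc2, eventually_ge_atTop 2,
    hs.eventually_ge_atTop (A / (η * (1 - θ)))] with N h1 h2 hN h3
  have hNR : (2 : ℝ) ≤ N := by exact_mod_cast hN
  have hN0 : (0 : ℝ) < N := by linarith
  have hlog : 0 < log (N : ℝ) := log_pos (by linarith)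
  have hsN : 0 < √(N : ℝ) := sqrt_pos.2 hN0
  have hsq : √(N : ℝ) * √(N : ℝ) = N := mul_self_sqrt hN0.le
  obtain ⟨h, hh⟩ : ∃ h, h = A * √(N : ℝ) := ⟨_, rfl⟩
  have hh0 : 0 < h := by rw [hh]; positivity
  have hh' : h = lam * √((1 + η) * N) := by
    rw [hh, hA, sqrt_mul (by linarith)]
    ring
  obtain ⟨M, hM⟩ : ∃ M, M = ⌊η * N / h⌋₊ := ⟨_, rfl⟩
  have hu : η * N / h = η / A * √(N : ℝ) := by
    rw [hh, div_eq_iff (by positivity)]
    rw [show η / A * √(N : ℝ) * (A * √(N : ℝ)) = η / A * A * (√(N : ℝ) * √(N : ℝ)) by ring, hsq]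
    field_simp
  have hMle : (M : ℝ) ≤ η * N / h := by rw [hM]; exact Nat.floor_le (by positivity)
  have hMge : θ * (η * N / h) ≤ M := by
    have h4 : η * N / h < M + 1 := by rw [hM]; exact Nat.lt_floor_add_one _
    have h5 : 1 ≤ (1 - θ) * (η * N / h) := by
      rw [hu]
      rw [div_le_iff₀ (by have : 0 < 1 - θ := by linarith
                          positivity)] at h3
      have h6 : (1 - θ) * (η / A * √(N : ℝ)) = √(N : ℝ) * (η * (1 - θ)) / A := by ring
      rw [h6, le_div_iff₀ hA0]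
      linarith
    linarith
  have hM0 : (0 : ℝ) < M := lt_of_lt_of_le (by positivity) hMge
  have hM1 : 0 < M := by exact_mod_cast hM0
  -- the windows
  obtain ⟨I, hI⟩ : ∃ I : ℕ → Finset ℕ, ∀ i, I i = (WW Q K η N).filter
      (fun n : ℕ => (N : ℝ) + i * h < n ∧ (n : ℝ) ≤ N + (i + 1) * h) := ⟨_, fun _ => rfl⟩
  have hdisj : ∀ i ∈ range M, ∀ j ∈ range M, i ≠ j → Disjoint (I i) (I j) := by
    intro i _ j _ hij
    rw [disjoint_left]
    intro n hi hj
    rw [hI, mem_filter] at hi hj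
    rcases Nat.lt_or_gt_of_ne hij with h4 | h4
    · have h5 : ((i : ℝ) + 1) * h ≤ j * h := by
        refine mul_le_mul_of_nonneg_right ?_ hh0.le
        exact_mod_cast h4
      linarith [hi.2.2, hj.2.1]
    · have h5 : ((j : ℝ) + 1) * h ≤ i * h := by
        refine mul_le_mul_of_nonneg_right ?_ hh0.le
        exact_mod_cast h4
      linarith [hj.2.2, hi.2.1]
  have hsum : ∑ i ∈ range M, (I i).card ≤ (WW Q K η N).card := by
    rw [← card_biUnion hdisj]
    refine card_le_card fun n hn => ?_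
    rw [mem_biUnion] at hn
    obtain ⟨i, _, hi⟩ := hn
    rw [hI, mem_filter] at hi
    exact hi.1
  obtain ⟨i, hi, hile⟩ : ∃ i ∈ range M, (I i).card * M ≤ (WW Q K η N).card := by
    by_contra hcon
    push Not at hcon
    have h4 : ∑ i ∈ range M, (WW Q K η N).card < ∑ i ∈ range M, (I i).card * M :=
      sum_lt_sum_of_nonempty ⟨0, mem_range.2 hM1⟩ hcon
    rw [sum_const, card_range, smul_eq_mul, ← sum_mul] at h4
    have h5 : (∑ i ∈ range M, (I i).card) * M ≤ (WW Q K η N).card * M :=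
      Nat.mul_le_mul_right M hsum
    rw [mul_comm (WW Q K η N).card] at h5
    omega
  have hiM : ((i : ℝ) + 1) * h ≤ η * N := by
    have h4 : ((i : ℝ) + 1) ≤ M := by exact_mod_cast mem_range.1 hi
    have h5 : ((i : ℝ) + 1) ≤ η * N / h := h4.trans hMle
    rwa [le_div_iff₀ hh0] at h5
  refine ⟨N + i * h, I i, by have : 0 ≤ (i : ℝ) * h := by positivity
                             linarith, ?_, ?_⟩
  · have h4 : ((I i).card : ℝ) * M ≤ (WW Q K η N).card := by exact_mod_cast hile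
    have h5 : ((WW Q K η N).card : ℝ) ≤ (η * PiQ Q + δ) * (N / log N) := by
      rw [div_le_iff₀ hN0] at h1
      rw [← mul_div_assoc, le_div_iff₀ hlog]
      linarith
    have h6 : ((I i).card : ℝ) * (θ * (η * N / h)) ≤ (η * PiQ Q + δ) * (N / log N) :=
      (mul_le_mul_of_nonneg_left hMge (Nat.cast_nonneg _)).trans (h4.trans h5)
    have h7 : (η * PiQ Q + δ) * (N / log N) = (c * (2 * √(N : ℝ) / log N)) * (θ * (η * N / h)) := by
      have e1 : η * PiQ Q + δ = η * (2 * c + PiQ Q * A) / (2 * A) := by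
        rw [hδ]
        field_simp
        ring
      have e2 : θ * (η * N / h) = (2 * c + PiQ Q * A) / (4 * c) * (η / A * √(N : ℝ)) := by
        rw [hu, hθ]
      rw [e1, e2]
      have e3 : c * (2 * √(N : ℝ) / log N) * ((2 * c + PiQ Q * A) / (4 * c) * (η / A * √(N : ℝ))) =
          η * (2 * c + PiQ Q * A) / (2 * A) * ((√(N : ℝ) * √(N : ℝ)) / log N) := by
        field_simp
        ring
      rw [e3, hsq]
    rw [h7] at h6
    have h8 : ((I i).card : ℝ) ≤ c * (2 * √(N : ℝ) / log N) :=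
      le_of_mul_le_mul_right h6 (by positivity)
    exact_mod_cast h8.trans h2
  · intro n hn1 hn2
    have hX : (N : ℝ) + i * h ≤ (1 + η) * N := by nlinarith
    have h4 : lam * √((N : ℝ) + i * h) ≤ h := by
      rw [hh']
      rw [hh'] at hX
      exact mul_le_mul_of_nonneg_left (sqrt_le_sqrt hX) hlam.le
    have h5 : (n : ℝ) ≤ N + (i + 1) * h := by linarith
    have h6 : n ∈ Ioc N ⌊(1 + η) * N⌋₊ := by
      rw [mem_Ioc, Nat.le_floor_iff (by positivity)]
      constructor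
      · have h7 : (N : ℝ) < n := by
          have : 0 ≤ (i : ℝ) * h := by positivity
          linarith
        exact_mod_cast h7
      · linarith
    by_cases hW : ∀ p : ℕ, p.Prime → p ∣ n → p ∈ Q ∨ N < K ^ 2 * p ^ 2
    · left
      rw [hI, mem_filter, WW, mem_filter]
      exact ⟨⟨h6, hW⟩, hn1, h5⟩
    · right
      push Not at hW
      exact hW

end Pool.Agent.SPT.T3
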