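import Pool.Agent.SPT.T3D

set_option autoImplicit false

/-!
# SPT / T3E: the iteration
-/

open Filter Real Topology Finset Classical

namespace Pool.Agent.SPT.T3

theorem PiQ_le (Q : Finset ℕ) (s : ℝ) (hQ : ∑ p ∈ Q.filter Nat.Prime, 1 / (p : ℝ) ≤ s) :
    PiQ Q ≤ exp (2 * s) := by
  unfold PiQ
  have h1 : ∀ p ∈ Q.filter Nat.Prime, (1 - 1 / (p : ℝ))⁻¹ ≤ exp (2 * (1 / (p : ℝ))) := by
    intro p hp
    have h2 : (2 : ℝ) ≤ p := by exact_mod_cast (mem_filter.1 hp).2.two_le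
    obtain ⟨u, hu⟩ : ∃ u, u = 1 / (p : ℝ) := ⟨_, rfl⟩
    have hu0 : 0 < u := by rw [hu]; positivity
    have hu1 : u ≤ 1 / 2 := by rw [hu]; exact one_div_le_one_div_of_le (by norm_num) h2
    rw [← hu]
    have h3 : 1 + 2 * u ≤ exp (2 * u) := by
      have := add_one_le_exp (2 * u)
      linarith
    refine le_trans ?_ h3
    rw [inv_le_comm₀ (by linarith) (by linarith), inv_le_iff_one_le_mul₀ (by linarith)]
    nlinarith
  calc ∏ p ∈ Q.filter Nat.Prime, (1 - 1 / (p : ℝ))⁻¹ ≤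
      ∏ p ∈ Q.filter Nat.Prime, exp (2 * (1 / (p : ℝ))) := by
        refine prod_le_prod (fun p hp => ?_) h1
        have h2 : (1 : ℝ) < p := by exact_mod_cast (mem_filter.1 hp).2.one_lt
        have h3 : 1 / (p : ℝ) < 1 := by rw [div_lt_one (by linarith)]; exact h2
        exact inv_nonneg.2 (by linarith)
    _ = exp (∑ p ∈ Q.filter Nat.Prime, 2 * (1 / (p : ℝ))) := by rw [exp_sum]
    _ ≤ exp (2 * s) := by
        rw [← Finset.mul_sum]
        exact exp_le_exp.2 (by linarith)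

/-- the state: a bound, the classes, the changed primes -/
structure St where
  b : ℕ
  c : ℕ → ℕ
  Q : Finset ℕ

structure Inv (s : ℝ) (σ : St) : Prop where
  prime : ∀ p ∈ σ.Q, p.Prime
  le : ∀ p ∈ σ.Q, p ≤ σ.b
  zero : ∀ p, p ∉ σ.Q → σ.c p = 0
  sum : ∑ p ∈ σ.Q, 1 / (p : ℝ) ≤ s

structure Ext (lam : ℝ) (N0 : ℕ) (σ σ' : St) : Prop where
  lt : σ.b < σ'.b
  eq : ∀ p ≤ σ.b, σ'.c p = σ.c p
  cov : ∃ x : ℝ, (N0 : ℝ) ≤ x ∧ ∀ n : ℕ, x < n → (n : ℝ) < x + lam * √x →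
    ∃ p : ℕ, p.Prime ∧ p ^ 2 ≤ n ∧ p ≤ σ'.b ∧ n ≡ σ'.c p [MOD p]

theorem exists_surj (V D : Finset ℕ) (h : V.card ≤ D.card) :
    ∃ g : ℕ → ℕ, ∀ n ∈ V, ∃ p ∈ D, g p = n := by
  obtain ⟨T, hT, hc⟩ := exists_subset_card_eq h
  obtain ⟨e⟩ : Nonempty (T ≃ V) := ⟨equivOfCardEq hc⟩
  refine ⟨fun p => if hp : p ∈ T then (e ⟨p, hp⟩ : ℕ) else 0, fun n hn => ?_⟩
  refine ⟨(e.symm ⟨n, hn⟩ : ℕ), hT (e.symm ⟨n, hn⟩).2, ?_⟩
  simp only [(e.symm ⟨n, hn⟩).2, dif_pos, Subtype.coe_eta, Equiv.apply_symm_apply]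

theorem step (K : ℕ) (hK : 1 ≤ K) (η lam ε s s' : ℝ) (hη : 0 < η) (hη1 : η ≤ 1) (hlam : 0 < lam)
    (hs : s < s') (hse : s ≤ ε) (hcond : exp (2 * ε) * (lam * √(1 + η)) < 2 * (1 - 1 / K)) (N0 : ℕ)
    (σ : St) (hσ : Inv s σ) : ∃ σ' : St, Inv s' σ' ∧ Ext lam N0 σ σ' := by
  have hQf : σ.Q.filter Nat.Prime = σ.Q := filter_true_of_mem hσ.prime
  have hPi : PiQ σ.Q ≤ exp (2 * ε) := by
    refine (PiQ_le σ.Q s (by rw [hQf]; exact hσ.sum)).trans (exp_le_exp.2 (by linarith))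
  have hc : PiQ σ.Q * (lam * √(1 + η)) < 2 * (1 - 1 / K) := lt_of_le_of_lt
    (mul_le_mul_of_nonneg_right hPi (mul_nonneg hlam.le (sqrt_nonneg _))) hcond
  obtain ⟨N, ⟨X, V, hNX, hVD, hcov⟩, hsum, hN0, hNb⟩ := ((stage σ.Q K hK η lam hη hη1 hlam hc).and
    ((DD_sum K hK (s' - s) (by linarith)).and ((eventually_ge_atTop N0).and
      (eventually_gt_atTop (K ^ 2 * (σ.b + 1) ^ 2))))).exists
  obtain ⟨g, hg⟩ := exists_surj V (DD K N) hVD
  have hbN : σ.b < N := by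
    have h1 : 1 ≤ K ^ 2 := Nat.one_le_pow _ _ hK
    nlinarith
  have hDb : ∀ p ∈ DD K N, σ.b < p ∧ p ≤ N ∧ p.Prime ∧ p ^ 2 ≤ N ∧ N < K ^ 2 * p ^ 2 := by
    intro p hp
    rw [DD, mem_filter, mem_Icc] at hp
    have h1 : p ^ 2 ≤ N := Nat.le_sqrt'.1 hp.1.2
    refine ⟨?_, ?_, hp.2.1, h1, hp.2.2⟩
    · by_contra hcon
      push Not at hcon
      have h2 : K ^ 2 * p ^ 2 ≤ K ^ 2 * (σ.b + 1) ^ 2 :=
        Nat.mul_le_mul_left _ (Nat.pow_le_pow_left (by omega) 2)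
      have := hp.2.2
      omega
    · nlinarith [hp.2.1.one_lt]
  refine ⟨⟨N, fun p => if p ∈ DD K N then g p else σ.c p, σ.Q ∪ DD K N⟩, ⟨?_, ?_, ?_, ?_⟩,
    ⟨hbN, ?_, ⟨X, ?_, ?_⟩⟩⟩
  · intro p hp
    rcases mem_union.1 hp with h | h
    · exact hσ.prime p h
    · exact (hDb p h).2.2.1
  · intro p hp
    rcases mem_union.1 hp with h | h
    · exact (hσ.le p h).trans hbN.le
    · exact (hDb p h).2.1
  · intro p hp
    change p ∉ σ.Q ∪ DD K N at hp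
    rw [mem_union, not_or] at hp
    show (if p ∈ DD K N then g p else σ.c p) = 0
    rw [if_neg hp.2]
    exact hσ.zero p hp.1
  · show ∑ p ∈ σ.Q ∪ DD K N, 1 / (p : ℝ) ≤ s'
    have h1 : ∑ p ∈ σ.Q ∪ DD K N, 1 / (p : ℝ) ≤
        ∑ p ∈ σ.Q, 1 / (p : ℝ) + ∑ p ∈ DD K N, 1 / (p : ℝ) := by
      rw [← sum_union_inter]
      have : 0 ≤ ∑ p ∈ σ.Q ∩ DD K N, 1 / (p : ℝ) := sum_nonneg fun p _ => by positivity
      linarith
    linarith [hσ.sum]
  · intro p hp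
    show (if p ∈ DD K N then g p else σ.c p) = σ.c p
    rw [if_neg]
    intro h
    have := (hDb p h).1
    omega
  · exact le_trans (by exact_mod_cast hN0) hNX
  · intro n hn1 hn2
    have hNn : N < n := by
      have : (N : ℝ) < n := lt_of_le_of_lt hNX hn1
      exact_mod_cast this
    rcases hcov n hn1 hn2 with h | ⟨p, hp, hpn, hpQ, hpK⟩
    · obtain ⟨p, hp, hgp⟩ := hg n h
      obtain ⟨h1, h2, h3, h4, h5⟩ := hDb p hp
      refine ⟨p, h3, by omega, h2, ?_⟩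
      show n ≡ (if p ∈ DD K N then g p else σ.c p) [MOD p]
      rw [if_pos hp, hgp]
    · have h1 : 1 ≤ K ^ 2 := Nat.one_le_pow _ _ hK
      have h2 : p ^ 2 ≤ N := le_trans (by nlinarith [sq_nonneg p]) hpK
      refine ⟨p, hp, by omega, ?_, ?_⟩
      · show p ≤ N
        nlinarith [hp.one_lt]
      · show n ≡ (if p ∈ DD K N then g p else σ.c p) [MOD p]
        rw [if_neg, hσ.zero p hpQ]
        · exact Nat.modEq_zero_iff_dvd.2 hpn
        · intro h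
          have := (hDb p h).2.2.2.2
          omega

theorem main (lam ε : ℝ) (hlam : lam < 2) (hε : 0 < ε) : ∃ c : ℕ → ℕ,
    Summable (fun p : ℕ => if p.Prime ∧ ¬ p ∣ c p then 1 / (p : ℝ) else 0) ∧
    ∑' p : ℕ, (if p.Prime ∧ ¬ p ∣ c p then 1 / (p : ℝ) else 0) < ε ∧
    ∃ᶠ x : ℝ in atTop, ∀ n : ℕ, x < n → (n : ℝ) < x + lam * √x →
      ∃ p : ℕ, p.Prime ∧ p ^ 2 ≤ n ∧ n ≡ c p [MOD p] := by
  -- parameters
  obtain ⟨l, hl⟩ : ∃ l, l = max lam 1 := ⟨_, rfl⟩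
  have hl1 : 1 ≤ l := by rw [hl]; exact le_max_right _ _
  have hl2 : l < 2 := by rw [hl]; exact max_lt hlam (by norm_num)
  have hll : lam ≤ l := by rw [hl]; exact le_max_left _ _
  obtain ⟨K, hK1, η, hη, hη1, e, he, heε, hcond⟩ : ∃ K : ℕ, 1 ≤ K ∧ ∃ η : ℝ, 0 < η ∧ η ≤ 1 ∧
      ∃ e : ℝ, 0 < e ∧ e < ε ∧ exp (2 * e) * (l * √(1 + η)) < 2 * (1 - 1 / K) := by
    have t1 : Tendsto (fun k : ℕ => exp (2 * (1 / (k : ℝ))) * (l * √(1 + 1 / (k : ℝ)))) atTop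
        (𝓝 (exp (2 * 0) * (l * √(1 + 0)))) := by
      have h0 : Tendsto (fun k : ℕ => 1 / (k : ℝ)) atTop (𝓝 0) := tendsto_one_div_atTop_nhds_zero_nat
      exact ((continuous_exp.tendsto _).comp (h0.const_mul 2)).mul
        (tendsto_const_nhds.mul ((continuous_sqrt.tendsto _).comp (tendsto_const_nhds.add h0)))
    have t2 : Tendsto (fun k : ℕ => 2 * (1 - 1 / (k : ℝ))) atTop (𝓝 (2 * (1 - 0))) :=
      (tendsto_const_nhds.sub tendsto_one_div_atTop_nhds_zero_nat).const_mul 2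
    have t3 := t1.eventually_lt t2 (by
      rw [mul_zero, exp_zero, add_zero, sqrt_one]
      linarith)
    have t4 : ∀ᶠ k : ℕ in atTop, 1 / (k : ℝ) < ε := tendsto_one_div_atTop_nhds_zero_nat.eventually_lt_const hε
    obtain ⟨k, h1, h2, h3⟩ := (t3.and (t4.and (eventually_ge_atTop 1))).exists
    have hk : (1 : ℝ) ≤ k := by exact_mod_cast h3
    exact ⟨k, h3, 1 / k, by positivity, by rw [div_le_one (by linarith)]; exact hk, 1 / k,
      by positivity, h2, h1⟩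
  -- the sequence of bounds
  obtain ⟨s, hs⟩ : ∃ s : ℕ → ℝ, ∀ k, s k = e * (1 - (1 / 2) ^ k) := ⟨_, fun _ => rfl⟩
  have hs0 : s 0 = 0 := by rw [hs]; simp
  have hslt : ∀ k, s k < s (k + 1) := by
    intro k
    rw [hs, hs, pow_succ]
    have : (0 : ℝ) < (1 / 2) ^ k := by positivity
    nlinarith
  have hsle : ∀ k, s k ≤ e := by
    intro k
    rw [hs]
    have : (0 : ℝ) < (1 / 2) ^ k := by positivity
    nlinarith
  have hstep : ∀ (k : ℕ) (σ : St), Inv (s k) σ → ∃ σ' : St, Inv (s (k + 1)) σ' ∧ Ext l k σ σ' :=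
    fun k σ hσ => step K hK1 η l e (s k) (s (k + 1)) hη hη1 (by linarith) (hslt k) (hsle k) hcond k σ hσ
  choose! nxt hnxt using hstep
  obtain ⟨q, hq⟩ : ∃ q : ℕ → St, q = fun k => Nat.rec (⟨0, fun _ => 0, ∅⟩ : St)
      (fun k σ => nxt k σ) k := ⟨_, rfl⟩
  have hq0 : q 0 = ⟨0, fun _ => 0, ∅⟩ := by subst hq; rfl
  have hqs : ∀ k, q (k + 1) = nxt k (q k) := by intro k; subst hq; rfl
  have hInv : ∀ k, Inv (s k) (q k) := by
    intro k
    induction k with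
    | zero =>
      rw [hq0, hs0]
      exact ⟨fun p hp => absurd hp (notMem_empty p), fun p hp => absurd hp (notMem_empty p),
        fun _ _ => rfl, by simp⟩
    | succ k ih =>
      rw [hqs]
      exact (hnxt k (q k) ih).1
  have hExt : ∀ k, Ext l k (q k) (q (k + 1)) := by
    intro k
    rw [hqs]
    exact (hnxt k (q k) (hInv k)).2
  have hb : ∀ k, k ≤ (q k).b := by
    intro k
    induction k with
    | zero => exact Nat.zero_le _
    | succ k ih =>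
      have := (hExt k).lt
      omega
  have hmono : ∀ j k, j ≤ k → (q j).b ≤ (q k).b := by
    intro j k hjk
    induction k, hjk using Nat.le_induction with
    | base => exact le_rfl
    | succ k _ ih => exact ih.trans (hExt k).lt.le
  have hconst : ∀ j k, j ≤ k → ∀ p ≤ (q j).b, (q k).c p = (q j).c p := by
    intro j k hjk
    induction k, hjk using Nat.le_induction with
    | base => exact fun _ _ => rfl
    | succ k hjk ih =>
      intro p hp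
      rw [(hExt k).eq p (hp.trans (hmono j k hjk)), ih p hp]
  obtain ⟨c, hc⟩ : ∃ c : ℕ → ℕ, ∀ p, c p = (q p).c p := ⟨_, fun _ => rfl⟩
  have hcq : ∀ k p, p ≤ (q k).b → c p = (q k).c p := by
    intro k p hp
    rw [hc]
    rcases le_total k p with h | h
    · exact hconst k p h p hp
    · exact (hconst p k h p (hb p)).symm
  have hfin : ∀ T : Finset ℕ, ∑ p ∈ T, (if p.Prime ∧ ¬ p ∣ c p then 1 / (p : ℝ) else 0) ≤ e := by
    intro T
    obtain ⟨k, hk⟩ : ∃ k, k = T.sup id := ⟨_, rfl⟩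
    have h1 : ∀ p ∈ T, p ≤ (q k).b := by
      intro p hp
      have h2 := le_sup (f := id) hp
      rw [← hk] at h2
      exact h2.trans (hb k)
    rw [← sum_filter]
    have h2 : T.filter (fun p => p.Prime ∧ ¬ p ∣ c p) ⊆ (q k).Q := by
      intro p hp
      rw [mem_filter] at hp
      by_contra hcon
      have h3 := (hInv k).zero p hcon
      rw [← hcq k p (h1 p hp.1)] at h3
      rw [h3] at hp
      exact hp.2.2 (dvd_zero p)
    calc ∑ p ∈ T.filter (fun p => p.Prime ∧ ¬ p ∣ c p), 1 / (p : ℝ) ≤ ∑ p ∈ (q k).Q, 1 / (p : ℝ) :=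
          sum_le_sum_of_subset_of_nonneg h2 fun p _ _ => by positivity
      _ ≤ s k := (hInv k).sum
      _ ≤ e := hsle k
  have hnn : ∀ p : ℕ, 0 ≤ (if p.Prime ∧ ¬ p ∣ c p then 1 / (p : ℝ) else 0) := by
    intro p
    split_ifs
    · positivity
    · exact le_rfl
  refine ⟨c, summable_of_sum_le hnn hfin, ?_, ?_⟩
  · exact lt_of_le_of_lt (Real.tsum_le_of_sum_le hnn hfin) heε
  · rw [frequently_atTop]
    intro a
    obtain ⟨x, hx, hcov⟩ := (hExt ⌈a⌉₊).cov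
    refine ⟨x, (Nat.le_ceil a).trans hx, fun n hn1 hn2 => ?_⟩
    obtain ⟨p, hp1, hp2, hp3, hp4⟩ := hcov n hn1 (hn2.trans_le (by
      have : lam * √x ≤ l * √x := mul_le_mul_of_nonneg_right hll (sqrt_nonneg _)
      linarith))
    refine ⟨p, hp1, hp2, ?_⟩
    rw [hcq _ p hp3]
    exact hp4

end Pool.Agent.SPT.T3
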